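import Pool.Agent.W_2cf66e_E1.LeA3

/-!
# MP_2cf66e_nt, one inequality: cells (helper12, after helper3)
-/

set_option autoImplicit false

noncomputable section

open MeasureTheory MvPolynomial

namespace Pool.Agent.E1

open Pool.Agent.CVol Pool.Agent.OneIneq

/-- The cell function. -/
theorem cell_abs3 {n m : ℕ} (p : Fin m → MvPolynomial (Fin n) ℚ) (q h : MvPolynomial (Fin n) ℚ)
    (c : ℚ) (e : ℕ) :
    AbsF3 (box (Fin n)) (Set.indicator
      {y : Fin n → ℝ | y ∈ ocube n ∧ (∀ k, 0 < aeval y (p k)) ∧ aeval y q ≠ 0}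
      (fun y => (aeval y h : ℝ) * (aeval y (C c * (q ^ 2 * (∏ k, p k) * den n))) ^ (e + 3))) := by
  have h1 := AbsF3.poly (box_bound (Fin n))
    (h * C (c ^ (e + 3)) * q ^ (2 * (e + 3)) * den n ^ (e + 3) * ∏ k, p k ^ e)
  have h2 := AbsF3.prod (box_bound (Fin n)) Finset.univ
    (fun k y => (max 0 (aeval y (p k) : ℝ)) ^ 3) fun k _ => AbsF3.pos (box_bound (Fin n)) (p k)
  refine (h1.mul h2).congr fun z hz => ?_
  by_cases hU : z ∈ {y : Fin n → ℝ | y ∈ ocube n ∧ (∀ k, 0 < (aeval y (p k) : ℝ)) ∧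
      (aeval y q : ℝ) ≠ 0}
  · rw [Set.indicator_of_mem hU]
    have h3 : ∏ k, (max 0 (aeval z (p k) : ℝ)) ^ 3 = (∏ k, (aeval z (p k) : ℝ)) ^ 3 := by
      rw [← Finset.prod_pow]
      refine Finset.prod_congr rfl fun k _ => ?_
      rw [max_eq_right (hU.2.1 k).le]
    rw [h3]
    simp only [map_mul, map_pow, map_prod, aeval_C, eq_ratCast, Finset.prod_pow]
    push_cast
    ring
  · rw [Set.indicator_of_notMem hU]
    symm
    simp only [map_mul, map_pow, map_prod, HCell_den]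
    rw [Set.mem_ofPred_eq, not_and_or, not_and_or] at hU
    rcases hU with h3 | h3 | h3
    · have h4 : ∏ i, (1 - (z i) ^ 2) = 0 := by
        rw [ocube, Set.mem_ofPred_eq] at h3
        push Not at h3
        obtain ⟨i, hi⟩ := h3
        rw [box_eq, Set.mem_ofPred_eq] at hz
        have h5 := abs_le.2 (hz i)
        have h6 : |z i| = 1 := le_antisymm h5 hi
        refine Finset.prod_eq_zero (Finset.mem_univ i) ?_
        rw [← sq_abs, h6]
        norm_num
      rw [h4]
      ring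
    · push Not at h3
      obtain ⟨k, hk⟩ := h3
      have h4 : ∏ k, (max 0 (aeval z (p k) : ℝ)) ^ 3 = 0 := by
        refine Finset.prod_eq_zero (Finset.mem_univ k) ?_
        rw [max_eq_left hk]
        norm_num
      rw [h4]
      ring
    · rw [not_not] at h3
      rw [h3]
      ring

/-- A cell integral is a combination of `L^3` norms of polynomials. -/
theorem cell_av3 {n m : ℕ} (p : Fin m → MvPolynomial (Fin n) ℚ) (r q : MvPolynomial (Fin n) ℚ)
    (hint : IntegrableOn (fun y : Fin n → ℝ => (aeval y r : ℝ) / aeval y q)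
      {y : Fin n → ℝ | y ∈ ocube n ∧ (∀ k, 0 < (aeval y (p k) : ℝ)) ∧ (aeval y q : ℝ) ≠ 0}) :
    AV3 (∫ y in {y : Fin n → ℝ | y ∈ ocube n ∧ (∀ k, 0 < (aeval y (p k) : ℝ)) ∧
      (aeval y q : ℝ) ≠ 0}, (aeval y r : ℝ) / aeval y q) := by
  obtain ⟨F, f, c, hFc, hcell, hfF⟩ := exists_cell' p r q
  set U := {y : Fin n → ℝ | y ∈ ocube n ∧ (∀ k, 0 < (aeval y (p k) : ℝ)) ∧
      (aeval y q : ℝ) ≠ 0} with hU
  have hUm : MeasurableSet U := hcell.isOpen.measurableSet
  rw [setIntegral_congr_fun hUm hfF]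
  obtain ⟨μ, hμ⟩ := cell_log hcell f (hint.congr_fun hfF hUm)
  obtain ⟨h, hh⟩ := hμ (8 * μ + 3) (by omega)
  rw [hh]
  refine AV3.sum _ _ fun i hi => ?_
  have hi' : i ≤ μ := Nat.lt_succ_iff.1 (Finset.mem_range.1 hi)
  obtain ⟨e, he⟩ : ∃ e, 8 * μ + 3 = 8 * i + (e + 3) := ⟨8 * μ - 8 * i, by omega⟩
  have h1 : ∫ x in U, (aeval x (h i) : ℝ) * (aeval x F) ^ (8 * μ + 3) *
      (Real.log (aeval x F)) ^ i = ∫ y in box (Fin n), (U.indicator
        (fun y => (aeval y (h i) : ℝ) * (aeval y F) ^ (e + 3)) y) * fl8 (aeval y F) ^ i := by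
    have h2 : ∀ y : Fin n → ℝ, (U.indicator
        (fun y => (aeval y (h i) : ℝ) * (aeval y F) ^ (e + 3)) y) * fl8 (aeval y F) ^ i =
        U.indicator (fun x => (aeval x (h i) : ℝ) * (aeval x F) ^ (8 * μ + 3) *
          (Real.log (aeval x F)) ^ i) y := by
      intro y
      by_cases hy : y ∈ U
      · rw [Set.indicator_of_mem hy, Set.indicator_of_mem hy, he]
        unfold fl8
        rw [mul_pow, ← pow_mul, pow_add]
        ring
      · rw [Set.indicator_of_notMem hy, Set.indicator_of_notMem hy, zero_mul]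
    simp only [h2]
    rw [setIntegral_indicator hUm, Set.inter_eq_self_of_subset_right hcell.sub]
  rw [h1, box_ucube, ← integral_const_mul]
  have hFm : Measurable fun z : Fin n → ℝ => (aeval z F : ℝ) := (HCell_cont F).measurable
  have hsubm : Measurable fun (u : Fin n → ℝ) (i : Fin n) => 2 * u i - 1 := by
    fun_prop
  have h3 := log_pow3 i n (fun u => (2 : ℝ) ^ n * (U.indicator
    (fun y => (aeval y (h i) : ℝ) * (aeval y F) ^ (e + 3)) (fun i => 2 * u i - 1)))
    (bind₁ (fun i => 2 * X i - 1) F) ?_ ?_ ?_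
  · simp only [sub_val] at h3
    have h4 : ∀ u : Fin n → ℝ, (2 : ℝ) ^ n * ((U.indicator
        (fun y => (aeval y (h i) : ℝ) * (aeval y F) ^ (e + 3)) (fun i => 2 * u i - 1)) *
          fl8 (aeval (fun i => 2 * u i - 1) F) ^ i) = (2 : ℝ) ^ n * (U.indicator
        (fun y => (aeval y (h i) : ℝ) * (aeval y F) ^ (e + 3)) (fun i => 2 * u i - 1)) *
          fl8 (aeval (fun i => 2 * u i - 1) F) ^ i := fun u => by ring
    simp only [h4]
    exact h3
  · have h5 : Measurable (U.indicator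
        (fun y => (aeval y (h i) : ℝ) * (aeval y F) ^ (e + 3))) :=
      ((HCell_cont (h i)).measurable.mul (hFm.pow_const _)).indicator hUm
    exact (h5.comp hsubm).const_mul _
  · have h5 := cell_abs3 p q (h i) c e
    rw [← hFc] at h5
    have h6 := (box_to_ucube3 h5).smul ((2 : ℚ) ^ n)
    refine h6.congr fun z _ => ?_
    push_cast
    rfl
  · intro z _ hz
    rw [sub_val]
    have h5 : (fun i => 2 * z i - 1) ∈ U := by
      by_contra h6
      apply hz
      rw [Set.indicator_of_notMem h6, mul_zero]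
    exact ⟨hcell.pos _ h5, hcell.le_one _ h5⟩

theorem basic_av3 {n m : ℕ} (p : Fin m → MvPolynomial (Fin n) ℚ)
    (P Q : MvPolynomial (Fin n) ℚ) (hQ : Q ≠ 0)
    (hint : IntegrableOn (fun x : Fin n → ℝ => aeval x P / aeval x Q)
      {x : Fin n → ℝ | ∀ c, 0 < aeval x (p c)}) :
    AV3 (∫ x in {x : Fin n → ℝ | ∀ c, 0 < aeval x (p c)}, aeval x P / aeval x Q) := by
  classical
  have hA : MeasurableSet {x : Fin n → ℝ | ∀ c, 0 < aeval x (p c)} := by
    have h1 : {x : Fin n → ℝ | ∀ c, 0 < aeval x (p c)} =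
        ⋂ c, {x : Fin n → ℝ | 0 < aeval x (p c)} := by
      ext x
      simp only [Set.mem_ofPred_eq, Set.mem_iInter]
    rw [h1]
    exact MeasurableSet.iInter fun c =>
      (isOpen_lt continuous_const (HCell_cont (p c))).measurableSet
  obtain ⟨hiff, hval⟩ := change hA (fun x : Fin n → ℝ => aeval x P / aeval x Q)
  choose d p' hp' using fun c => exists_pull (p c)
  obtain ⟨dP, P', hP'⟩ := exists_pull P
  obtain ⟨dQ, Q', hQ'⟩ := exists_pull Q
  obtain ⟨r, hr⟩ : ∃ r : MvPolynomial (Fin n) ℚ, r = num n * P' * den n ^ dQ := ⟨_, rfl⟩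
  obtain ⟨q, hq⟩ : ∃ q : MvPolynomial (Fin n) ℚ, q = Q' * den n ^ (dP + 2) := ⟨_, rfl⟩
  have hq0 : q ≠ 0 := by
    intro h
    apply hQ
    apply HMain_eq_zero
    intro x
    obtain ⟨y, hy, rfl⟩ := phi_surj n x
    have h1 : aeval y q = 0 := by rw [h, map_zero]
    have h2 := (den_pos hy).ne'
    rw [hq, map_mul, map_pow, hQ' y hy] at h1
    rcases mul_eq_zero.1 h1 with h3 | h3
    · exact (mul_eq_zero.1 h3).resolve_right (pow_ne_zero _ h2)
    · exact absurd h3 (pow_ne_zero _ h2)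
  have hrq : ∀ y ∈ ocube n, aeval y (num n) / (aeval y (den n)) ^ 2 *
      (aeval (phi y) P / aeval (phi y) Q) = aeval y r / aeval y q := by
    intro y hy
    have h2 := (den_pos hy).ne'
    rw [hr, hq]
    simp only [map_mul, map_pow]
    rw [hP' y hy, hQ' y hy]
    by_cases h3 : aeval (phi y) Q = 0
    · rw [h3]
      simp
    · rw [pow_add]
      field_simp
  have hpos : ∀ y ∈ ocube n, ∀ c, (0 < aeval (phi y) (p c) ↔ 0 < aeval y (p' c)) := by
    intro y hy c
    rw [hp' c y hy]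
    have h2 : 0 < (aeval y (den n)) ^ (d c) := pow_pos (den_pos hy) _
    exact (mul_pos_iff_of_pos_right h2).symm
  obtain ⟨F, f, -, -, hcell, hfF⟩ := exists_cell' p' r q
  have hUB : {y : Fin n → ℝ | y ∈ ocube n ∧ (∀ k, 0 < aeval y (p' k)) ∧ aeval y q ≠ 0} ⊆
      ocube n ∩ {y | phi y ∈ {x : Fin n → ℝ | ∀ c, 0 < aeval x (p c)}} := by
    rintro y ⟨hy1, hy2, -⟩
    exact ⟨hy1, fun c => (hpos y hy1 c).2 (hy2 c)⟩
  have hBU : (ocube n ∩ {y | phi y ∈ {x : Fin n → ℝ | ∀ c, 0 < aeval x (p c)}}) \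
      {y : Fin n → ℝ | y ∈ ocube n ∧ (∀ k, 0 < aeval y (p' k)) ∧ aeval y q ≠ 0} ⊆
      {y : Fin n → ℝ | aeval y q = 0} := by
    rintro y ⟨⟨hy1, hy2⟩, hy3⟩
    by_contra h
    exact hy3 ⟨hy1, fun c => (hpos y hy1 c).1 (hy2 c), h⟩
  have hae : (ocube n ∩ {y | phi y ∈ {x : Fin n → ℝ | ∀ c, 0 < aeval x (p c)}} :
      Set (Fin n → ℝ)) =ᵐ[volume]
      {y : Fin n → ℝ | y ∈ ocube n ∧ (∀ k, 0 < aeval y (p' k)) ∧ aeval y q ≠ 0} := by
    rw [ae_eq_set]
    refine ⟨measure_mono_null hBU (null_rat q hq0), ?_⟩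
    rw [Set.diff_eq_empty.2 hUB, measure_empty]
  have hmeas : MeasurableSet
      {y : Fin n → ℝ | y ∈ ocube n ∧ (∀ k, 0 < aeval y (p' k)) ∧ aeval y q ≠ 0} :=
    hcell.isOpen.measurableSet
  have hEq : Set.EqOn (fun y => aeval y (num n) / (aeval y (den n)) ^ 2 *
      (aeval (phi y) P / aeval (phi y) Q)) (fun y => (aeval y r : ℝ) / aeval y q)
      {y : Fin n → ℝ | y ∈ ocube n ∧ (∀ k, 0 < aeval y (p' k)) ∧ aeval y q ≠ 0} := by
    intro y hy
    exact hrq y hy.1
  have hint2 : IntegrableOn (fun y => (aeval y r : ℝ) / aeval y q)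
      {y : Fin n → ℝ | y ∈ ocube n ∧ (∀ k, 0 < aeval y (p' k)) ∧ aeval y q ≠ 0} :=
    ((hiff.1 hint).mono_set hUB).congr_fun hEq hmeas
  have hfin : ∫ x in {x : Fin n → ℝ | ∀ c, 0 < aeval x (p c)}, aeval x P / aeval x Q =
      ∫ y in {y : Fin n → ℝ | y ∈ ocube n ∧ (∀ k, 0 < aeval y (p' k)) ∧ aeval y q ≠ 0},
        (aeval y r : ℝ) / aeval y q := by
    rw [hval, setIntegral_congr_set hae]
    exact setIntegral_congr_fun hmeas hEq
  rw [hfin]
  exact cell_av3 p' r q hint2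


/-- Every period is a rational combination of `L^3` norms of polynomials. -/
theorem period_av3 {x : ℝ} (h : IsPeriod x) : AV3 x := by
  classical
  obtain ⟨n, P, Q, k', m, p, hint, hval⟩ := h
  by_cases hQ : Q = 0
  · have h1 : x = 0 := by
      rw [← hval, hQ]
      simp
    rw [h1]
    exact AV3.zero
  · obtain ⟨p', hp'⟩ : ∃ p' : Fin k' → Fin m → MvPolynomial (Fin n) ℚ,
        p' = fun j i => if p j i = 0 then -1 else p j i := ⟨_, rfl⟩
    have hne : ∀ j i, p' j i ≠ 0 := by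
      intro j i
      rw [hp']
      by_cases h1 : p j i = 0
      · simp [h1]
      · simp [h1]
    have hpos : ∀ (y : Fin n → ℝ) j i, 0 < aeval y (p j i) ↔ 0 < aeval y (p' j i) := by
      intro y j i
      rw [hp']
      by_cases h1 : p j i = 0
      · simp only [h1, if_true, map_zero, map_neg, map_one]
        norm_num
      · simp only [h1, if_false]
    have hset : {x : Fin n → ℝ | ∃ j, ∀ i, 0 < aeval x (p j i)} =
        {x : Fin n → ℝ | ∃ j, ∀ i, 0 < aeval x (p' j i)} := by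
      ext y
      simp only [Set.mem_ofPred_eq, hpos]
    rw [hset] at hint hval
    obtain ⟨h1, h2⟩ := int_sign p' hne _ hint
    rw [← hval, h2]
    apply AV3.sum
    intro s hs
    have h3 : scell p' s = {x : Fin n → ℝ | ∀ c : Fin (k' * m),
        0 < aeval x (sg (s (finProdFinEquiv.symm c).1 (finProdFinEquiv.symm c).2) *
          p' (finProdFinEquiv.symm c).1 (finProdFinEquiv.symm c).2)} := by
      ext y
      constructor
      · intro hy c
        exact hy _ _
      · intro hy j i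
        have h4 := hy (finProdFinEquiv (j, i))
        rwa [Equiv.symm_apply_apply] at h4
    have h5 := h1 s hs
    rw [h3] at h5 ⊢
    exact basic_av3 _ P Q hQ h5

end Pool.Agent.E1
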