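import Pool.Agent.W_2cf66e_E1.DefsE

/-!
# MP_2cf66e_nt, theorem E1, leaf A6 (helper14): the flip
-/

set_option autoImplicit false

noncomputable section

open MeasureTheory Set Filter Topology

namespace Pool.Agent.E1

theorem hdA14 (t : ℝ) : HasDerivAt (fun t : ℝ => t * |t|) (2 * |t|) t := by
  rcases lt_trichotomy t 0 with h | h | h
  · have h1 : HasDerivAt (fun t : ℝ => t * -t) (1 * -t + t * -1) t :=
      (hasDerivAt_id t).mul (hasDerivAt_id t).neg
    have h2 : (fun t : ℝ => t * |t|) =ᶠ[𝓝 t] fun t : ℝ => t * -t := by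
      filter_upwards [Iio_mem_nhds h] with s hs
      rw [abs_of_neg hs]
    have h3 := h1.congr_of_eventuallyEq h2
    rw [abs_of_neg h]
    have e : 1 * -t + t * -1 = 2 * -t := by ring
    rw [e] at h3
    exact h3
  · subst h
    rw [hasDerivAt_iff_tendsto_slope_zero]
    have h1 : Tendsto (fun t : ℝ => |t|) (𝓝[≠] 0) (𝓝 (2 * |(0 : ℝ)|)) := by
      have : Tendsto (fun t : ℝ => |t|) (𝓝 0) (𝓝 |(0 : ℝ)|) := continuous_abs.tendsto 0
      simpa using this.mono_left nhdsWithin_le_nhds
    refine h1.congr' ?_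
    filter_upwards [self_mem_nhdsWithin] with s hs
    have hs' : s ≠ 0 := hs
    simp only [zero_add, smul_eq_mul, sub_zero, abs_zero, mul_zero]
    field_simp
  · have h1 : HasDerivAt (fun t : ℝ => t * t) (1 * t + t * 1) t :=
      (hasDerivAt_id t).mul (hasDerivAt_id t)
    have h2 : (fun t : ℝ => t * |t|) =ᶠ[𝓝 t] fun t : ℝ => t * t := by
      filter_upwards [Ioi_mem_nhds h] with s hs
      rw [abs_of_pos hs]
    have h3 := h1.congr_of_eventuallyEq h2
    rw [abs_of_pos h]
    have e : 1 * t + t * 1 = 2 * t := by ring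
    rw [e] at h3
    exact h3

theorem hdB14 (t : ℝ) : HasDerivAt (fun t : ℝ => |t| ^ 3) (3 * (t * |t|)) t := by
  have h1 : (fun t : ℝ => |t| ^ 3) = fun t : ℝ => t * (t * |t|) := by
    funext s
    rcases abs_cases s with ⟨h, _⟩ | ⟨h, _⟩ <;> rw [h] <;> ring
  rw [h1]
  have h2 : HasDerivAt (fun t : ℝ => t * (t * |t|)) (1 * (t * |t|) + t * (2 * |t|)) t :=
    (hasDerivAt_id t).mul (hdA14 t)
  convert h2 using 1
  ring

theorem inA14 {c b : ℝ} (hc : 0 < c) :
    ∫ y in Icc (0 : ℝ) 1, |c * y + b| = ((c + b) * |c + b| - b * |b|) / (2 * c) := by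
  rw [integral_Icc_eq_integral_Ioc, ← intervalIntegral.integral_of_le zero_le_one]
  have hd : ∀ x ∈ uIcc (0 : ℝ) 1,
      HasDerivAt (fun y : ℝ => (c * y + b) * |c * y + b| / (2 * c)) |c * x + b| x := by
    intro x _
    have h1 : HasDerivAt (fun y : ℝ => c * y + b) c x := by
      simpa using ((hasDerivAt_id x).const_mul c).add_const b
    have h2 := ((hdA14 (c * x + b)).comp x h1).div_const (2 * c)
    have e : 2 * |c * x + b| * c / (2 * c) = |c * x + b| := by
      field_simp
    rw [e] at h2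
    exact h2
  rw [intervalIntegral.integral_eq_sub_of_hasDerivAt hd
    ((by fun_prop : Continuous fun y : ℝ => |c * y + b|).intervalIntegrable _ _)]
  simp only [mul_one, mul_zero, zero_add]
  ring

theorem inB14 {c b : ℝ} (hc : 0 < c) :
    ∫ y in Icc (0 : ℝ) 1, (c * y + b) * |c * y + b| = (|c + b| ^ 3 - |b| ^ 3) / (3 * c) := by
  rw [integral_Icc_eq_integral_Ioc, ← intervalIntegral.integral_of_le zero_le_one]
  have hd : ∀ x ∈ uIcc (0 : ℝ) 1,
      HasDerivAt (fun y : ℝ => |c * y + b| ^ 3 / (3 * c)) ((c * x + b) * |c * x + b|) x := by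
    intro x _
    have h1 : HasDerivAt (fun y : ℝ => c * y + b) c x := by
      simpa using ((hasDerivAt_id x).const_mul c).add_const b
    have h2 := ((hdB14 (c * x + b)).comp x h1).div_const (3 * c)
    have e : 3 * ((c * x + b) * |c * x + b|) * c / (3 * c) = (c * x + b) * |c * x + b| := by
      field_simp
    rw [e] at h2
    exact h2
  rw [intervalIntegral.integral_eq_sub_of_hasDerivAt hd
    ((by fun_prop : Continuous fun y : ℝ => (c * y + b) * |c * y + b|).intervalIntegrable _ _)]
  simp only [mul_one, mul_zero, zero_add]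
  ring

theorem flip_one {om p : ℝ} (h0 : 0 < om) (hp : |p| ≤ om) :
    ∫ v : ℝ × ℝ in Set.Icc (0 : ℝ) 1 ×ˢ Set.Icc (0 : ℝ) 1, |om * (v.1 + v.2 - 1) - p| =
      om / 3 + p ^ 2 / om - |p| ^ 3 / (3 * om ^ 2) := by
  have hi : IntegrableOn (fun v : ℝ × ℝ => |om * (v.1 + v.2 - 1) - p|)
      (Set.Icc (0 : ℝ) 1 ×ˢ Set.Icc (0 : ℝ) 1) :=
    (by fun_prop : Continuous fun v : ℝ × ℝ => |om * (v.1 + v.2 - 1) - p|).continuousOn.integrableOn_compact
      (isCompact_Icc.prod isCompact_Icc)
  rw [Measure.volume_eq_prod] at hi ⊢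
  rw [setIntegral_prod _ hi]
  have h1 : ∀ x : ℝ, ∫ y in Icc (0 : ℝ) 1, |om * (x + y - 1) - p| =
      ((om * x + (-p)) * |om * x + (-p)| - (om * x + (-om - p)) * |om * x + (-om - p)|) /
        (2 * om) := by
    intro x
    have h2 := inA14 (c := om) (b := om * x - om - p) h0
    have h3 : (fun y : ℝ => |om * (x + y - 1) - p|) = fun y : ℝ => |om * y + (om * x - om - p)| := by
      funext y
      congr 1
      ring
    rw [h3, h2]
    have h4 : om + (om * x - om - p) = om * x + (-p) := by ring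
    have h5 : om * x - om - p = om * x + (-om - p) := by ring
    rw [h4, h5]
  simp only [h1]
  rw [integral_div, integral_sub, inB14 h0, inB14 h0]
  · have e1 : |om + -p| = om - p := by
      rw [abs_of_nonneg] <;> [ring; (have := (abs_le.1 hp).2; linarith)]
    have e2 : |om + (-om - p)| = |p| := by
      have : om + (-om - p) = -p := by ring
      rw [this, abs_neg]
    have e3 : |-om - p| = om + p := by
      have : -om - p = -(om + p) := by ring
      rw [this, abs_neg, abs_of_nonneg]
      have := (abs_le.1 hp).1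
      linarith
    rw [e1, e2, e3, abs_neg]
    have hom : om ≠ 0 := h0.ne'
    field_simp
    ring
  · exact ((by fun_prop : Continuous fun x : ℝ =>
      (om * x + (-p)) * |om * x + (-p)|)).continuousOn.integrableOn_compact isCompact_Icc
  · exact ((by fun_prop : Continuous fun x : ℝ =>
      (om * x + (-om - p)) * |om * x + (-om - p)|)).continuousOn.integrableOn_compact isCompact_Icc

end Pool.Agent.E1
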