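import Pool.Agent.W_2cf66e_E1.LeA5
import Pool.Agent.W_2cf66e_E1.LeA6

/-!
# MP_2cf66e_nt, theorem E1, leaf A7: all signs are minus (helper39)
-/

set_option autoImplicit false

noncomputable section

open MeasureTheory Set Filter Topology

namespace Pool.Agent.E1

open Pool.Agent.CVol Pool.Agent.OneIneq

theorem mem_ucube39 {n : ℕ} {z : Fin n → ℝ} : z ∈ ucube (Fin n) ↔ ∀ i, 0 ≤ z i ∧ z i ≤ 1 := by
  rw [ucube, Set.mem_Icc, Pi.le_def, Pi.le_def, ← forall_and]

theorem fub39 {n : ℕ} (F : (Fin (n + 1) → ℝ) → ℝ) (hF : Continuous F) :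
    ∫ θ in ucube (Fin (n + 1)), F θ =
      ∫ θ in ucube (Fin n), ∫ t in Set.Icc (0 : ℝ) 1, F (Fin.cons t θ) := by
  obtain ⟨C, hC⟩ := (ucube_compact (Fin (n + 1))).exists_bound_of_continuousOn hF.continuousOn
  refine (KVal_fub F hF.measurable _ C ?_).2
  filter_upwards [ae_restrict_mem (ucube_meas (Fin n))] with θ hθ
  have hc : Continuous fun t : ℝ => F (Fin.cons t θ) := by
    refine hF.comp ?_
    refine continuous_pi fun i => ?_
    refine Fin.cases ?_ (fun j => ?_) i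
    · exact continuous_id
    · exact continuous_const
  refine ⟨hc.continuousOn.integrableOn_compact isCompact_Icc, rfl, ?_⟩
  have h1 : ∫ t in Set.Icc (0 : ℝ) 1, |F (Fin.cons t θ)| ≤ ∫ _t in Set.Icc (0 : ℝ) 1, C := by
    refine setIntegral_mono_on (hc.abs.continuousOn.integrableOn_compact isCompact_Icc)
      (by simp) measurableSet_Icc fun t ht => ?_
    have h2 := hC (Fin.cons t θ) (by
      rw [mem_ucube39] at hθ ⊢
      intro i
      refine Fin.cases ?_ (fun j => ?_) i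
      · simpa using ht
      · simpa using hθ j)
    simpa using h2
  simpa using h1

/-- Two coordinates in front. -/
theorem fub2_39 {n : ℕ} (F : (Fin (n + 1 + 1) → ℝ) → ℝ) (hF : Continuous F) :
    ∫ θ in ucube (Fin (n + 1 + 1)), F θ =
      ∫ z in ucube (Fin n), ∫ v : ℝ × ℝ in Set.Icc (0 : ℝ) 1 ×ˢ Set.Icc (0 : ℝ) 1,
        F (Fin.cons v.1 (Fin.cons v.2 z)) := by
  have hcons : Continuous fun q : (Fin (n + 1) → ℝ) × ℝ => (Fin.cons q.2 q.1 :
      Fin (n + 1 + 1) → ℝ) := by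
    refine continuous_pi fun i => ?_
    refine Fin.cases ?_ (fun j => ?_) i
    · exact continuous_snd
    · exact (continuous_apply j).comp continuous_fst
  have hG : Continuous fun θ : Fin (n + 1) → ℝ => ∫ t in Set.Icc (0 : ℝ) 1, F (Fin.cons t θ) := by
    refine continuous_parametric_integral_of_continuous
      (f := fun (θ : Fin (n + 1) → ℝ) (t : ℝ) => F (Fin.cons t θ)) ?_ isCompact_Icc
    exact hF.comp hcons
  rw [fub39 F hF, fub39 _ hG]
  refine setIntegral_congr_fun (ucube_meas _) fun z _ => ?_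
  have hc : Continuous fun v : ℝ × ℝ => F (Fin.cons v.1 (Fin.cons v.2 z)) := by
    refine hF.comp ?_
    refine continuous_pi fun i => ?_
    refine Fin.cases ?_ (fun j => ?_) i
    · simpa using continuous_fst
    · refine Fin.cases ?_ (fun k => ?_) j
      · simpa using continuous_snd
      · simpa using continuous_const
  have hi : IntegrableOn (fun v : ℝ × ℝ => F (Fin.cons v.1 (Fin.cons v.2 z)))
      (Set.Icc (0 : ℝ) 1 ×ˢ Set.Icc (0 : ℝ) 1) :=
    hc.continuousOn.integrableOn_compact (isCompact_Icc.prod isCompact_Icc)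
  have h3 : ∫ v : ℝ × ℝ in Set.Icc (0 : ℝ) 1 ×ˢ Set.Icc (0 : ℝ) 1,
      F (Fin.cons v.1 (Fin.cons v.2 z)) = ∫ s in Set.Icc (0 : ℝ) 1, ∫ t in Set.Icc (0 : ℝ) 1,
        F (Fin.cons t (Fin.cons s z)) := by
    rw [Measure.volume_eq_prod, ← Measure.prod_restrict]
    rw [integral_prod_symm]
    rw [IntegrableOn, Measure.volume_eq_prod, ← Measure.prod_restrict] at hi
    exact hi
  exact h3.symm

/-- One term, sign minus. -/
theorem neg39 {N : ℕ} {w om : ℚ} (hw : 0 < w) (ho : 0 < om) (P : MvPolynomial (Fin N) ℚ)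
    (hP : ∀ z ∈ ucube (Fin N), |(MvPolynomial.aeval z P : ℝ)| ≤ om) :
    ∃ (r : ℚ) (R : MvPolynomial (Fin (N + 1 + 1)) ℚ),
      (∀ θ ∈ ucube (Fin (N + 1 + 1)), |(MvPolynomial.aeval θ R : ℝ)| ≤
        ((6 * w * om ^ 3 : ℚ) : ℝ)) ∧
      (-1 : ℝ) * (w * ∫ z in ucube (Fin N), |(MvPolynomial.aeval z P : ℝ)| ^ 3) =
        r - ∫ θ in ucube (Fin (N + 1 + 1)), |(MvPolynomial.aeval θ R : ℝ)| := by
  have hw' : (0 : ℝ) < w := by exact_mod_cast hw
  have ho' : (0 : ℝ) < om := by exact_mod_cast ho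
  set f : Fin N → Fin (N + 1 + 1) := fun i => i.succ.succ with hf
  refine ⟨0, MvPolynomial.C w * (MvPolynomial.rename f P) ^ 3, ?_, ?_⟩
  · intro θ hθ
    rw [map_mul, map_pow, MvPolynomial.aeval_rename, MvPolynomial.aeval_C, abs_mul, abs_pow]
    have h1 := hP (θ ∘ f) (by
      rw [mem_ucube39] at hθ ⊢
      intro i
      exact hθ _)
    have h2 : |(algebraMap ℚ ℝ) w| = w := by
      rw [eq_ratCast]
      exact abs_of_pos hw'
    rw [h2]
    have h3 : |(MvPolynomial.aeval (θ ∘ f) P : ℝ)| ^ 3 ≤ (om : ℝ) ^ 3 :=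
      pow_le_pow_left₀ (abs_nonneg _) h1 3
    have h4 : (0 : ℝ) < (w : ℝ) * (om : ℝ) ^ 3 := by positivity
    push_cast
    nlinarith [mul_le_mul_of_nonneg_left h3 hw'.le]
  · rw [fub2_39 _ (HCell_cont _).abs]
    have h5 : ∀ (z : Fin N → ℝ) (v : ℝ × ℝ), |(MvPolynomial.aeval
        (Fin.cons v.1 (Fin.cons v.2 z) : Fin (N + 1 + 1) → ℝ)
          (MvPolynomial.C w * (MvPolynomial.rename f P) ^ 3) : ℝ)| =
        w * |(MvPolynomial.aeval z P : ℝ)| ^ 3 := by
      intro z v
      have h6 : ((Fin.cons v.1 (Fin.cons v.2 z) : Fin (N + 1 + 1) → ℝ) ∘ f) = z := by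
        funext i
        simp [hf]
      rw [map_mul, map_pow, MvPolynomial.aeval_rename, h6, MvPolynomial.aeval_C, abs_mul,
        abs_pow, eq_ratCast, abs_of_pos hw']
    simp only [h5]
    have h7 : ∀ c : ℝ, ∫ _v : ℝ × ℝ in Set.Icc (0 : ℝ) 1 ×ˢ Set.Icc (0 : ℝ) 1, c = c := by
      intro c
      rw [Measure.volume_eq_prod, ← Measure.prod_restrict]
      have := KVal_prob
      simp
    simp only [h7]
    rw [integral_const_mul]
    push_cast
    ring

/-- One term, sign plus: the flip. -/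
theorem pos39 {N : ℕ} {w om : ℚ} (hw : 0 < w) (ho : 0 < om) (P : MvPolynomial (Fin N) ℚ)
    (hP : ∀ z ∈ ucube (Fin N), |(MvPolynomial.aeval z P : ℝ)| ≤ om) :
    ∃ (r : ℚ) (R : MvPolynomial (Fin (N + 1 + 1)) ℚ),
      (∀ θ ∈ ucube (Fin (N + 1 + 1)), |(MvPolynomial.aeval θ R : ℝ)| ≤
        ((6 * w * om ^ 3 : ℚ) : ℝ)) ∧
      (1 : ℝ) * (w * ∫ z in ucube (Fin N), |(MvPolynomial.aeval z P : ℝ)| ^ 3) =
        r - ∫ θ in ucube (Fin (N + 1 + 1)), |(MvPolynomial.aeval θ R : ℝ)| := by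
  have hw' : (0 : ℝ) < w := by exact_mod_cast hw
  have ho' : (0 : ℝ) < om := by exact_mod_cast ho
  set f : Fin N → Fin (N + 1 + 1) := fun i => i.succ.succ with hf
  obtain ⟨r2, hr2⟩ := ucube_rat (P ^ 2)
  set R : MvPolynomial (Fin (N + 1 + 1)) ℚ := MvPolynomial.C (3 * w * om ^ 2) *
    (MvPolynomial.C om * (MvPolynomial.X 0 + MvPolynomial.X 1 - 1) - MvPolynomial.rename f P)
    with hR
  have hval : ∀ θ : Fin (N + 1 + 1) → ℝ, |(MvPolynomial.aeval θ R : ℝ)| =
      3 * w * om ^ 2 * |om * (θ 0 + θ 1 - 1) - MvPolynomial.aeval (θ ∘ f) P| := by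
    intro θ
    have h1 : (MvPolynomial.aeval θ R : ℝ) = ((3 * w * om ^ 2 : ℚ) : ℝ) *
        (om * (θ 0 + θ 1 - 1) - MvPolynomial.aeval (θ ∘ f) P) := by
      rw [hR]
      simp only [map_mul, map_sub, map_add, MvPolynomial.aeval_X,
        MvPolynomial.aeval_rename, map_one, MvPolynomial.aeval_C, eq_ratCast, map_pow]
      push_cast
      ring
    rw [h1, abs_mul]
    have h0 : |((3 * w * om ^ 2 : ℚ) : ℝ)| = 3 * w * om ^ 2 := by
      push_cast
      exact abs_of_pos (by positivity)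
    rw [h0]
  refine ⟨w * om ^ 3 + 3 * w * om * r2, R, ?_, ?_⟩
  · intro θ hθ
    rw [hval]
    have h1 := hP (θ ∘ f) (by
      rw [mem_ucube39] at hθ ⊢
      intro i
      exact hθ _)
    rw [mem_ucube39] at hθ
    have h2 := hθ 0
    have h3 := hθ 1
    have h4 : |(om : ℝ) * (θ 0 + θ 1 - 1) - MvPolynomial.aeval (θ ∘ f) P| ≤ 2 * om := by
      have h5 : |(om : ℝ) * (θ 0 + θ 1 - 1)| ≤ om := by
        rw [abs_mul, abs_of_pos ho']
        have h6 : |θ 0 + θ 1 - 1| ≤ 1 := by
          rw [abs_le]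
          constructor <;> linarith [h2.1, h2.2, h3.1, h3.2]
        nlinarith [abs_nonneg (θ 0 + θ 1 - 1)]
      calc _ ≤ |(om : ℝ) * (θ 0 + θ 1 - 1)| + |(MvPolynomial.aeval (θ ∘ f) P : ℝ)| :=
            abs_sub _ _
        _ ≤ 2 * om := by linarith
    have h6 : (0 : ℝ) < 3 * w * om ^ 2 := by positivity
    push_cast
    nlinarith [mul_le_mul_of_nonneg_left h4 h6.le]
  · rw [fub2_39 _ (HCell_cont _).abs]
    have h5 : ∀ z ∈ ucube (Fin N), ∫ v : ℝ × ℝ in Set.Icc (0 : ℝ) 1 ×ˢ Set.Icc (0 : ℝ) 1,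
        |(MvPolynomial.aeval (Fin.cons v.1 (Fin.cons v.2 z) : Fin (N + 1 + 1) → ℝ) R : ℝ)| =
        w * om ^ 3 + 3 * w * om * (MvPolynomial.aeval z (P ^ 2) : ℝ) -
          w * |(MvPolynomial.aeval z P : ℝ)| ^ 3 := by
      intro z hz
      have h6 : ∀ v : ℝ × ℝ, ((Fin.cons v.1 (Fin.cons v.2 z) : Fin (N + 1 + 1) → ℝ) ∘ f) = z := by
        intro v
        funext i
        simp [hf]
      have h7 : ∀ v : ℝ × ℝ, |(MvPolynomial.aeval
          (Fin.cons v.1 (Fin.cons v.2 z) : Fin (N + 1 + 1) → ℝ) R : ℝ)| =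
          3 * w * om ^ 2 * |om * (v.1 + v.2 - 1) - MvPolynomial.aeval z P| := by
        intro v
        rw [hval, h6]
        rfl
      simp only [h7]
      rw [integral_const_mul, flip_one ho' (hP z hz), map_pow]
      field_simp
    rw [setIntegral_congr_fun (ucube_meas _) h5]
    have hi1 : IntegrableOn (fun z : Fin N → ℝ => (w : ℝ) * om ^ 3 +
        3 * w * om * (MvPolynomial.aeval z (P ^ 2) : ℝ)) (ucube (Fin N)) :=
      (continuous_const.add (continuous_const.mul (HCell_cont _))).continuousOn.integrableOn_compact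
        (ucube_compact _)
    have hi2 : IntegrableOn (fun z : Fin N → ℝ => (w : ℝ) * |(MvPolynomial.aeval z P : ℝ)| ^ 3)
        (ucube (Fin N)) :=
      (continuous_const.mul ((HCell_cont P).abs.pow 3)).continuousOn.integrableOn_compact
        (ucube_compact _)
    have hi3 : IntegrableOn (fun z : Fin N → ℝ =>
        3 * (w : ℝ) * om * (MvPolynomial.aeval z (P ^ 2) : ℝ)) (ucube (Fin N)) :=
      (continuous_const.mul (HCell_cont _)).continuousOn.integrableOn_compact
        (ucube_compact _)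
    have hi4 : IntegrableOn (fun _z : Fin N → ℝ => (w : ℝ) * om ^ 3) (ucube (Fin N)) :=
      continuous_const.continuousOn.integrableOn_compact (ucube_compact _)
    have hvol : ∀ c : ℝ, ∫ _z in ucube (Fin N), c = c := by
      intro c
      have : IsProbabilityMeasure ((volume : Measure (Fin N → ℝ)).restrict (ucube (Fin N))) := by
        rw [KVal_pi]
        have := KVal_prob
        infer_instance
      simp
    rw [integral_sub hi1 hi2, integral_add hi4 hi3, integral_const_mul, integral_const_mul, hr2,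
      hvol, integral_const_mul]
    push_cast
    ring

/-- `avm_of` with the conclusion of `AV3.small` as its hypothesis. -/
theorem avm_sm39 {x : ℝ} (hsm : ∀ ε : ℝ, 0 < ε →
    ∃ (N : ℕ) (α : Type) (_ : Fintype α) (r : ℚ) (σ : α → Bool) (w om : α → ℚ)
      (P : α → MvPolynomial (Fin N) ℚ), (∀ a, 0 < w a ∧ 0 < om a) ∧
      (∀ a, ∀ z ∈ ucube (Fin N), |(MvPolynomial.aeval z (P a) : ℝ)| ≤ om a) ∧
      ((∑ a, w a * om a ^ 3 : ℚ) : ℝ) ≤ ε ∧
      x = r + ∑ a, (if σ a then (1 : ℝ) else -1) * (w a *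
        ∫ z in ucube (Fin N), |(MvPolynomial.aeval z (P a) : ℝ)| ^ 3)) : AVm x := by
  classical
  intro ε hε
  obtain ⟨N, α, _, r, σ, w, om, P, hpos, hP, hs, hx⟩ := hsm (ε / 12) (by positivity)
  have hterm : ∀ a : α, ∃ (r' : ℚ) (R : MvPolynomial (Fin (N + 1 + 1)) ℚ),
      (∀ θ ∈ ucube (Fin (N + 1 + 1)), |(MvPolynomial.aeval θ R : ℝ)| ≤
        ((6 * w a * om a ^ 3 : ℚ) : ℝ)) ∧
      (if σ a then (1 : ℝ) else -1) *
        (w a * ∫ z in ucube (Fin N), |(MvPolynomial.aeval z (P a) : ℝ)| ^ 3) =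
        r' - ∫ θ in ucube (Fin (N + 1 + 1)), |(MvPolynomial.aeval θ R : ℝ)| := by
    intro a
    by_cases hσ : σ a = true
    · simp only [hσ, if_true]
      exact pos39 (hpos a).1 (hpos a).2 (P a) (hP a)
    · simp only [hσ]
      exact neg39 (hpos a).1 (hpos a).2 (P a) (hP a)
  choose r' R hR1 hR2 using hterm
  set K : ℕ := Fintype.card α with hK
  obtain ⟨s, hs0, hs1⟩ := exists_rat_btwn (show (0 : ℝ) < ε / (2 * (K + 1)) by positivity)
  have hs0' : (0 : ℚ) < s := by exact_mod_cast hs0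
  set S : α → ℚ := fun a => 6 * w a * om a ^ 3 with hS
  have hSp : ∀ a, 0 < S a := fun a => by
    have h1 := (hpos a).1
    have h2 := (hpos a).2
    simp only [hS]
    positivity
  set n : α → ℕ := fun a => ⌈S a / s⌉₊ with hn
  have hn1 : ∀ a, S a / s ≤ n a := fun a => Nat.le_ceil _
  have hn2 : ∀ a, (n a : ℚ) < S a / s + 1 := fun a =>
    Nat.ceil_lt_add_one (div_nonneg (hSp a).le hs0'.le)
  have hn0 : ∀ a, (0 : ℚ) < n a := fun a => lt_of_lt_of_le (div_pos (hSp a) hs0') (hn1 a)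
  set T : Option (Σ a : α, Fin (n a)) → MvPolynomial (Fin (N + 1 + 1)) ℚ := fun b =>
    match b with
    | none => 0
    | some p => MvPolynomial.C (1 / (n p.1 : ℚ)) * R p.1 with hT
  set e := Fintype.equivFin (Option (Σ a : α, Fin (n a))) with he
  refine ⟨N + 1 + 1, Fintype.card (Option (Σ a : α, Fin (n a))), r + ∑ a, r' a, s,
    fun i => T (e.symm i), Fintype.card_pos, hs0', ?_, ?_, ?_⟩
  · intro i θ hθ
    show |(MvPolynomial.aeval θ (T (e.symm i)) : ℝ)| ≤ s
    rcases e.symm i with _ | ⟨a, j⟩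
    · simp only [hT, map_zero, abs_zero]
      exact hs0.le
    · simp only [hT]
      rw [map_mul, MvPolynomial.aeval_C, abs_mul, eq_ratCast]
      have hn0' : (0 : ℝ) < n a := by exact_mod_cast hn0 a
      have h1 : |((1 / (n a : ℚ) : ℚ) : ℝ)| = 1 / n a := by
        push_cast
        exact abs_of_pos (by positivity)
      rw [h1]
      have h2 := hR1 a θ hθ
      have h3 : (S a : ℝ) ≤ n a * s := by
        have h4 := hn1 a
        rw [div_le_iff₀ hs0'] at h4
        exact_mod_cast h4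
      have h5 : |(MvPolynomial.aeval θ (R a) : ℝ)| ≤ n a * s := le_trans h2 h3
      rw [one_div, inv_mul_le_iff₀ hn0']
      exact h5
  · have hcard : (Fintype.card (Option (Σ a : α, Fin (n a))) : ℚ) = ∑ a, (n a : ℚ) + 1 := by
      rw [Fintype.card_option, Fintype.card_sigma]
      simp
    have h1 : (Fintype.card (Option (Σ a : α, Fin (n a))) : ℚ) * s ≤
        6 * (∑ a, w a * om a ^ 3) + (K + 1) * s := by
      rw [hcard, add_mul, Finset.sum_mul, Finset.mul_sum]
      have h2 : ∀ a ∈ (Finset.univ : Finset α), (n a : ℚ) * s ≤ 6 * (w a * om a ^ 3) + s := by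
        intro a _
        have h3 := mul_le_mul_of_nonneg_right (hn2 a).le hs0'.le
        rw [add_mul, div_mul_cancel₀ _ hs0'.ne'] at h3
        simp only [hS] at h3
        linarith
      have h4 := Finset.sum_le_sum h2
      rw [Finset.sum_add_distrib, Finset.sum_const, Finset.card_univ, nsmul_eq_mul] at h4
      rw [hK]
      linarith
    have h2 : ((Fintype.card (Option (Σ a : α, Fin (n a))) : ℕ) : ℝ) * s ≤
        6 * ((∑ a, w a * om a ^ 3 : ℚ) : ℝ) + (K + 1) * s := by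
      exact_mod_cast h1
    have h3 : ((K : ℝ) + 1) * s ≤ ε / 2 := by
      have h4 : (0 : ℝ) < (K : ℝ) + 1 := by positivity
      rw [lt_div_iff₀ (by positivity)] at hs1
      nlinarith
    linarith
  · rw [hx]
    have h1 : ∑ i, ∫ θ in ucube (Fin (N + 1 + 1)), |(MvPolynomial.aeval θ (T (e.symm i)) : ℝ)| =
        ∑ a, ∫ θ in ucube (Fin (N + 1 + 1)), |(MvPolynomial.aeval θ (R a) : ℝ)| := by
      rw [Equiv.sum_comp e.symm
        (fun b => ∫ θ in ucube (Fin (N + 1 + 1)), |(MvPolynomial.aeval θ (T b) : ℝ)|)]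
      rw [Fintype.sum_option, Fintype.sum_sigma]
      simp only [hT, map_zero, abs_zero, integral_zero, zero_add]
      refine Finset.sum_congr rfl fun a _ => ?_
      have hn0' : (0 : ℝ) < n a := by exact_mod_cast hn0 a
      have h2 : ∀ θ : Fin (N + 1 + 1) → ℝ,
          |(MvPolynomial.aeval θ (MvPolynomial.C (1 / (n a : ℚ)) * R a) : ℝ)| =
          1 / n a * |(MvPolynomial.aeval θ (R a) : ℝ)| := by
        intro θ
        rw [map_mul, MvPolynomial.aeval_C, abs_mul, eq_ratCast]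
        congr 1
        push_cast
        exact abs_of_pos (by positivity)
      simp only [h2]
      rw [integral_const_mul, Finset.sum_const, Finset.card_univ, Fintype.card_fin, nsmul_eq_mul]
      field_simp
    rw [h1, Finset.sum_congr rfl fun a _ => hR2 a, Finset.sum_sub_distrib]
    push_cast
    ring

theorem avm_of {x : ℝ} (h : AV3 x) : AVm x := avm_sm39 h.small

end Pool.Agent.E1
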