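import Pool.Agent.W_2cf66e_E1.DefsE

/-!
# MP_2cf66e_nt, theorem E1, leaf B5: hills and valleys, positivity and variation (helper65)
-/

set_option autoImplicit false

noncomputable section

open MeasureTheory Set Filter Topology

namespace Pool.Agent.E1

/-! ### one segment -/

theorem sgn65 {a b : ℝ} (hab : a < b) {P : ℝ → ℝ} (hP : Continuous P)
    (hP0 : ∀ X ∈ Ioo a b, P X ≠ 0) :
    ∃ σ : ℝ, |σ| = 1 ∧ ∀ X ∈ Ioo a b, σ * P X = |P X| := by
  have hc : (a + b) / 2 ∈ Ioo a b := ⟨by linarith, by linarith⟩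
  have key : ∀ X ∈ Ioo a b, ¬ (0 : ℝ) ∈ uIcc (P ((a + b) / 2)) (P X) := by
    intro X hX h0
    obtain ⟨y, hy, hy0⟩ := intermediate_value_uIcc (a := (a + b) / 2) (b := X)
      (f := P) hP.continuousOn h0
    refine hP0 y ?_ hy0
    exact (ordConnected_Ioo.uIcc_subset hc hX) hy
  rcases lt_or_gt_of_ne (hP0 _ hc) with h | h
  · refine ⟨-1, by simp, fun X hX => ?_⟩
    have h1 : P X < 0 := by
      by_contra h2
      push Not at h2
      exact key X hX (by rw [uIcc_of_le (h.le.trans h2)]; exact ⟨h.le, h2⟩)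
    rw [abs_of_neg h1]; ring
  · refine ⟨1, by simp, fun X hX => ?_⟩
    have h1 : 0 < P X := by
      by_contra h2
      push Not at h2
      exact key X hX (by rw [uIcc_of_ge (h2.trans h.le)]; exact ⟨h2, h.le⟩)
    rw [abs_of_pos h1]; ring

theorem seg65 {a b : ℝ} (hab : a < b) {F P G : ℝ → ℝ} (hP : Continuous P)
    (hF : ∀ X, HasDerivAt F (P X * G X) X)
    (hP0 : ∀ X ∈ Ioo a b, P X ≠ 0) (hG : ∀ X ∈ Icc a b, 0 < G X) (ha : 0 ≤ F a) (hb : 0 ≤ F b) :
    (∀ X ∈ Ioo a b, 0 < F X) ∧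
    IntervalIntegrable (fun X => |P X| * G X / (2 * Real.sqrt (F X))) volume a b ∧
    ∫ X in a..b, |P X| * G X / (2 * Real.sqrt (F X)) =
      |Real.sqrt (F b) - Real.sqrt (F a)| := by
  obtain ⟨σ, hσ, hσP⟩ := sgn65 hab hP hP0
  have hFc : Continuous F := continuous_iff_continuousAt.2 fun X => (hF X).continuousAt
  have hσ0 : σ = 1 ∨ σ = -1 := by
    rcases abs_eq (by norm_num : (0 : ℝ) ≤ 1) |>.1 hσ with h | h
    · exact Or.inl h
    · exact Or.inr h
  have hpos : ∀ X ∈ Ioo a b, 0 < F X := by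
    intro X hX
    rcases hσ0 with h | h
    · have hm : StrictMonoOn F (Icc a b) := by
        refine strictMonoOn_of_deriv_pos (convex_Icc a b) hFc.continuousOn fun Y hY => ?_
        rw [interior_Icc] at hY
        rw [(hF Y).deriv]
        have h1 := hσP Y hY
        rw [h, one_mul] at h1
        have h2 : 0 < P Y := by
          rw [h1]; exact abs_pos.2 (hP0 Y hY)
        exact mul_pos h2 (hG Y (Ioo_subset_Icc_self hY))
      exact ha.trans_lt (hm (left_mem_Icc.2 hab.le) (Ioo_subset_Icc_self hX) hX.1)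
    · have hm : StrictAntiOn F (Icc a b) := by
        refine strictAntiOn_of_deriv_neg (convex_Icc a b) hFc.continuousOn fun Y hY => ?_
        rw [interior_Icc] at hY
        rw [(hF Y).deriv]
        have h1 := hσP Y hY
        rw [h] at h1
        have h2 : P Y < 0 := by
          have := abs_pos.2 (hP0 Y hY)
          linarith
        exact mul_neg_of_neg_of_pos h2 (hG Y (Ioo_subset_Icc_self hY))
      exact hb.trans_lt (hm (Ioo_subset_Icc_self hX) (right_mem_Icc.2 hab.le) hX.2)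
  have hder : ∀ X ∈ Ioo a b, HasDerivAt (fun X => σ * Real.sqrt (F X))
      (|P X| * G X / (2 * Real.sqrt (F X))) X := by
    intro X hX
    have h1 := ((hF X).sqrt (hpos X hX).ne').const_mul σ
    refine h1.congr_deriv ?_
    rw [← hσP X hX]
    ring
  have hcont : ContinuousOn (fun X => σ * Real.sqrt (F X)) (Icc a b) :=
    (continuous_const.mul (Real.continuous_sqrt.comp hFc)).continuousOn
  have hnn : ∀ X ∈ Ioo a b, 0 ≤ |P X| * G X / (2 * Real.sqrt (F X)) := fun X hX =>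
    div_nonneg (mul_nonneg (abs_nonneg _) (hG X (Ioo_subset_Icc_self hX)).le)
      (mul_nonneg (by norm_num) (Real.sqrt_nonneg _))
  have hint : IntervalIntegrable (fun X => |P X| * G X / (2 * Real.sqrt (F X))) volume a b := by
    rw [intervalIntegrable_iff_integrableOn_Ioc_of_le hab.le]
    exact intervalIntegral.integrableOn_deriv_of_nonneg hcont hder hnn
  refine ⟨hpos, hint, ?_⟩
  have hval := intervalIntegral.integral_eq_sub_of_hasDerivAt_of_le hab.le hcont hder hint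
  have h0 : 0 ≤ ∫ X in a..b, |P X| * G X / (2 * Real.sqrt (F X)) :=
    intervalIntegral.integral_nonneg hab.le fun X hX =>
      div_nonneg (mul_nonneg (abs_nonneg _) (hG X hX).le)
        (mul_nonneg (by norm_num) (Real.sqrt_nonneg _))
  rw [← abs_of_nonneg h0, hval, ← mul_sub, abs_mul, hσ, one_mul]

/-! ### the nodes -/

theorem aev65 (p : Polynomial ℚ) (q : ℚ) :
    (Polynomial.aeval (q : ℝ) p : ℝ) = ((p.eval q : ℚ) : ℝ) := by
  have h := Polynomial.aeval_algebraMap_apply (A := ℚ) ℝ q p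
  rw [Polynomial.coe_aeval_eq_eval] at h
  simpa using h

theorem pip65 (m : ℕ) (X : ℝ) : (Polynomial.aeval X (PiP m) : ℝ) =
    ∏ j ∈ Finset.Ico 1 (2 * m), (X - (nd m j : ℝ)) := by
  unfold PiP
  rw [map_prod]
  refine Finset.prod_congr rfl fun j _ => ?_
  rw [map_sub, Polynomial.aeval_X, Polynomial.aeval_C]
  simp

theorem ndr65 (m j : ℕ) : ((nd m j : ℚ) : ℝ) = (j : ℝ) / (2 * m) := by
  unfold nd
  push_cast
  rfl

theorem nd_lt65 {m : ℕ} (hm : 0 < m) {i j : ℕ} (h : i < j) : ((nd m i : ℚ) : ℝ) < nd m j := by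
  rw [ndr65, ndr65]
  have h1 : (0 : ℝ) < 2 * m := by positivity
  have h2 : (i : ℝ) < j := by exact_mod_cast h
  gcongr

theorem nd_le65 {m : ℕ} (hm : 0 < m) {i j : ℕ} (h : i ≤ j) : ((nd m i : ℚ) : ℝ) ≤ nd m j := by
  rcases h.lt_or_eq with h1 | h1
  · exact (nd_lt65 hm h1).le
  · rw [h1]

/-- off the nodes the node polynomial does not vanish -/
theorem pip_ne65 {m : ℕ} (hm : 0 < m) {j : ℕ} {X : ℝ}
    (h1 : ((nd m j : ℚ) : ℝ) < X) (h2 : X < ((nd m (j + 1) : ℚ) : ℝ)) :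
    (Polynomial.aeval X (PiP m) : ℝ) ≠ 0 := by
  rw [pip65, Finset.prod_ne_zero_iff]
  intro i _ h3
  rcases Nat.lt_or_ge j i with h4 | h4
  · have := nd_le65 hm (i := j + 1) (j := i) h4
    linarith
  · have := nd_le65 hm h4
    linarith

variable {m : ℕ} {h0 r0 : Polynomial ℚ} {h r : Fin m → Polynomial ℚ}

theorem hv_der65 (H : Hills m h0 r0 h r) (s0 : ℝ) (p : Fin m → ℝ) (X : ℝ) :
    HasDerivAt (fun X => HV h0 h s0 p X)
      ((Polynomial.aeval X (PiP m) : ℝ) * HV r0 r s0 p X) X := by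
  unfold HV
  have e1 : ∀ a : Fin m, HasDerivAt (fun X : ℝ => p a ^ 2 * (Polynomial.aeval X (h a) : ℝ))
      (p a ^ 2 * ((Polynomial.aeval X (PiP m) : ℝ) * Polynomial.aeval X (r a))) X := by
    intro a
    have h1 := (Polynomial.hasDerivAt_aeval (h a) X).const_mul (p a ^ 2)
    rwa [H.d1 a, map_mul] at h1
  have e0 : HasDerivAt (fun X : ℝ => s0 ^ 2 * (Polynomial.aeval X h0 : ℝ))
      (s0 ^ 2 * ((Polynomial.aeval X (PiP m) : ℝ) * Polynomial.aeval X r0)) X := by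
    have h1 := (Polynomial.hasDerivAt_aeval h0 X).const_mul (s0 ^ 2)
    rwa [H.d0, map_mul] at h1
  have e2 := HasDerivAt.fun_sum (u := Finset.univ) fun a (_ : a ∈ Finset.univ) => e1 a
  refine (e0.add e2).congr_deriv ?_
  rw [mul_add, Finset.mul_sum]
  congr 1
  · ring
  · exact Finset.sum_congr rfl fun a _ => by ring

theorem hv_g65 (H : Hills m h0 r0 h r) (s0 : ℝ) (hs : 0 < s0) (p : Fin m → ℝ)
    (hp : ∀ a, |p a| ≤ s0) (X : ℝ) (h1 : 0 ≤ X) (h2 : X ≤ 1) : 0 < HV r0 r s0 p X := by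
  have h3 := H.pos X (fun a => (p a / s0) ^ 2) h1 h2 fun a => by
    refine ⟨sq_nonneg _, ?_⟩
    rw [sq_le_one_iff_abs_le_one, abs_div, abs_of_pos hs, div_le_one hs]
    exact hp a
  have h4 : HV r0 r s0 p X = s0 ^ 2 * (Polynomial.aeval X r0 +
      ∑ a, (p a / s0) ^ 2 * Polynomial.aeval X (r a)) := by
    unfold HV
    rw [mul_add, Finset.mul_sum]
    congr 1
    refine Finset.sum_congr rfl fun a _ => ?_
    field_simp
  rw [h4]
  positivity

/-- the square root at the nodes -/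
def wv65 (m : ℕ) (s0 : ℝ) (j : ℕ) : ℝ := if j = 0 ∨ j = m then s0 / 2 else s0

theorem hv_even65 (hm : 0 < m) (H : Hills m h0 r0 h r) (s0 : ℝ) (hs : 0 < s0) (p : Fin m → ℝ)
    (b : ℕ) (hb : b ≤ m) :
    HV h0 h s0 p ((nd m (2 * b) : ℚ) : ℝ) = wv65 m s0 b ^ 2 := by
  unfold HV wv65
  simp only [aev65]
  rcases Nat.eq_zero_or_pos b with h1 | h1
  · subst h1
    have e : nd m (2 * 0) = 0 := by simp [nd]
    rw [e, H.e0.1]
    simp only [(H.e1 _).1]
    simp
    ring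
  rcases hb.lt_or_eq with h2 | h2
  · rw [H.t0 b h1 h2]
    simp only [H.t1 _ b h1 h2]
    rw [if_neg (by omega)]
    simp
  · subst h2
    have e : nd b (2 * b) = 1 := by
      unfold nd
      push_cast
      exact div_self (by positivity)
    rw [e, H.e0.2]
    simp only [(H.e1 _).2]
    simp
    ring

theorem hv_odd65 (H : Hills m h0 r0 h r) (s0 : ℝ) (p : Fin m → ℝ) (b : Fin m) :
    HV h0 h s0 p ((nd m (2 * (b : ℕ) + 1) : ℚ) : ℝ) = (|p b| / 4) ^ 2 := by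
  unfold HV
  simp only [aev65]
  rw [H.v0 b]
  simp only [H.v1 _ b]
  rw [Finset.sum_eq_single b]
  · rw [if_pos rfl, div_pow, sq_abs]
    push_cast
    ring
  · intro a _ hab
    simp [hab]
  · intro hb
    exact absurd (Finset.mem_univ b) hb

theorem wv_nn65 (s0 : ℝ) (hs : 0 < s0) (b : ℕ) : s0 / 2 ≤ wv65 m s0 b := by
  unfold wv65
  split_ifs <;> linarith

theorem hv_node65 (hm : 0 < m) (H : Hills m h0 r0 h r) (s0 : ℝ) (hs : 0 < s0) (p : Fin m → ℝ)
    (j : ℕ) (hj : j ≤ 2 * m) : 0 ≤ HV h0 h s0 p ((nd m j : ℚ) : ℝ) := by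
  rcases Nat.even_or_odd' j with ⟨b, hb | hb⟩
  · rw [hb, hv_even65 hm H s0 hs p b (by omega)]
    positivity
  · rw [hb, hv_odd65 H s0 p ⟨b, by omega⟩]
    positivity

theorem segs65 (hm : 0 < m) (H : Hills m h0 r0 h r) (s0 : ℝ) (hs : 0 < s0) (p : Fin m → ℝ)
    (hp : ∀ a, |p a| ≤ s0) (j : ℕ) (hj : j < 2 * m) :
    (∀ X ∈ Ioo ((nd m j : ℚ) : ℝ) ((nd m (j + 1) : ℚ) : ℝ), 0 < HV h0 h s0 p X) ∧
    IntervalIntegrable (fun X => |Polynomial.aeval X (PiP m)| * HV r0 r s0 p X /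
      (2 * Real.sqrt (HV h0 h s0 p X))) volume ((nd m j : ℚ) : ℝ) ((nd m (j + 1) : ℚ) : ℝ) ∧
    ∫ X in ((nd m j : ℚ) : ℝ)..((nd m (j + 1) : ℚ) : ℝ), |Polynomial.aeval X (PiP m)| *
      HV r0 r s0 p X / (2 * Real.sqrt (HV h0 h s0 p X)) =
      |Real.sqrt (HV h0 h s0 p ((nd m (j + 1) : ℚ) : ℝ)) -
        Real.sqrt (HV h0 h s0 p ((nd m j : ℚ) : ℝ))| := by
  have e0 : ((nd m 0 : ℚ) : ℝ) = 0 := by simp [nd]
  have e1 : ((nd m (2 * m) : ℚ) : ℝ) = 1 := by
    rw [ndr65]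
    push_cast
    exact div_self (by positivity)
  refine seg65 (nd_lt65 hm j.lt_succ_self) (F := fun X => HV h0 h s0 p X)
    (P := fun X => Polynomial.aeval X (PiP m)) (G := fun X => HV r0 r s0 p X)
    (Polynomial.continuous_aeval _) (hv_der65 H s0 p) ?_ ?_ (hv_node65 hm H s0 hs p j hj.le)
    (hv_node65 hm H s0 hs p (j + 1) hj)
  · intro X hX
    exact pip_ne65 hm hX.1 hX.2
  · intro X hX
    refine hv_g65 H s0 hs p hp X ?_ ?_
    · have := nd_le65 hm (Nat.zero_le j)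
      rw [e0] at this
      exact this.trans hX.1
    · have := nd_le65 hm (i := j + 1) (j := 2 * m) hj
      rw [e1] at this
      exact hX.2.trans this

theorem hv_pos {m : ℕ} (hm : 0 < m) {h0 r0 : Polynomial ℚ} {h r : Fin m → Polynomial ℚ}
    (H : Hills m h0 r0 h r) (s0 : ℝ) (hs : 0 < s0) (p : Fin m → ℝ) (hp : ∀ a, |p a| ≤ s0) :
    ∀ X : ℝ, 0 ≤ X → X ≤ 1 → 0 ≤ HV h0 h s0 p X ∧
      (Polynomial.aeval X (PiP m) ≠ 0 → 0 < HV h0 h s0 p X) := by
  intro X h1 h2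
  have hm' : (0 : ℝ) < 2 * m := by positivity
  rcases h2.lt_or_eq with h3 | h3
  swap
  · have e1 : X = ((nd m (2 * m) : ℚ) : ℝ) := by
      rw [ndr65, h3]
      push_cast
      exact (div_self (by positivity)).symm
    have h4 : 0 < HV h0 h s0 p X := by
      rw [e1, hv_even65 hm H s0 hs p m le_rfl]
      have := wv_nn65 (m := m) s0 hs m
      have : 0 < wv65 m s0 m := by linarith
      positivity
    exact ⟨h4.le, fun _ => h4⟩
  obtain ⟨j, hj⟩ : ∃ j : ℕ, j = ⌊X * (2 * m)⌋₊ := ⟨_, rfl⟩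
  have hj1 : (j : ℝ) ≤ X * (2 * m) := by
    rw [hj]; exact Nat.floor_le (by positivity)
  have hj2 : X * (2 * m) < j + 1 := by
    rw [hj]; exact Nat.lt_floor_add_one _
  have hj3 : j < 2 * m := by
    have : (j : ℝ) < (2 * m : ℕ) := by
      push_cast
      nlinarith
    exact_mod_cast this
  have h5 : ((nd m j : ℚ) : ℝ) ≤ X := by
    rw [ndr65, div_le_iff₀ hm']; exact hj1
  have h6 : X < ((nd m (j + 1) : ℚ) : ℝ) := by
    rw [ndr65, lt_div_iff₀ hm']; push_cast; exact hj2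
  rcases h5.lt_or_eq with h7 | h7
  · have h8 := (segs65 hm H s0 hs p hp j hj3).1 X ⟨h7, h6⟩
    exact ⟨h8.le, fun _ => h8⟩
  · refine ⟨h7 ▸ hv_node65 hm H s0 hs p j hj3.le, fun h8 => ?_⟩
    rcases Nat.eq_zero_or_pos j with h9 | h9
    · rw [← h7, h9, show (0 : ℕ) = 2 * 0 from rfl, hv_even65 hm H s0 hs p 0 (Nat.zero_le _)]
      have := wv_nn65 (m := m) s0 hs 0
      have : 0 < wv65 m s0 0 := by linarith
      positivity
    · exfalso
      apply h8
      rw [pip65]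
      exact Finset.prod_eq_zero (Finset.mem_Ico.2 ⟨h9, hj3⟩) (by rw [h7, sub_self])

theorem sum_pairs65 (f : ℕ → ℝ) (m : ℕ) :
    ∑ k ∈ Finset.range (2 * m), f k = ∑ b ∈ Finset.range m, (f (2 * b) + f (2 * b + 1)) := by
  induction m with
  | zero => simp
  | succ m ih =>
    rw [show 2 * (m + 1) = 2 * m + 1 + 1 by ring, Finset.sum_range_succ, Finset.sum_range_succ,
      Finset.sum_range_succ, ih]
    ring

theorem wv_sum65 (hm : 0 < m) (s0 : ℝ) :
    ∑ b ∈ Finset.range m, (wv65 m s0 b + wv65 m s0 (b + 1)) = (2 * m - 1) * s0 := by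
  obtain ⟨k, rfl⟩ : ∃ k, m = k + 1 := ⟨m - 1, by omega⟩
  rw [Finset.sum_add_distrib, Finset.sum_range_succ', Finset.sum_range_succ
    (fun b => wv65 (k + 1) s0 (b + 1))]
  have h1 : ∀ b ∈ Finset.range k, wv65 (k + 1) s0 (b + 1) = s0 := by
    intro b hb
    have := Finset.mem_range.1 hb
    unfold wv65
    rw [if_neg (by omega)]
  rw [Finset.sum_congr rfl h1]
  have h2 : wv65 (k + 1) s0 0 = s0 / 2 := by simp [wv65]
  have h3 : wv65 (k + 1) s0 (k + 1) = s0 / 2 := by simp [wv65]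
  rw [h2, h3]
  simp
  ring

theorem hv_var {m : ℕ} (hm : 0 < m) {h0 r0 : Polynomial ℚ} {h r : Fin m → Polynomial ℚ}
    (H : Hills m h0 r0 h r) (s0 : ℝ) (hs : 0 < s0) (p : Fin m → ℝ) (hp : ∀ a, |p a| ≤ s0) :
    IntegrableOn (fun X : ℝ => |Polynomial.aeval X (PiP m)| * HV r0 r s0 p X /
      (2 * Real.sqrt (HV h0 h s0 p X))) (Set.Icc 0 1) ∧
    ∫ X in Set.Icc (0 : ℝ) 1, |Polynomial.aeval X (PiP m)| * HV r0 r s0 p X /
      (2 * Real.sqrt (HV h0 h s0 p X)) = (2 * m - 1) * s0 - 1 / 2 * ∑ a, |p a| := by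
  have e0 : ((nd m 0 : ℚ) : ℝ) = 0 := by simp [nd]
  have e1 : ((nd m (2 * m) : ℚ) : ℝ) = 1 := by
    rw [ndr65]
    push_cast
    exact div_self (by positivity)
  have hii : ∀ k < 2 * m, IntervalIntegrable (fun X => |Polynomial.aeval X (PiP m)| *
      HV r0 r s0 p X / (2 * Real.sqrt (HV h0 h s0 p X))) volume ((nd m k : ℚ) : ℝ)
      ((nd m (k + 1) : ℚ) : ℝ) := fun k hk => (segs65 hm H s0 hs p hp k hk).2.1
  have hI := IntervalIntegrable.trans_iterate (a := fun k => ((nd m k : ℚ) : ℝ)) hii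
  have hS := intervalIntegral.sum_integral_adjacent_intervals
    (a := fun k => ((nd m k : ℚ) : ℝ)) hii
  rw [e0, e1] at hI hS
  refine ⟨?_, ?_⟩
  · rw [integrableOn_Icc_iff_integrableOn_Ioc]
    rwa [intervalIntegrable_iff_integrableOn_Ioc_of_le zero_le_one] at hI
  rw [integral_Icc_eq_integral_Ioc, ← intervalIntegral.integral_of_le zero_le_one, ← hS]
  rw [Finset.sum_congr rfl fun k hk =>
    (segs65 hm H s0 hs p hp k (Finset.mem_range.1 hk)).2.2, sum_pairs65, Finset.sum_range]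
  have hw : ∀ b : ℕ, b ≤ m → Real.sqrt (HV h0 h s0 p ((nd m (2 * b) : ℚ) : ℝ)) =
      wv65 m s0 b := by
    intro b hb
    rw [hv_even65 hm H s0 hs p b hb]
    refine Real.sqrt_sq ?_
    have := wv_nn65 (m := m) s0 hs b
    linarith
  have ho : ∀ b : Fin m, Real.sqrt (HV h0 h s0 p ((nd m (2 * (b : ℕ) + 1) : ℚ) : ℝ)) =
      |p b| / 4 := by
    intro b
    rw [hv_odd65 H s0 p b]
    exact Real.sqrt_sq (by positivity)
  have hterm : ∀ b : Fin m,
      |Real.sqrt (HV h0 h s0 p ((nd m (2 * (b : ℕ) + 1) : ℚ) : ℝ)) -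
        Real.sqrt (HV h0 h s0 p ((nd m (2 * (b : ℕ)) : ℚ) : ℝ))| +
      |Real.sqrt (HV h0 h s0 p ((nd m (2 * (b : ℕ) + 1 + 1) : ℚ) : ℝ)) -
        Real.sqrt (HV h0 h s0 p ((nd m (2 * (b : ℕ) + 1) : ℚ) : ℝ))| =
      (wv65 m s0 b + wv65 m s0 (b + 1)) - 1 / 2 * |p b| := by
    intro b
    rw [ho b, hw b b.2.le, show 2 * (b : ℕ) + 1 + 1 = 2 * ((b : ℕ) + 1) by ring, hw (b + 1) b.2]
    have h1 := wv_nn65 (m := m) s0 hs b
    have h2 := wv_nn65 (m := m) s0 hs ((b : ℕ) + 1)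
    have h3 := hp b
    obtain ⟨q, hq⟩ : ∃ q : ℝ, q = |p b| := ⟨_, rfl⟩
    rw [← hq] at h3 ⊢
    rw [abs_of_nonpos (by linarith), abs_of_nonneg (by linarith)]
    ring
  rw [Finset.sum_congr rfl fun b _ => hterm b, Finset.sum_sub_distrib, ← Finset.mul_sum,
    ← wv_sum65 hm s0, Finset.sum_range]

end Pool.Agent.E1
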