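import Pool.Agent.W_2cf66e_E1.LeC1

/-!
# MP_2cf66e_nt, theorem E1: leaf C2 (pairs, all coordinates), helper68
-/

set_option autoImplicit false

noncomputable section

open MeasureTheory Set Filter Topology

namespace Pool.Agent.E1

open Pool.Agent.CVol
open scoped ENNReal

theorem ucube_succ_integral68 (N : ℕ) (f : (Fin (N + 1) → ℝ) → ℝ≥0∞) (hf : Measurable f) :
    ∫⁻ s in ucube (Fin (N + 1)), f s =
      ∫⁻ t in Icc (0 : ℝ) 1, ∫⁻ s in ucube (Fin N), f (Fin.cons t s) := by
  have e := (volume_preserving_piFinSuccAbove (fun _ : Fin (N + 1) => ℝ) 0).symm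
  have hm : MeasurableSet (ucube (Fin (N + 1))) := measurableSet_Icc
  have hpre : (MeasurableEquiv.piFinSuccAbove (fun _ : Fin (N + 1) => ℝ) 0).symm ⁻¹'
      (ucube (Fin (N + 1))) = Icc (0 : ℝ) 1 ×ˢ ucube (Fin N) := by
    ext ⟨t, s⟩
    simp only [Set.mem_preimage, ucube, Set.mem_Icc, Set.mem_prod, Pi.le_def,
      MeasurableEquiv.piFinSuccAbove_symm_apply, Fin.forall_fin_succ]
    constructor
    · rintro ⟨⟨h1, h2⟩, h3, h4⟩
      refine ⟨⟨by simpa using h1, by simpa using h3⟩, fun i => by simpa using h2 i,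
        fun i => by simpa using h4 i⟩
    · rintro ⟨⟨h1, h2⟩, h3, h4⟩
      refine ⟨⟨by simpa using h1, fun i => by simpa using h3 i⟩, by simpa using h2,
        fun i => by simpa using h4 i⟩
  rw [← e.setLIntegral_comp_preimage_emb (MeasurableEquiv.measurableEmbedding _), hpre,
    Measure.volume_eq_prod, ← Measure.prod_restrict, lintegral_prod]
  · refine lintegral_congr fun t => lintegral_congr fun s => ?_
    congr 1
    simp [MeasurableEquiv.piFinSuccAbove_symm_apply]
    rfl
  · exact (hf.comp (MeasurableEquiv.measurable _)).aemeasurable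

theorem pi_push68 {X : Type} [MeasureSpace X] [SigmaFinite (volume : Measure X)] (g : X → ℝ≥0∞)
    (hg : Measurable g) (φ : X → ℝ) (hφ : Measurable φ) (c : ℝ≥0∞)
    (h : ∀ f : ℝ → ℝ≥0∞, Measurable f →
      ∫⁻ x, g x * f (φ x) = c * ∫⁻ s in Icc (0 : ℝ) 1, f s) :
    ∀ (N : ℕ) (f : (Fin N → ℝ) → ℝ≥0∞), Measurable f →
      ∫⁻ q : Fin N → X, (∏ i, g (q i)) * f (fun i => φ (q i)) =
        c ^ N * ∫⁻ s in ucube (Fin N), f s := by
  intro N
  induction N with
  | zero =>
    intro f hf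
    have hu : ucube (Fin 0) = Set.univ := by
      ext s
      simp [ucube]
    rw [hu, Measure.restrict_univ, Measure.volume_pi_eq_dirac, Measure.volume_pi_eq_dirac,
      lintegral_dirac' _ hf, lintegral_dirac']
    · simp only [Finset.univ_eq_empty, Finset.prod_empty, one_mul, pow_zero]
      congr 1
      exact Subsingleton.elim _ _
    · exact (Finset.measurable_prod _ fun i _ => hg.comp (measurable_pi_apply i)).mul
        (hf.comp (measurable_pi_lambda _ fun i => hφ.comp (measurable_pi_apply i)))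
  | succ N ih =>
    intro f hf
    have e := (volume_preserving_piFinSuccAbove (fun _ : Fin (N + 1) => X) 0).symm
    have hF : Measurable fun q : Fin (N + 1) → X => (∏ i, g (q i)) * f (fun i => φ (q i)) :=
      (Finset.measurable_prod _ fun i _ => hg.comp (measurable_pi_apply i)).mul
        (hf.comp (measurable_pi_lambda _ fun i => hφ.comp (measurable_pi_apply i)))
    have hc : Measurable fun p : ℝ × (Fin N → ℝ) => f (Fin.cons p.1 p.2) := by
      refine hf.comp (measurable_pi_lambda _ fun i => ?_)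
      refine Fin.cases ?_ (fun j => ?_) i
      · simpa using measurable_fst
      · have h3 : Measurable fun c : ℝ × (Fin N → ℝ) => c.2 j :=
          (measurable_pi_apply j).comp measurable_snd
        simpa using h3
    have hF' : Measurable fun p : X × (Fin N → X) =>
        (∏ i, g ((MeasurableEquiv.piFinSuccAbove (fun _ : Fin (N + 1) => X) 0).symm p i)) *
          f (fun i => φ ((MeasurableEquiv.piFinSuccAbove (fun _ : Fin (N + 1) => X) 0).symm p i)) :=
      hF.comp (MeasurableEquiv.measurable _)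
    rw [← e.lintegral_comp_emb (MeasurableEquiv.measurableEmbedding _), Measure.volume_eq_prod,
      lintegral_prod _ hF'.aemeasurable]
    have h1 : ∀ x : X, ∫⁻ q : Fin N → X,
        (∏ i, g ((MeasurableEquiv.piFinSuccAbove (fun _ : Fin (N + 1) => X) 0).symm (x, q) i)) *
          f (fun i => φ ((MeasurableEquiv.piFinSuccAbove (fun _ : Fin (N + 1) => X) 0).symm
            (x, q) i)) =
        g x * (c ^ N * ∫⁻ s in ucube (Fin N), f (Fin.cons (φ x) s)) := by
      intro x
      have hm : Measurable fun s : Fin N → ℝ => f (Fin.cons (φ x) s) :=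
        hc.comp (measurable_const.prodMk measurable_id)
      rw [← ih (fun s => f (Fin.cons (φ x) s)) hm, ← lintegral_const_mul]
      · refine lintegral_congr fun q => ?_
        rw [← mul_assoc, Fin.prod_univ_succ]
        congr 2
        funext i
        refine Fin.cases ?_ (fun j => ?_) i
        · simp [MeasurableEquiv.piFinSuccAbove_symm_apply]
        · simp [MeasurableEquiv.piFinSuccAbove_symm_apply]
      · exact (Finset.measurable_prod _ fun i _ => hg.comp (measurable_pi_apply i)).mul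
          (hm.comp (measurable_pi_lambda _ fun i => hφ.comp (measurable_pi_apply i)))
    rw [lintegral_congr h1]
    have hG : Measurable fun t : ℝ => ∫⁻ s in ucube (Fin N), f (Fin.cons t s) :=
      Measurable.lintegral_prod_right' hc
    have h2 := h (fun t => c ^ N * ∫⁻ s in ucube (Fin N), f (Fin.cons t s)) (hG.const_mul _)
    rw [h2, lintegral_const_mul _ hG, ucube_succ_integral68 N f hf, pow_succ]
    ring

/-- Leaf C2 over the statement of leaf C1. -/
theorem pair_all_of (N b k : ℕ) (h1 : ∃ C : ℚ, 0 < C ∧ ∀ f : ℝ → ℝ≥0∞, Measurable f →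
    ∫⁻ q : ℝ × ℝ, ENNReal.ofReal (|q.1 * q.2| * (q.1 ^ 2 + q.2 ^ 2) ^ b /
      (1 + (q.1 ^ 2 + q.2 ^ 2)) ^ k) * f (q.1 ^ 2 / (q.1 ^ 2 + q.2 ^ 2)) =
      ENNReal.ofReal C * ∫⁻ s in Set.Icc (0 : ℝ) 1, f s) : ∃ C : ℚ, 0 < C ∧
    ∀ f : (Fin N → ℝ) → ℝ≥0∞, Measurable f →
    ∫⁻ q : (Fin N → ℝ) × (Fin N → ℝ), ENNReal.ofReal (∏ i, (|q.1 i * q.2 i| *
      (rr q.1 q.2 i) ^ b / (1 + rr q.1 q.2 i) ^ k)) * f (ss q.1 q.2) =
      ENNReal.ofReal C * ∫⁻ s in ucube (Fin N), f s := by
  obtain ⟨C, hC, h⟩ := h1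
  refine ⟨C ^ N, pow_pos hC N, fun f hf => ?_⟩
  have hg : Measurable fun q : ℝ × ℝ => ENNReal.ofReal (|q.1 * q.2| * (q.1 ^ 2 + q.2 ^ 2) ^ b /
      (1 + (q.1 ^ 2 + q.2 ^ 2)) ^ k) := by fun_prop
  have hφ : Measurable fun q : ℝ × ℝ => q.1 ^ 2 / (q.1 ^ 2 + q.2 ^ 2) := by fun_prop
  have hp := pi_push68 _ hg _ hφ (ENNReal.ofReal C) h N f hf
  have hC' : ENNReal.ofReal ((C ^ N : ℚ) : ℝ) = ENNReal.ofReal (C : ℝ) ^ N := by
    rw [Rat.cast_pow, ENNReal.ofReal_pow (by exact_mod_cast hC.le)]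
  rw [hC', ← hp]
  have e := volume_measurePreserving_arrowProdEquivProdArrow ℝ ℝ (Fin N)
  rw [← e.lintegral_comp_emb (MeasurableEquiv.measurableEmbedding _)]
  refine lintegral_congr fun p => ?_
  congr 1
  rw [ENNReal.ofReal_prod_of_nonneg]
  · rfl
  · intro i _
    exact div_nonneg (mul_nonneg (abs_nonneg _) (pow_nonneg (by unfold rr; positivity) _))
      (pow_nonneg (by unfold rr; positivity) _)

/-- Leaf C2. -/
theorem pair_all (N b k : ℕ) (hk : b + 2 < k) : ∃ C : ℚ, 0 < C ∧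
    ∀ f : (Fin N → ℝ) → ℝ≥0∞, Measurable f →
    ∫⁻ q : (Fin N → ℝ) × (Fin N → ℝ), ENNReal.ofReal (∏ i, (|q.1 i * q.2 i| *
      (rr q.1 q.2 i) ^ b / (1 + rr q.1 q.2 i) ^ k)) * f (ss q.1 q.2) =
      ENNReal.ofReal C * ∫⁻ s in ucube (Fin N), f s :=
  pair_all_of N b k (pair_one b k hk)

end Pool.Agent.E1
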