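import Pool.Agent.W_2cf66e_E1.DefsE

/-!
# MP_2cf66e_nt, theorem E1, leaf C3 (helper14): the base
-/

set_option autoImplicit false

noncomputable section

open MeasureTheory Set Filter Topology

namespace Pool.Agent.E1

open Pool.Agent.CVol

/-- `(1 + v²)^(-j - 1/2)`. -/
def hh14 (j : ℕ) (v : ℝ) : ℝ := 1 / ((1 + v ^ 2) ^ j * Real.sqrt (1 + v ^ 2))

theorem hh14_pos (j : ℕ) (v : ℝ) : 0 < hh14 j v := by
  unfold hh14
  positivity

theorem hh14_cont (j : ℕ) : Continuous (hh14 j) := by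
  unfold hh14
  refine continuous_const.div (by fun_prop) fun v => ?_
  positivity

theorem hh14_int {j : ℕ} (hj : 0 < j) : Integrable (hh14 j) := by
  refine integrable_inv_one_add_sq.mono' (hh14_cont j).aestronglyMeasurable
    (Eventually.of_forall fun v => ?_)
  rw [Real.norm_of_nonneg (hh14_pos j v).le, hh14, one_div]
  have h1 : (1 : ℝ) ≤ 1 + v ^ 2 := by nlinarith [sq_nonneg v]
  have h2 : 1 ≤ Real.sqrt (1 + v ^ 2) := Real.one_le_sqrt.2 h1
  have h3 : (1 + v ^ 2) ≤ (1 + v ^ 2) ^ j := le_self_pow₀ h1 hj.ne'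
  apply inv_anti₀ (by positivity)
  nlinarith

/-- The substitution. -/
def gg14 (v : ℝ) : ℝ := v / Real.sqrt (1 + v ^ 2)

theorem gg14_deriv (v : ℝ) : HasDerivAt gg14 (1 / ((1 + v ^ 2) * Real.sqrt (1 + v ^ 2))) v := by
  have h0 : (0 : ℝ) < 1 + v ^ 2 := by positivity
  have hs : 0 < Real.sqrt (1 + v ^ 2) := Real.sqrt_pos.2 h0
  have h1 : HasDerivAt (fun v : ℝ => 1 + v ^ 2) (2 * v) v := by
    simpa using ((hasDerivAt_id v).pow 2).const_add 1
  have h2 := h1.sqrt h0.ne'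
  have h3 := (hasDerivAt_id v).div h2 hs.ne'
  have hq : Real.sqrt (1 + v ^ 2) ^ 2 = 1 + v ^ 2 := Real.sq_sqrt h0.le
  have e : (1 * Real.sqrt (1 + v ^ 2) - id v * (2 * v / (2 * Real.sqrt (1 + v ^ 2)))) /
      Real.sqrt (1 + v ^ 2) ^ 2 = 1 / ((1 + v ^ 2) * Real.sqrt (1 + v ^ 2)) := by
    rw [id, hq]
    field_simp
    rw [hq]
    ring
  rw [e] at h3
  exact h3

theorem gg14_sq (v : ℝ) : 1 - gg14 v ^ 2 = 1 / (1 + v ^ 2) := by
  have h0 : (0 : ℝ) < 1 + v ^ 2 := by positivity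
  rw [gg14, div_pow, Real.sq_sqrt h0.le]
  field_simp
  ring

theorem gg14_top : Tendsto gg14 atTop (𝓝 1) := by
  have h1 : Tendsto (fun v : ℝ => Real.sqrt (1 - 1 / (1 + v ^ 2))) atTop (𝓝 (Real.sqrt (1 - 0))) := by
    refine (Real.continuous_sqrt.tendsto _).comp (tendsto_const_nhds.sub ?_)
    refine Tendsto.div_atTop tendsto_const_nhds ?_
    exact tendsto_atTop_add_const_left _ _ (tendsto_pow_atTop two_ne_zero)
  rw [sub_zero, Real.sqrt_one] at h1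
  refine h1.congr' ?_
  filter_upwards [eventually_ge_atTop (0 : ℝ)] with v hv
  have h2 : 0 ≤ gg14 v := by
    unfold gg14
    positivity
  rw [← gg14_sq v, sub_sub_cancel, Real.sqrt_sq h2]

theorem gg14_bot : Tendsto gg14 atBot (𝓝 (-1)) := by
  have h1 := (gg14_top.comp tendsto_neg_atBot_atTop).neg
  refine h1.congr fun v => ?_
  simp only [Function.comp_apply, gg14, neg_sq]
  ring

/-- The integral of `(1 + v²)^(-j - 1/2)` is a positive rational number. -/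
theorem c14 (m : ℕ) : ∃ c : ℚ, 0 < c ∧ ∫ v, hh14 (m + 1) v = (c : ℝ) := by
  set R : ℝ → ℝ := fun u => ∑ i ∈ Finset.range (m + 1),
    ((-1) ^ i * (m.choose i : ℝ) / (2 * i + 1)) * u ^ (2 * i + 1) with hR
  have hRd : ∀ u : ℝ, HasDerivAt R ((1 - u ^ 2) ^ m) u := by
    intro u
    have h1 : HasDerivAt R (∑ i ∈ Finset.range (m + 1),
        ((-1) ^ i * (m.choose i : ℝ) / (2 * i + 1)) * (((2 * i + 1 : ℕ) : ℝ) * u ^ (2 * i))) u := by
      rw [hR]
      refine HasDerivAt.fun_sum fun i _ => ?_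
      have := (hasDerivAt_pow (2 * i + 1) u).const_mul ((-1) ^ i * (m.choose i : ℝ) / (2 * i + 1))
      simpa using this
    convert h1 using 1
    have h2 : (1 - u ^ 2) ^ m = (-u ^ 2 + 1) ^ m := by ring
    rw [h2, add_pow]
    refine Finset.sum_congr rfl fun i _ => ?_
    have h3 : (2 * (i : ℝ) + 1) ≠ 0 := by positivity
    push_cast
    rw [one_pow, mul_one, neg_pow, ← pow_mul]
    field_simp
  have hd : ∀ v : ℝ, HasDerivAt (fun v => R (gg14 v)) (hh14 (m + 1) v) v := by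
    intro v
    have h1 := (hRd (gg14 v)).comp v (gg14_deriv v)
    have e : (1 - gg14 v ^ 2) ^ m * (1 / ((1 + v ^ 2) * Real.sqrt (1 + v ^ 2))) =
        hh14 (m + 1) v := by
      have h0 : (0 : ℝ) < 1 + v ^ 2 := by positivity
      have h2 : (1 + v ^ 2) ^ (m + 1) = (1 + v ^ 2) ^ m * (1 + v ^ 2) := pow_succ _ _
      rw [gg14_sq, hh14, one_div_pow, h2]
      field_simp
    rw [e] at h1
    exact h1
  have hRc : Continuous R := continuous_iff_continuousAt.2 fun u => (hRd u).continuousAt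
  have hval := integral_of_hasDerivAt_of_tendsto hd (hh14_int (Nat.succ_pos m))
    ((hRc.tendsto _).comp gg14_bot) ((hRc.tendsto _).comp gg14_top)
  set c : ℚ := ∑ i ∈ Finset.range (m + 1),
    (((-1) ^ i * (m.choose i : ℚ) / (2 * i + 1)) * 1 ^ (2 * i + 1) -
      ((-1) ^ i * (m.choose i : ℚ) / (2 * i + 1)) * (-1) ^ (2 * i + 1)) with hc
  have e : R 1 - R (-1) = (c : ℝ) := by
    rw [hR, hc, ← Finset.sum_sub_distrib]
    push_cast
    rfl
  rw [e] at hval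
  refine ⟨c, ?_, hval⟩
  have hpos : 0 < ∫ v, hh14 (m + 1) v := by
    rw [integral_pos_iff_support_of_nonneg (fun v => (hh14_pos _ v).le) (hh14_int (Nat.succ_pos m))]
    have : Function.support (hh14 (m + 1)) = univ := by
      ext v
      simp [(hh14_pos (m + 1) v).ne']
    rw [this]
    simp
  rw [hval] at hpos
  exact_mod_cast hpos

theorem lint14 {N : ℕ} (g : Fin N → ℝ → ℝ) (hg : ∀ i, Integrable (g i)) (h0 : ∀ i t, 0 ≤ g i t) :
    ∫⁻ y : Fin N → ℝ, ENNReal.ofReal (∏ i, g i (y i)) = ENNReal.ofReal (∏ i, ∫ t, g i t) := by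
  rw [← integral_fintype_prod_volume_eq_prod, ofReal_integral_eq_lintegral_ofReal]
  · exact Integrable.fintype_prod hg
  · exact Eventually.of_forall fun y => Finset.prod_nonneg fun i _ => h0 i _

/-- The inner integral. -/
theorem inn14 {k : ℕ} (hk : 0 < k) (x : ℝ) :
    Integrable (fun y : ℝ => 1 / ((1 + (x ^ 2 + y ^ 2)) ^ (2 * k) *
      Real.sqrt ((1 + (x ^ 2 + y ^ 2)) * (1 + x ^ 2)))) ∧
    ∫ y : ℝ, 1 / ((1 + (x ^ 2 + y ^ 2)) ^ (2 * k) *
      Real.sqrt ((1 + (x ^ 2 + y ^ 2)) * (1 + x ^ 2))) =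
      (∫ v, hh14 (2 * k) v) * hh14 (2 * k) x := by
  have hA : (0 : ℝ) < 1 + x ^ 2 := by positivity
  set s : ℝ := Real.sqrt (1 + x ^ 2) with hs
  have hs0 : 0 < s := Real.sqrt_pos.2 hA
  have hs2 : s ^ 2 = 1 + x ^ 2 := Real.sq_sqrt hA.le
  have e : ∀ y : ℝ, 1 / ((1 + (x ^ 2 + y ^ 2)) ^ (2 * k) *
      Real.sqrt ((1 + (x ^ 2 + y ^ 2)) * (1 + x ^ 2))) =
      1 / (1 + x ^ 2) ^ (2 * k + 1) * hh14 (2 * k) (s⁻¹ * y) := by
    intro y
    have h1 : 1 + (x ^ 2 + y ^ 2) = (1 + x ^ 2) * (1 + (s⁻¹ * y) ^ 2) := by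
      rw [mul_pow, inv_pow, hs2]
      field_simp
      ring
    have h2 : (0 : ℝ) < 1 + (s⁻¹ * y) ^ 2 := by positivity
    rw [h1]
    have h3 : (1 + x ^ 2) * (1 + (s⁻¹ * y) ^ 2) * (1 + x ^ 2) =
        (1 + x ^ 2) ^ 2 * (1 + (s⁻¹ * y) ^ 2) := by ring
    have h6 : (1 + x ^ 2) ^ (2 * k + 1) = (1 + x ^ 2) ^ (2 * k) * (1 + x ^ 2) := pow_succ _ _
    rw [h3, Real.sqrt_mul (by positivity), Real.sqrt_sq hA.le, hh14, mul_pow, h6]
    have h4 : 0 < Real.sqrt (1 + (s⁻¹ * y) ^ 2) := Real.sqrt_pos.2 h2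
    field_simp
  have hi : Integrable (fun y : ℝ => hh14 (2 * k) (s⁻¹ * y)) :=
    (hh14_int (by omega : 0 < 2 * k)).comp_mul_left' (inv_ne_zero hs0.ne')
  constructor
  · simp only [e]
    exact hi.const_mul _
  · simp only [e]
    rw [integral_const_mul, Measure.integral_comp_mul_left (hh14 (2 * k)) s⁻¹]
    rw [inv_inv, abs_of_pos hs0, smul_eq_mul]
    have h5 : hh14 (2 * k) x = s / (1 + x ^ 2) ^ (2 * k + 1) := by
      have h6 : (1 + x ^ 2) ^ (2 * k + 1) = (1 + x ^ 2) ^ (2 * k) * (1 + x ^ 2) := pow_succ _ _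
      rw [hh14, ← hs, h6, ← hs2]
      field_simp
    rw [h5]
    ring

theorem base_all (N k : ℕ) (hk : 0 < k) : ∃ M : ℚ, 0 < M ∧
    ∫⁻ q : (Fin N → ℝ) × (Fin N → ℝ), ENNReal.ofReal (∏ i, (1 / ((1 + rr q.1 q.2 i) ^ (2 * k) *
      Real.sqrt ((1 + rr q.1 q.2 i) * (1 + q.1 i ^ 2))))) = ENNReal.ofReal M := by
  obtain ⟨c, hc, hcv⟩ := c14 (2 * k - 1)
  have h2k : 2 * k - 1 + 1 = 2 * k := by omega
  rw [h2k] at hcv
  refine ⟨(c * c) ^ N, by positivity, ?_⟩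
  have hm : Measurable (fun q : (Fin N → ℝ) × (Fin N → ℝ) =>
      ENNReal.ofReal (∏ i, (1 / ((1 + rr q.1 q.2 i) ^ (2 * k) *
        Real.sqrt ((1 + rr q.1 q.2 i) * (1 + q.1 i ^ 2)))))) := by
    unfold rr
    fun_prop
  rw [Measure.volume_eq_prod, lintegral_prod _ hm.aemeasurable]
  have h1 : ∀ x : Fin N → ℝ, ∫⁻ y : Fin N → ℝ, ENNReal.ofReal
      (∏ i, (1 / ((1 + rr x y i) ^ (2 * k) * Real.sqrt ((1 + rr x y i) * (1 + x i ^ 2))))) =
      ENNReal.ofReal (∏ i, ((c : ℝ) * hh14 (2 * k) (x i))) := by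
    intro x
    have h2 := lint14 (fun i : Fin N => fun y : ℝ => 1 / ((1 + (x i ^ 2 + y ^ 2)) ^ (2 * k) *
      Real.sqrt ((1 + (x i ^ 2 + y ^ 2)) * (1 + x i ^ 2)))) (fun i => (inn14 hk (x i)).1)
      (fun i t => by positivity)
    simp only [(inn14 hk _).2, hcv] at h2
    exact h2
  simp only [h1]
  rw [lint14 (fun _ : Fin N => fun x : ℝ => (c : ℝ) * hh14 (2 * k) x)
    (fun _ => (hh14_int (by omega : 0 < 2 * k)).const_mul _)
    (fun _ t => mul_nonneg (by exact_mod_cast hc.le) (hh14_pos _ t).le)]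
  congr 1
  simp only [integral_const_mul, hcv, Finset.prod_const, Finset.card_univ, Fintype.card_fin]
  push_cast
  rfl

end Pool.Agent.E1
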