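import Pool.Agent.W_2cf66e_E1.LeD2

/-!
# MP_2cf66e_nt, theorem E1, leaf D3: from the kernel to `EQe` (helper61)
-/

set_option autoImplicit false

noncomputable section

open MeasureTheory Set Filter Topology

namespace Pool.Agent.E1

open Pool.Agent.CVol Pool.Agent.OneIneq

open scoped ENNReal


namespace D3

open MvPolynomial

/-- The variables `1, …, 2 N`. -/
def sh (N : ℕ) (s : Fin N ⊕ Fin N) : Fin (N + N + 1) := (finSumFinEquiv s).succ

/-- The kernel as a polynomial. -/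
def GG {N : ℕ} (a J D Om : MvPolynomial (Fin N ⊕ Fin N) ℚ) : MvPolynomial (Fin (N + N + 1)) ℚ :=
  (1 + ((rename (sh N) a - rename (sh N) J) ^ 2 - rename (sh N) D) ^ 2 *
    (rename (sh N) Om * X 0)) *
    ((1 - ((rename (sh N) a - rename (sh N) J) ^ 2 - rename (sh N) D) *
      (rename (sh N) D + rename (sh N) J * (rename (sh N) a - rename (sh N) J)) *
      (rename (sh N) Om * X 0)) ^ 2 +
      rename (sh N) a ^ 2 * rename (sh N) D * (rename (sh N) Om * X 0))

/-- The kernel at the values of the four polynomials. -/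
def QV {N : ℕ} (a J D Om : MvPolynomial (Fin N ⊕ Fin N) ℚ) (y : Fin N ⊕ Fin N → ℝ) (t : ℝ) : ℝ :=
  QQ (aeval y a) (aeval y J) (aeval y D) (aeval y Om) t

/-- The value of the inner integral, without `π`. -/
def vv {N : ℕ} (a J D Om : MvPolynomial (Fin N ⊕ Fin N) ℚ) (y : Fin N ⊕ Fin N → ℝ) : ℝ :=
  (1 / (aeval y a : ℝ) ^ 2 + (aeval y J : ℝ) / ((aeval y a : ℝ) ^ 2 *
    Real.sqrt (aeval y D))) / Real.sqrt (aeval y Om)

theorem aeval_GG {N : ℕ} (a J D Om : MvPolynomial (Fin N ⊕ Fin N) ℚ) (z : Fin (N + N + 1) → ℝ) :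
    (aeval z (GG a J D Om) : ℝ) = QV a J D Om (fun s => z (sh N s)) (z 0) := by
  simp only [GG, QV, QQ, map_mul, map_add, map_sub, map_pow, map_one, aeval_rename, aeval_X]
  rfl

/-- Splitting off the variable `0`. -/
def gs (N : ℕ) (z : Fin (N + N + 1) → ℝ) : ℝ × (Fin N ⊕ Fin N → ℝ) := (z 0, fun s => z (sh N s))

theorem gs_mp (N : ℕ) : MeasurePreserving (gs N) volume volume := by
  have h1 := volume_preserving_piFinSuccAbove (fun _ : Fin (N + N + 1) => ℝ) 0
  have h2 := volume_measurePreserving_piCongrLeft (fun _ : Fin N ⊕ Fin N => ℝ)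
    (finSumFinEquiv (m := N) (n := N)).symm
  have h3 : MeasurePreserving (Prod.map (id : ℝ → ℝ)
      (MeasurableEquiv.piCongrLeft (fun _ : Fin N ⊕ Fin N => ℝ)
        (finSumFinEquiv (m := N) (n := N)).symm)) volume volume :=
    (MeasurePreserving.id volume).prod h2
  have h4 := h3.comp h1
  have h5 : gs N = (Prod.map (id : ℝ → ℝ)
      (MeasurableEquiv.piCongrLeft (fun _ : Fin N ⊕ Fin N => ℝ)
        (finSumFinEquiv (m := N) (n := N)).symm)) ∘
        (MeasurableEquiv.piFinSuccAbove (fun _ : Fin (N + N + 1) => ℝ) 0) := by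
    funext z
    refine Prod.ext rfl ?_
    funext s
    have h6 := Equiv.piCongrLeft_apply_apply (fun _ : Fin N ⊕ Fin N => ℝ)
      (finSumFinEquiv (m := N) (n := N)).symm
      (fun i : Fin (N + N) => z ((0 : Fin (N + N + 1)).succAbove i)) (finSumFinEquiv s)
    rw [Equiv.symm_apply_apply] at h6
    exact h6.symm
  rw [h5]
  exact h4

theorem elim_mp (N : ℕ) : MeasurePreserving
    (fun q : (Fin N → ℝ) × (Fin N → ℝ) => (Sum.elim q.1 q.2 : Fin N ⊕ Fin N → ℝ))
    volume volume := by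
  have h := volume_measurePreserving_sumPiEquivProdPi_symm (fun _ : Fin N ⊕ Fin N => ℝ)
  have h5 : (fun q : (Fin N → ℝ) × (Fin N → ℝ) => (Sum.elim q.1 q.2 : Fin N ⊕ Fin N → ℝ)) =
      (MeasurableEquiv.sumPiEquivProdPi (fun _ : Fin N ⊕ Fin N => ℝ)).symm := by
    funext q s
    cases s <;> rfl
  rw [h5]
  exact h

theorem meas_aeval {ι : Type} [Fintype ι] (P : MvPolynomial ι ℚ) :
    Measurable (fun y : ι → ℝ => (aeval y P : ℝ)) := by
  have : (fun y : ι → ℝ => (aeval y P : ℝ)) =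
      fun y : ι → ℝ => eval y (map (algebraMap ℚ ℝ) P) := by
    funext y
    rw [aeval_def, eval₂_eq_eval_map]
  rw [this]
  exact (MvPolynomial.continuous_eval _).measurable

end D3

open D3 in
theorem eqe_of {N : ℕ} (a J D Om : MvPolynomial (Fin N ⊕ Fin N) ℚ)
    (h : ∀ z : Fin N ⊕ Fin N → ℝ, 0 < (MvPolynomial.aeval z a : ℝ) ∧
      0 ≤ (MvPolynomial.aeval z J : ℝ) ∧
      2 * (MvPolynomial.aeval z J : ℝ) ≤ MvPolynomial.aeval z a ∧
      0 ≤ (MvPolynomial.aeval z D : ℝ) ∧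
      16 * (MvPolynomial.aeval z D : ℝ) ≤ (MvPolynomial.aeval z a : ℝ) ^ 2 ∧
      ((MvPolynomial.aeval z D : ℝ) = 0 → (MvPolynomial.aeval z J : ℝ) = 0) ∧
      0 < (MvPolynomial.aeval z Om : ℝ)) (hD0 : D ≠ 0) {x : ℝ} (hx : 0 ≤ x)
    (hi : ∫⁻ q : (Fin N → ℝ) × (Fin N → ℝ), ENNReal.ofReal
      ((1 / (MvPolynomial.aeval (Sum.elim q.1 q.2) a : ℝ) ^ 2 +
        (MvPolynomial.aeval (Sum.elim q.1 q.2) J : ℝ) /
          ((MvPolynomial.aeval (Sum.elim q.1 q.2) a : ℝ) ^ 2 *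
            Real.sqrt (MvPolynomial.aeval (Sum.elim q.1 q.2) D))) /
              Real.sqrt (MvPolynomial.aeval (Sum.elim q.1 q.2) Om)) = ENNReal.ofReal x) :
    EQe x := by
  have hcons : ∀ z : Fin (N + N + 1) → ℝ,
      (MvPolynomial.aeval (Fin.cons (z 0 ^ 2) fun i => z i.succ : Fin (N + N + 1) → ℝ)
        (GG a J D Om) : ℝ) = QV a J D Om (gs N z).2 ((gs N z).1 ^ 2) := by
    intro z
    rw [aeval_GG]
    rfl
  -- positivity of the kernel
  have hpos : ∀ (y : Fin N ⊕ Fin N → ℝ) (t : ℝ), 0 ≤ t → 0 < QV a J D Om y t := by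
    intro y t ht
    obtain ⟨h1, h2, h3, h4, _, h6, h7⟩ := h y
    exact qq_pos h1 h2 h3 h4 h6 h7 ht
  -- measurability
  have hma := meas_aeval a
  have hmJ := meas_aeval J
  have hmD := meas_aeval D
  have hmO := meas_aeval Om
  have hmv : Measurable (fun y : Fin N ⊕ Fin N → ℝ => ENNReal.ofReal (vv a J D Om y)) := by
    unfold vv
    fun_prop
  have hmQ : Measurable (fun p : ℝ × (Fin N ⊕ Fin N → ℝ) =>
      ENNReal.ofReal (1 / QV a J D Om p.2 (p.1 ^ 2))) := by
    have h1 : Measurable (fun p : ℝ × (Fin N ⊕ Fin N → ℝ) => (MvPolynomial.aeval p.2 a : ℝ)) :=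
      hma.comp measurable_snd
    have h2 : Measurable (fun p : ℝ × (Fin N ⊕ Fin N → ℝ) => (MvPolynomial.aeval p.2 J : ℝ)) :=
      hmJ.comp measurable_snd
    have h3 : Measurable (fun p : ℝ × (Fin N ⊕ Fin N → ℝ) => (MvPolynomial.aeval p.2 D : ℝ)) :=
      hmD.comp measurable_snd
    have h4 : Measurable (fun p : ℝ × (Fin N ⊕ Fin N → ℝ) => (MvPolynomial.aeval p.2 Om : ℝ)) :=
      hmO.comp measurable_snd
    unfold QV QQ
    fun_prop
  -- the inner integral
  have hDae : ∀ᵐ y : Fin N ⊕ Fin N → ℝ, (MvPolynomial.aeval y D : ℝ) ≠ 0 := by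
    have := null_rat D hD0
    rw [ae_iff]
    simpa using this
  have hinner : ∀ᵐ y : Fin N ⊕ Fin N → ℝ,
      ∫⁻ w : ℝ, ENNReal.ofReal (1 / QV a J D Om y (w ^ 2)) =
        ENNReal.ofReal Real.pi * ENNReal.ofReal (vv a J D Om y) := by
    filter_upwards [hDae] with y hy
    obtain ⟨h1, h2, h3, h4, h5, _, h7⟩ := h y
    have hDp : 0 < (MvPolynomial.aeval y D : ℝ) := lt_of_le_of_ne h4 (Ne.symm hy)
    obtain ⟨g1, g2⟩ := qq_int h1 h2 h3 hDp h5 h7
    have hnn : 0 ≤ᵐ[volume] fun w : ℝ => 1 / QV a J D Om y (w ^ 2) :=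
      Eventually.of_forall fun w => (div_pos one_pos (hpos y _ (sq_nonneg w))).le
    have g3 : Integrable (fun w : ℝ => 1 / QV a J D Om y (w ^ 2)) := g1
    rw [← ofReal_integral_eq_lintegral_ofReal g3 hnn, ← ENNReal.ofReal_mul Real.pi_pos.le]
    exact congrArg ENNReal.ofReal g2
  have htot : ∫⁻ z : Fin (N + N + 1) → ℝ, ENNReal.ofReal (1 / (MvPolynomial.aeval
      (Fin.cons (z 0 ^ 2) fun i => z i.succ : Fin (N + N + 1) → ℝ) (GG a J D Om) : ℝ)) =
      ENNReal.ofReal (Real.pi * x) := by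
    simp only [hcons]
    rw [(gs_mp N).lintegral_comp (f := fun p : ℝ × (Fin N ⊕ Fin N → ℝ) =>
      ENNReal.ofReal (1 / QV a J D Om p.2 (p.1 ^ 2))) hmQ]
    rw [Measure.volume_eq_prod, lintegral_prod_symm _ hmQ.aemeasurable, lintegral_congr_ae hinner,
      lintegral_const_mul _ hmv, ← (elim_mp N).lintegral_comp hmv,
      ENNReal.ofReal_mul Real.pi_pos.le]
    exact congrArg _ hi
  have hnn : 0 ≤ᵐ[volume] fun z : Fin (N + N + 1) → ℝ => 1 / (MvPolynomial.aeval
      (Fin.cons (z 0 ^ 2) fun i => z i.succ : Fin (N + N + 1) → ℝ) (GG a J D Om) : ℝ) := by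
    refine Eventually.of_forall fun z => ?_
    simp only [hcons]
    exact (div_pos one_pos (hpos _ _ (sq_nonneg _))).le
  have hmeas : Measurable fun z : Fin (N + N + 1) → ℝ => 1 / (MvPolynomial.aeval
      (Fin.cons (z 0 ^ 2) fun i => z i.succ : Fin (N + N + 1) → ℝ) (GG a J D Om) : ℝ) := by
    refine measurable_const.div ((meas_aeval (GG a J D Om)).comp ?_)
    rw [measurable_pi_iff]
    intro i
    refine Fin.cases ?_ (fun j => ?_) i
    · simp only [Fin.cons_zero]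
      exact (measurable_pi_apply _).pow_const 2
    · simp only [Fin.cons_succ]
      exact measurable_pi_apply _
  have hint : Integrable fun z : Fin (N + N + 1) → ℝ => 1 / (MvPolynomial.aeval
      (Fin.cons (z 0 ^ 2) fun i => z i.succ : Fin (N + N + 1) → ℝ) (GG a J D Om) : ℝ) := by
    rw [← lintegral_ofReal_ne_top_iff_integrable hmeas.aestronglyMeasurable hnn, htot]
    exact ENNReal.ofReal_ne_top
  refine ⟨N + N, GG a J D Om, ?_, hint, ?_⟩
  · intro z hz
    rw [aeval_GG]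
    exact hpos _ _ hz
  · rw [integral_eq_lintegral_of_nonneg_ae hnn hmeas.aestronglyMeasurable, htot,
      ENNReal.toReal_ofReal (mul_nonneg Real.pi_pos.le hx)]

end Pool.Agent.E1
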