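import Pool.Agent.W_2cf66e_E1.DefsE

/-!
Theorem E1, leaf E1 (helper6): homogenization.
-/

set_option autoImplicit false

noncomputable section

open MeasureTheory Set Filter Topology

namespace Pool.Agent.E1

open Pool.Agent.CVol Pool.Agent.OneIneq

/-- The numerator of a power of one coordinate. -/
lemma hom_one6 {N : ℕ} (i : Fin N) (e d : ℕ) (h : e ≤ d) (x y : Fin N → ℝ) (hr : rr x y i ≠ 0) :
    (x i ^ 2) ^ e * rr x y i ^ (d - e) = rr x y i ^ d * ss x y i ^ e := by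
  obtain ⟨k, rfl⟩ := Nat.exists_eq_add_of_le h
  unfold ss
  rw [Nat.add_sub_cancel_left, div_pow, pow_add]
  field_simp

/-- E1: homogenization. -/
theorem hom_ex {N : ℕ} (F : MvPolynomial (Fin N) ℚ) : ∃ d₀ : ℕ, ∀ d ≥ d₀,
    ∃ G : MvPolynomial (Fin N ⊕ Fin N) ℚ, ∀ x y : Fin N → ℝ, (∀ i, rr x y i ≠ 0) →
      (MvPolynomial.aeval (Sum.elim x y) G : ℝ) =
        (∏ i, rr x y i) ^ d * MvPolynomial.aeval (ss x y) F := by
  classical
  refine ⟨F.support.sup fun m => Finset.univ.sup fun i => m i, fun d hd => ?_⟩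
  refine ⟨∑ m ∈ F.support, MvPolynomial.C (F.coeff m) *
    ∏ i, ((MvPolynomial.X (Sum.inl i) ^ 2) ^ (m i) *
      (MvPolynomial.X (Sum.inl i) ^ 2 + MvPolynomial.X (Sum.inr i) ^ 2) ^ (d - m i)),
    fun x y hr => ?_⟩
  have hm : ∀ m ∈ F.support, ∀ i, m i ≤ d := by
    intro m hm i
    have h1 : m i ≤ Finset.univ.sup fun i => m i :=
      Finset.le_sup (f := fun i => m i) (Finset.mem_univ i)
    have h2 : (Finset.univ.sup fun i => m i) ≤ F.support.sup fun m => Finset.univ.sup fun i => m i :=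
      Finset.le_sup (f := fun m : Fin N →₀ ℕ => Finset.univ.sup fun i => m i) hm
    exact h1.trans (h2.trans hd)
  have hF : (MvPolynomial.aeval (ss x y) F : ℝ) =
      ∑ m ∈ F.support, ((F.coeff m : ℚ) : ℝ) * ∏ i, ss x y i ^ (m i) := by
    rw [MvPolynomial.aeval_def, MvPolynomial.eval₂_eq']
    rfl
  rw [hF, map_sum, Finset.mul_sum]
  refine Finset.sum_congr rfl fun m hmm => ?_
  rw [map_mul, MvPolynomial.aeval_C, map_prod]
  have h1 : ∀ i, (MvPolynomial.aeval (Sum.elim x y) ((MvPolynomial.X (Sum.inl i) ^ 2) ^ (m i) *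
      (MvPolynomial.X (Sum.inl i) ^ 2 + MvPolynomial.X (Sum.inr i) ^ 2) ^ (d - m i) :
        MvPolynomial (Fin N ⊕ Fin N) ℚ) : ℝ) = rr x y i ^ d * ss x y i ^ (m i) := by
    intro i
    simp only [map_mul, map_pow, map_add, MvPolynomial.aeval_X, Sum.elim_inl, Sum.elim_inr]
    exact hom_one6 i (m i) d (hm m hmm i) x y (hr i)
  rw [Finset.prod_congr rfl fun i _ => h1 i, Finset.prod_mul_distrib, Finset.prod_pow]
  simp only [eq_ratCast]
  ring

end Pool.Agent.E1
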