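import Pool.Agent.W_2cf66e_E1.DefsE

/-!
# MP_2cf66e_nt, theorem E1: growth of a polynomial, nonnegativity on a dense set (helper85)
-/

set_option autoImplicit false

noncomputable section

open MeasureTheory Set Filter Topology

namespace Pool.Agent.E1

theorem one_le_pr85 {N : ℕ} (x y : Fin N → ℝ) : 1 ≤ ∏ i, (1 + rr x y i) :=
  Finset.one_le_prod fun i _ => by unfold rr; nlinarith [sq_nonneg (x i), sq_nonneg (y i)]

theorem le_pr85 {N : ℕ} (x y : Fin N → ℝ) (j : Fin N) : 1 + rr x y j ≤ ∏ i, (1 + rr x y i) := by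
  have h1 : ∀ i : Fin N, 1 ≤ 1 + rr x y i := fun i => by
    unfold rr; nlinarith [sq_nonneg (x i), sq_nonneg (y i)]
  rw [← Finset.mul_prod_erase _ _ (Finset.mem_univ j)]
  exact le_mul_of_one_le_right (by linarith [h1 j])
    (Finset.one_le_prod fun i _ => h1 i)

theorem abs_le85 {N : ℕ} (x y : Fin N → ℝ) (i : Fin N ⊕ Fin N) :
    |Sum.elim x y i| ≤ ∏ i, (1 + rr x y i) := by
  rcases i with i | i
  · refine le_trans ?_ (le_pr85 x y i)
    simp only [Sum.elim_inl, rr]
    rw [abs_le]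
    constructor <;> nlinarith [sq_nonneg (x i - 1), sq_nonneg (x i + 1), sq_nonneg (y i)]
  · refine le_trans ?_ (le_pr85 x y i)
    simp only [Sum.elim_inr, rr]
    rw [abs_le]
    constructor <;> nlinarith [sq_nonneg (y i - 1), sq_nonneg (y i + 1), sq_nonneg (x i)]

theorem grow {N : ℕ} (G : MvPolynomial (Fin N ⊕ Fin N) ℚ) : ∃ (k₀ : ℕ) (C : ℚ), 0 < C ∧
    ∀ k ≥ k₀, ∀ x y : Fin N → ℝ, |(MvPolynomial.aeval (Sum.elim x y) G : ℝ)| ≤
      C * (∏ i, (1 + rr x y i)) ^ k := by
  induction G using MvPolynomial.induction_on with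
  | C a =>
    refine ⟨0, |a| + 1, by positivity, fun k _ x y => ?_⟩
    have h1 : (1 : ℝ) ≤ (∏ i, (1 + rr x y i)) ^ k := one_le_pow₀ (one_le_pr85 x y)
    have h2 : (MvPolynomial.aeval (Sum.elim x y) (MvPolynomial.C a) : ℝ) = (a : ℝ) := by
      simp
    rw [h2]
    push_cast
    nlinarith [abs_nonneg (a : ℝ)]
  | add p q hp hq =>
    obtain ⟨k₁, C₁, hC₁, h₁⟩ := hp
    obtain ⟨k₂, C₂, hC₂, h₂⟩ := hq
    refine ⟨max k₁ k₂, C₁ + C₂, by positivity, fun k hk x y => ?_⟩
    rw [map_add]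
    push_cast
    rw [add_mul]
    exact (abs_add_le _ _).trans (add_le_add (h₁ k (le_trans (le_max_left _ _) hk) x y)
      (h₂ k (le_trans (le_max_right _ _) hk) x y))
  | mul_X p i hp =>
    obtain ⟨k₁, C₁, hC₁, h₁⟩ := hp
    refine ⟨k₁ + 1, C₁, hC₁, fun k hk x y => ?_⟩
    obtain ⟨l, rfl⟩ : ∃ l, k = l + 1 := ⟨k - 1, by omega⟩
    rw [map_mul, MvPolynomial.aeval_X, abs_mul, pow_succ, ← mul_assoc]
    exact mul_le_mul (h₁ l (by omega) x y) (abs_le85 x y i) (abs_nonneg _)
      (by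
        have := (one_le_pr85 x y)
        have hC : (0 : ℝ) < C₁ := by exact_mod_cast hC₁
        positivity)

theorem nonneg_dense {N : ℕ} (G : MvPolynomial (Fin N ⊕ Fin N) ℚ)
    (h : ∀ x y : Fin N → ℝ, (∀ i, rr x y i ≠ 0) →
      0 ≤ (MvPolynomial.aeval (Sum.elim x y) G : ℝ)) (x y : Fin N → ℝ) :
    0 ≤ (MvPolynomial.aeval (Sum.elim x y) G : ℝ) := by
  have hc : Continuous fun t : ℝ =>
      (MvPolynomial.aeval (Sum.elim (fun i => x i + t) y) G : ℝ) := by
    have h1 : Continuous fun z : Fin N ⊕ Fin N → ℝ => (MvPolynomial.aeval z G : ℝ) := by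
      have h2 : (fun z : Fin N ⊕ Fin N → ℝ => (MvPolynomial.aeval z G : ℝ)) =
          fun z => MvPolynomial.eval z (MvPolynomial.map (algebraMap ℚ ℝ) G) := by
        funext z
        rw [MvPolynomial.aeval_def, MvPolynomial.eval_map]
      rw [h2]
      exact MvPolynomial.continuous_eval _
    refine h1.comp (continuous_pi fun i => ?_)
    rcases i with i | i
    · simp only [Sum.elim_inl]
      fun_prop
    · simp only [Sum.elim_inr]
      fun_prop
  have ht : Tendsto (fun t : ℝ => (MvPolynomial.aeval (Sum.elim (fun i => x i + t) y) G : ℝ))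
      (𝓝[>] 0) (𝓝 (MvPolynomial.aeval (Sum.elim x y) G : ℝ)) := by
    have := (hc.tendsto 0).mono_left (nhdsWithin_le_nhds (s := Set.Ioi (0 : ℝ)))
    simpa using this
  refine ge_of_tendsto ht ?_
  have hev : ∀ᶠ t : ℝ in 𝓝[>] 0, ∀ i : Fin N, x i + t ≠ 0 := by
    rw [eventually_all]
    intro i
    by_cases hx : x i = 0
    · filter_upwards [self_mem_nhdsWithin] with t ht0
      rw [hx, zero_add]
      exact ne_of_gt ht0
    · refine eventually_nhdsWithin_of_eventually_nhds ?_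
      have : Continuous fun t : ℝ => x i + t := by fun_prop
      exact this.continuousAt.eventually_ne (by simpa using hx)
  filter_upwards [hev] with t ht1
  refine h _ _ fun i => ?_
  have := ht1 i
  unfold rr
  have h1 : 0 < (x i + t) ^ 2 := by positivity
  nlinarith [sq_nonneg (y i)]

end Pool.Agent.E1
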