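import Pool.Agent.W_2cf66e_E1.LeB5

/-!
# MP_2cf66e_nt, theorem E1, leaf F1: Fubini for the variation (helper12)
-/

set_option autoImplicit false

noncomputable section

open MeasureTheory

namespace Pool.Agent.E1

open Pool.Agent.CVol Pool.Agent.OneIneq

theorem ucube_vol12 (n : ℕ) : (volume : Measure (Fin n → ℝ)) (ucube (Fin n)) = 1 := by
  rw [ucube, Real.volume_Icc_pi]
  simp

theorem var_int {m n : ℕ} (hm : 0 < m) {h0 r0 : Polynomial ℚ} {h r : Fin m → Polynomial ℚ}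
    (H : Hills m h0 r0 h r) (s0 : ℝ) (hs : 0 < s0) (P : Fin m → MvPolynomial (Fin n) ℚ)
    (hP : ∀ a, ∀ z ∈ ucube (Fin n), |(MvPolynomial.aeval z (P a) : ℝ)| ≤ s0) :
    ∫⁻ s in ucube (Fin (n + 1)), ENNReal.ofReal (|Polynomial.aeval (s 0) (PiP m)| *
      HV r0 r s0 (fun a => MvPolynomial.aeval (fun i => s (Fin.succ i)) (P a)) (s 0) /
      (2 * Real.sqrt (HV h0 h s0 (fun a => MvPolynomial.aeval (fun i => s (Fin.succ i)) (P a))
        (s 0)))) =
      ENNReal.ofReal ((2 * m - 1) * s0 -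
        1 / 2 * ∑ a, ∫ z in ucube (Fin n), |(MvPolynomial.aeval z (P a) : ℝ)|) := by
  obtain ⟨F, hF⟩ : ∃ F : (Fin (n + 1) → ℝ) → ℝ, F = fun s =>
      |Polynomial.aeval (s 0) (PiP m)| *
      HV r0 r s0 (fun a => MvPolynomial.aeval (fun i => s (Fin.succ i)) (P a)) (s 0) /
      (2 * Real.sqrt (HV h0 h s0 (fun a => MvPolynomial.aeval (fun i => s (Fin.succ i)) (P a))
        (s 0))) := ⟨_, rfl⟩
  have hFs : ∀ s : Fin (n + 1) → ℝ, |Polynomial.aeval (s 0) (PiP m)| *
      HV r0 r s0 (fun a => MvPolynomial.aeval (fun i => s (Fin.succ i)) (P a)) (s 0) /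
      (2 * Real.sqrt (HV h0 h s0 (fun a => MvPolynomial.aeval (fun i => s (Fin.succ i)) (P a))
        (s 0))) = F s := fun s => by rw [hF]
  simp only [hFs]
  have hc0 : ∀ q : Polynomial ℚ, Continuous fun s : Fin (n + 1) → ℝ =>
      (Polynomial.aeval (s 0) q : ℝ) := fun q =>
    (Polynomial.continuous_aeval q).comp (continuous_apply 0)
  have hc1 : ∀ a : Fin m, Continuous fun s : Fin (n + 1) → ℝ =>
      (MvPolynomial.aeval (fun i => s (Fin.succ i)) (P a) : ℝ) := fun a =>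
    (HCell_cont (P a)).comp (continuous_pi fun i => continuous_apply _)
  have hcH : ∀ (q0 : Polynomial ℚ) (q : Fin m → Polynomial ℚ), Continuous fun s : Fin (n + 1) → ℝ =>
      HV q0 q s0 (fun a => MvPolynomial.aeval (fun i => s (Fin.succ i)) (P a)) (s 0) := by
    intro q0 q
    unfold HV
    exact (continuous_const.mul (hc0 q0)).add
      (continuous_finsetSum _ fun a _ => ((hc1 a).pow 2).mul (hc0 (q a)))
  have hFm : Measurable F := by
    rw [hF]
    exact (((hc0 (PiP m)).abs.mul (hcH r0 r)).measurable).div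
      ((Real.continuous_sqrt.comp (hcH h0 h)).measurable.const_mul 2)
  have hbox : ∀ s ∈ ucube (Fin (n + 1)), (fun i => s (Fin.succ i)) ∈ ucube (Fin n) ∧
      0 ≤ s 0 ∧ s 0 ≤ 1 := by
    intro s hs'
    rw [ucube, Set.mem_Icc, Pi.le_def, Pi.le_def] at hs' ⊢
    exact ⟨⟨fun j => hs'.1 _, fun j => hs'.2 _⟩, hs'.1 0, hs'.2 0⟩
  have hpos : ∀ (z : Fin n → ℝ), z ∈ ucube (Fin n) → ∀ t : ℝ, 0 ≤ t → t ≤ 1 →
      0 ≤ F (Fin.cons t z) := by
    intro z hz t h1 h2
    rw [hF]
    have h3 := (hv_g65 H s0 hs (fun a => (MvPolynomial.aeval z (P a) : ℝ))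
      (fun a => hP a z hz) t h1 h2).le
    exact div_nonneg (mul_nonneg (abs_nonneg _) h3)
      (mul_nonneg zero_le_two (Real.sqrt_nonneg _))
  have hpos' : ∀ s ∈ ucube (Fin (n + 1)), 0 ≤ F s := by
    intro s hs'
    obtain ⟨h1, h2, h3⟩ := hbox s hs'
    have h4 := hpos _ h1 (s 0) h2 h3
    have h5 : (Fin.cons (s 0) fun i => s (Fin.succ i) : Fin (n + 1) → ℝ) = s :=
      Fin.cons_self_tail s
    rwa [h5] at h4
  obtain ⟨hi, hv⟩ := KVal_fub F hFm
    (fun z => (2 * m - 1) * s0 - 1 / 2 * ∑ a, |(MvPolynomial.aeval z (P a) : ℝ)|)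
    ((2 * m - 1) * s0) (ae_restrict_of_forall_mem (ucube_meas _) fun z hz => by
      obtain ⟨h1, h2⟩ := hv_var hm H s0 hs (fun a => (MvPolynomial.aeval z (P a) : ℝ))
        (fun a => hP a z hz)
      have h3 : (fun t : ℝ => F (Fin.cons t z)) = fun X : ℝ => |Polynomial.aeval X (PiP m)| *
          HV r0 r s0 (fun a => (MvPolynomial.aeval z (P a) : ℝ)) X /
          (2 * Real.sqrt (HV h0 h s0 (fun a => (MvPolynomial.aeval z (P a) : ℝ)) X)) := by
        rw [hF]
        rfl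
      have h4 : ∫ t in Set.Icc (0 : ℝ) 1, F (Fin.cons t z) =
          (2 * m - 1) * s0 - 1 / 2 * ∑ a, |(MvPolynomial.aeval z (P a) : ℝ)| := by
        rw [h3]
        exact h2
      refine ⟨by rw [h3]; exact h1, h4, ?_⟩
      have h5 : ∫ t in Set.Icc (0 : ℝ) 1, |F (Fin.cons t z)| =
          ∫ t in Set.Icc (0 : ℝ) 1, F (Fin.cons t z) :=
        setIntegral_congr_fun measurableSet_Icc fun t ht => abs_of_nonneg (hpos z hz t ht.1 ht.2)
      rw [h5, h4]
      have h6 : 0 ≤ ∑ a, |(MvPolynomial.aeval z (P a) : ℝ)| :=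
        Finset.sum_nonneg fun a _ => abs_nonneg _
      linarith)
  rw [← ofReal_integral_eq_lintegral_ofReal hi
    (ae_restrict_of_forall_mem (ucube_meas _) hpos'), hv]
  congr 1
  have hai : ∀ a : Fin m, IntegrableOn (fun z : Fin n → ℝ => |(MvPolynomial.aeval z (P a) : ℝ)|)
      (ucube (Fin n)) := fun a => abs_int (P a)
  have hvol : (volume : Measure (Fin n → ℝ)).real (ucube (Fin n)) = 1 := by
    rw [measureReal_def, ucube_vol12]
    rfl
  have hci : IntegrableOn (fun _ : Fin n → ℝ => (2 * (m : ℝ) - 1) * s0) (ucube (Fin n)) :=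
    integrableOn_const (by rw [ucube_vol12]; exact ENNReal.one_ne_top)
  rw [integral_sub hci ((integrable_finset_sum _ fun a _ => hai a).const_mul _),
    setIntegral_const, hvol, one_smul, integral_const_mul, integral_finsetSum _ fun a _ => hai a]

end Pool.Agent.E1
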