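import Pool.Agent.W_2cf66e_E1.LeB4
import Pool.Agent.W_2cf66e_E1.LeB5
import Pool.Agent.W_2cf66e_E1.LeC2
import Pool.Agent.W_2cf66e_E1.LeC3
import Pool.Agent.W_2cf66e_E1.LeD3
import Pool.Agent.W_2cf66e_E1.LeE1
import Pool.Agent.W_2cf66e_E1.LeE2
import Pool.Agent.W_2cf66e_E1.LeF1

/-!
# MP_2cf66e_nt, theorem E1, leaf F2: the assembly (helper3)
-/

set_option autoImplicit false

noncomputable section

open MeasureTheory Set Filter Topology

namespace Pool.Agent.E1

open Pool.Agent.CVol Pool.Agent.OneIneq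
open scoped ENNReal

/-! ### helper lemmas -/

theorem ss_mem {N : ℕ} (x y : Fin N → ℝ) : ss x y ∈ ucube (Fin N) := by
  rw [ucube, Set.mem_Icc, Pi.le_def, Pi.le_def]
  refine ⟨fun i => ?_, fun i => ?_⟩
  · unfold ss rr
    positivity
  · unfold ss rr
    rcases eq_or_lt_of_le (by positivity : (0 : ℝ) ≤ x i ^ 2 + y i ^ 2) with h | h
    · rw [← h]
      simp
    · rw [div_le_one h]
      nlinarith [sq_nonneg (y i)]

/-- The polynomial of the hill function in the coordinates. -/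
def HP {m n : ℕ} (s0 : ℚ) (h0 : Polynomial ℚ) (h : Fin m → Polynomial ℚ)
    (P : Fin m → MvPolynomial (Fin n) ℚ) : MvPolynomial (Fin (n + 1)) ℚ :=
  MvPolynomial.C (s0 ^ 2) * Polynomial.aeval (MvPolynomial.X 0) h0 +
    ∑ a, (MvPolynomial.rename Fin.succ (P a)) ^ 2 * Polynomial.aeval (MvPolynomial.X 0) (h a)

theorem aeval_poly0 {n : ℕ} (z : Fin (n + 1) → ℝ) (p : Polynomial ℚ) :
    (MvPolynomial.aeval z (Polynomial.aeval (MvPolynomial.X 0 : MvPolynomial (Fin (n + 1)) ℚ) p) : ℝ) =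
      Polynomial.aeval (z 0) p := by
  rw [← Polynomial.aeval_algHom_apply, MvPolynomial.aeval_X]

theorem HP_val {m n : ℕ} (s0 : ℚ) (h0 : Polynomial ℚ) (h : Fin m → Polynomial ℚ)
    (P : Fin m → MvPolynomial (Fin n) ℚ) (z : Fin (n + 1) → ℝ) :
    (MvPolynomial.aeval z (HP s0 h0 h P) : ℝ) =
      HV h0 h (s0 : ℝ) (fun a => MvPolynomial.aeval (fun i => z (Fin.succ i)) (P a)) (z 0) := by
  unfold HP HV
  simp only [map_add, map_mul, map_pow, map_sum, aeval_poly0, MvPolynomial.aeval_C,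
    MvPolynomial.aeval_rename]
  simp only [eq_ratCast]
  rfl

/-- `x_i² + y_i²`. -/
def rP {N : ℕ} (i : Fin N) : MvPolynomial (Fin N ⊕ Fin N) ℚ :=
  MvPolynomial.X (Sum.inl i) ^ 2 + MvPolynomial.X (Sum.inr i) ^ 2

/-- The polynomial under the outer root. -/
def OmP (N : ℕ) : MvPolynomial (Fin N ⊕ Fin N) ℚ :=
  ∏ i : Fin N, ((1 + rP i) * (1 + MvPolynomial.X (Sum.inl i) ^ 2))

/-- The product of all variables. -/
def psP (N : ℕ) : MvPolynomial (Fin N ⊕ Fin N) ℚ :=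
  ∏ i : Fin N, (MvPolynomial.X (Sum.inl i) * MvPolynomial.X (Sum.inr i))

/-- The weight. -/
def wP (N : ℕ) : MvPolynomial (Fin N ⊕ Fin N) ℚ := ∏ i : Fin N, (1 + rP i)

theorem rP_val {N : ℕ} (x y : Fin N → ℝ) (i : Fin N) :
    (MvPolynomial.aeval (Sum.elim x y) (rP i) : ℝ) = rr x y i := by
  unfold rP rr
  simp

theorem OmP_val {N : ℕ} (x y : Fin N → ℝ) :
    (MvPolynomial.aeval (Sum.elim x y) (OmP N) : ℝ) =
      ∏ i, ((1 + rr x y i) * (1 + x i ^ 2)) := by
  unfold OmP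
  simp [map_prod, rP_val]

theorem psP_val {N : ℕ} (x y : Fin N → ℝ) :
    (MvPolynomial.aeval (Sum.elim x y) (psP N) : ℝ) = ∏ i, (x i * y i) := by
  unfold psP
  simp [map_prod]

theorem wP_val {N : ℕ} (x y : Fin N → ℝ) :
    (MvPolynomial.aeval (Sum.elim x y) (wP N) : ℝ) = ∏ i, (1 + rr x y i) := by
  unfold wP
  simp [map_prod, rP_val]

theorem rr_nonneg {N : ℕ} (x y : Fin N → ℝ) (i : Fin N) : 0 ≤ rr x y i := by
  unfold rr
  positivity

theorem OmP_pos {N : ℕ} (x y : Fin N → ℝ) :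
    0 < (MvPolynomial.aeval (Sum.elim x y) (OmP N) : ℝ) := by
  rw [OmP_val]
  refine Finset.prod_pos fun i _ => ?_
  have := rr_nonneg x y i
  positivity

theorem one_le_w {N : ℕ} (x y : Fin N → ℝ) : 1 ≤ ∏ i, (1 + rr x y i) := by
  calc (1 : ℝ) = ∏ _i : Fin N, (1 : ℝ) := by simp
    _ ≤ ∏ i, (1 + rr x y i) := Finset.prod_le_prod (fun _ _ => zero_le_one)
      fun i _ => by linarith [rr_nonneg x y i]

/-- The pointwise identity. -/
theorem point {N : ℕ} (x y : Fin N → ℝ) (k e : ℕ) {c C0 ν Pn R H G1 G2 : ℝ}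
    (hc : 0 < c) (hC0 : 0 < C0) (hν : 0 < ν) (hHP : Pn ≠ 0 → 0 < H)
    (hG1 : G1 = (∏ i, rr x y i) ^ (2 * e) * (Pn ^ 2 * R))
    (hG2 : G2 = (∏ i, rr x y i) ^ (2 * e) * (Pn ^ 2 * H)) :
    (1 / (c * (∏ i, (1 + rr x y i)) ^ k) ^ 2 +
      (ν * c ^ 2 / (2 * C0) * ((∏ i, ((1 + rr x y i) * (1 + x i ^ 2))) *
        (∏ i, (x i * y i)) ^ 2 * G1)) / ((c * (∏ i, (1 + rr x y i)) ^ k) ^ 2 *
        Real.sqrt (ν ^ 2 * ((∏ i, ((1 + rr x y i) * (1 + x i ^ 2))) *
          (∏ i, (x i * y i)) ^ 2 * G2)))) /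
      Real.sqrt (∏ i, ((1 + rr x y i) * (1 + x i ^ 2))) =
    (1 / c ^ 2) * (∏ i, (1 / ((1 + rr x y i) ^ (2 * k) *
      Real.sqrt ((1 + rr x y i) * (1 + x i ^ 2))))) +
    (1 / C0) * ((∏ i, (|x i * y i| * (rr x y i) ^ e / (1 + rr x y i) ^ (2 * k))) *
      (|Pn| * R / (2 * Real.sqrt H))) := by
  obtain ⟨Om, hOm⟩ : ∃ Om : ℝ, Om = ∏ i, ((1 + rr x y i) * (1 + x i ^ 2)) := ⟨_, rfl⟩
  obtain ⟨W, hW⟩ : ∃ W : ℝ, W = ∏ i, (1 + rr x y i) := ⟨_, rfl⟩
  obtain ⟨ψ, hψ⟩ : ∃ ψ : ℝ, ψ = ∏ i, (x i * y i) := ⟨_, rfl⟩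
  obtain ⟨ρ, hρ⟩ : ∃ ρ : ℝ, ρ = ∏ i, rr x y i := ⟨_, rfl⟩
  have hOm0 : 0 < Om := by
    rw [hOm]
    refine Finset.prod_pos fun i _ => ?_
    have := rr_nonneg x y i
    positivity
  have hW0 : 0 < W := by
    rw [hW]
    exact lt_of_lt_of_le one_pos (one_le_w x y)
  have hρ0 : 0 ≤ ρ := by
    rw [hρ]
    exact Finset.prod_nonneg fun i _ => rr_nonneg x y i
  have e1 : ∏ i, (1 / ((1 + rr x y i) ^ (2 * k) * Real.sqrt ((1 + rr x y i) * (1 + x i ^ 2)))) =
      1 / (W ^ (2 * k) * Real.sqrt Om) := by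
    rw [Finset.prod_div_distrib, Finset.prod_mul_distrib, Finset.prod_const_one, hW, hOm,
      Finset.prod_pow, Real.sqrt_prod]
    intro i _
    have := rr_nonneg x y i
    positivity
  have e2 : ∏ i, (|x i * y i| * (rr x y i) ^ e / (1 + rr x y i) ^ (2 * k)) =
      |ψ| * ρ ^ e / W ^ (2 * k) := by
    rw [Finset.prod_div_distrib, Finset.prod_mul_distrib, hW, hψ, hρ, Finset.prod_pow,
      Finset.prod_pow, Finset.abs_prod]
  rw [e1, e2, ← hOm, ← hW, ← hψ]
  rw [← hρ] at hG1 hG2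
  have hsOm : 0 < Real.sqrt Om := Real.sqrt_pos.2 hOm0
  have hsOm2 : Real.sqrt Om * Real.sqrt Om = Om := Real.mul_self_sqrt hOm0.le
  have e3 : Real.sqrt (ν ^ 2 * (Om * ψ ^ 2 * G2)) =
      ν * (Real.sqrt Om * |ψ| * (ρ ^ e * |Pn| * Real.sqrt H)) := by
    have h1 : ν ^ 2 * (Om * ψ ^ 2 * G2) = (ν * |ψ| * ρ ^ e * |Pn|) ^ 2 * (Om * H) := by
      rw [hG2, pow_mul']
      simp only [mul_pow, sq_abs]
      ring
    rw [h1, Real.sqrt_mul (sq_nonneg _), Real.sqrt_sq (by positivity), Real.sqrt_mul hOm0.le]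
    ring
  rw [e3]
  have hpow : (c * W ^ k) ^ 2 = c ^ 2 * W ^ (2 * k) := by
    rw [mul_pow, ← pow_mul, mul_comm k 2]
  rw [hpow]
  have hWk : 0 < W ^ (2 * k) := by positivity
  rw [add_div]
  congr 1
  · field_simp
  · by_cases hz : ψ = 0 ∨ ρ ^ e = 0 ∨ Pn = 0
    · rcases hz with h | h | h
      · rw [h]; simp
      · rw [hG1, pow_mul', h]
        simp
      · rw [hG1, h]; simp
    · push Not at hz
      obtain ⟨h1, h2, h3⟩ := hz
      have hH0 : 0 < Real.sqrt H := Real.sqrt_pos.2 (hHP h3)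
      have h4 : 0 < |ψ| := abs_pos.2 h1
      have h5 : 0 < |Pn| := abs_pos.2 h3
      have h6 : 0 < ρ ^ e := lt_of_le_of_ne (by positivity) (Ne.symm h2)
      have h7 : G1 = ρ ^ e * ρ ^ e * (|Pn| * |Pn| * R) := by
        rw [hG1, pow_mul', ← abs_mul, abs_mul_self]
        ring
      have h8 : ψ ^ 2 = |ψ| * |ψ| := by rw [← abs_mul, abs_mul_self]; ring
      rw [h7, h8]
      nth_rewrite 1 [← hsOm2]
      field_simp

theorem HV_nonneg {m : ℕ} {h0 r0 : Polynomial ℚ} {h r : Fin m → Polynomial ℚ}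
    (H : Hills m h0 r0 h r) {s0 : ℝ} (hs : 0 < s0) {p : Fin m → ℝ} (hp : ∀ a, |p a| ≤ s0)
    {X : ℝ} (hX0 : 0 ≤ X) (hX1 : X ≤ 1) : 0 ≤ HV r0 r s0 p X := by
  have h1 := H.pos X (fun a => (p a / s0) ^ 2) hX0 hX1 (fun a => ⟨sq_nonneg _, by
    rw [div_pow, div_le_one (by positivity), ← sq_abs (p a)]
    exact pow_le_pow_left₀ (abs_nonneg _) (hp a) 2⟩)
  have h2 : HV r0 r s0 p X = s0 ^ 2 * (Polynomial.aeval X r0 +
      ∑ a, (p a / s0) ^ 2 * Polynomial.aeval X (r a)) := by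
    unfold HV
    rw [mul_add, Finset.mul_sum]
    congr 1
    refine Finset.sum_congr rfl fun a _ => ?_
    rw [div_pow]
    field_simp
  rw [h2]
  positivity

theorem HV_meas {m n : ℕ} (h0 : Polynomial ℚ) (h : Fin m → Polynomial ℚ) (s0 : ℝ)
    (P : Fin m → MvPolynomial (Fin n) ℚ) :
    Continuous fun s : Fin (n + 1) → ℝ =>
      HV h0 h s0 (fun a => MvPolynomial.aeval (fun i => s (Fin.succ i)) (P a)) (s 0) := by
  unfold HV
  have h1 : ∀ p : Polynomial ℚ, Continuous fun s : Fin (n + 1) → ℝ => Polynomial.aeval (s 0) p :=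
    fun p => p.continuous_aeval.comp (continuous_apply 0)
  have h2 : Continuous fun (s : Fin (n + 1) → ℝ) (i : Fin n) => s (Fin.succ i) :=
    continuous_pi fun i => continuous_apply _
  refine ((h1 h0).const_mul _).add (continuous_finsetSum _ fun a _ => ?_)
  exact (((HCell_cont (P a)).comp h2).pow 2).mul (h1 (h a))

/-- A combination of the homogenized pieces. -/
theorem comb_val {m n : ℕ} (e : ℕ) (h0 : Polynomial ℚ) (h : Fin m → Polynomial ℚ)
    (P : Fin m → MvPolynomial (Fin n) ℚ)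
    (G0 : MvPolynomial (Fin (n + 1) ⊕ Fin (n + 1)) ℚ)
    (G : Fin m → MvPolynomial (Fin (n + 1) ⊕ Fin (n + 1)) ℚ)
    (hG0 : ∀ x y : Fin (n + 1) → ℝ, (∀ i, rr x y i ≠ 0) →
      (MvPolynomial.aeval (Sum.elim x y) G0 : ℝ) = (∏ i, rr x y i) ^ (2 * e) *
        MvPolynomial.aeval (ss x y) (Polynomial.aeval (MvPolynomial.X 0) (PiP m) ^ 2 *
          Polynomial.aeval (MvPolynomial.X 0) h0 : MvPolynomial (Fin (n + 1)) ℚ))
    (hG : ∀ a, ∀ x y : Fin (n + 1) → ℝ, (∀ i, rr x y i ≠ 0) →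
      (MvPolynomial.aeval (Sum.elim x y) (G a) : ℝ) = (∏ i, rr x y i) ^ (2 * e) *
        MvPolynomial.aeval (ss x y) (Polynomial.aeval (MvPolynomial.X 0) (PiP m) ^ 2 *
          (MvPolynomial.rename Fin.succ (P a) ^ 2 *
          Polynomial.aeval (MvPolynomial.X 0) (h a)) : MvPolynomial (Fin (n + 1)) ℚ))
    (s0 : ℚ) (x y : Fin (n + 1) → ℝ) (hr : ∀ i, rr x y i ≠ 0) :
    (MvPolynomial.aeval (Sum.elim x y) (MvPolynomial.C (s0 ^ 2) * G0 + ∑ a, G a) : ℝ) =
      (∏ i, rr x y i) ^ (2 * e) * (Polynomial.aeval (ss x y 0) (PiP m) ^ 2 *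
        HV h0 h (s0 : ℝ) (fun a => MvPolynomial.aeval (fun i => ss x y (Fin.succ i)) (P a))
          (ss x y 0)) := by
  rw [map_add, map_mul, map_sum, hG0 x y hr, Finset.sum_congr rfl fun a _ => hG a x y hr]
  unfold HV
  simp only [map_add, map_mul, map_pow, map_sum, aeval_poly0, MvPolynomial.aeval_C,
    MvPolynomial.aeval_rename]
  simp only [eq_ratCast]
  push_cast
  rw [← Finset.mul_sum, ← Finset.mul_sum]
  have h1 : ∀ a : Fin m, (MvPolynomial.aeval (ss x y ∘ Fin.succ) (P a) : ℝ) =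
      MvPolynomial.aeval (fun i => ss x y (Fin.succ i)) (P a) := fun a => rfl
  simp only [h1]
  ring

/-- Choice of the small factor. -/
theorem small_nu {B1 B2 C0 c : ℚ} (h1 : 0 < B1) (h2 : 0 < B2) (h3 : 0 < C0) (h4 : 1 ≤ c) :
    ∃ ν : ℚ, 0 < ν ∧ ν * c * B1 ≤ C0 ∧ 16 * ν ^ 2 * B2 ≤ c ^ 2 := by
  have hc : 0 < c := lt_of_lt_of_le one_pos h4
  refine ⟨min 1 (min (C0 / (c * B1)) (1 / (16 * B2))), ?_, ?_, ?_⟩
  · positivity
  · have h5 : min 1 (min (C0 / (c * B1)) (1 / (16 * B2))) ≤ C0 / (c * B1) :=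
      (min_le_right _ _).trans (min_le_left _ _)
    rw [mul_assoc]
    exact (le_div_iff₀ (by positivity)).1 h5
  · have h5 : min 1 (min (C0 / (c * B1)) (1 / (16 * B2))) ≤ 1 / (16 * B2) :=
      (min_le_right _ _).trans (min_le_right _ _)
    have h6 : min 1 (min (C0 / (c * B1)) (1 / (16 * B2))) ≤ 1 := min_le_left _ _
    have h7 : 0 < min 1 (min (C0 / (c * B1)) (1 / (16 * B2))) := by positivity
    generalize min 1 (min (C0 / (c * B1)) (1 / (16 * B2))) = ν at h5 h6 h7 ⊢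
    have h8 : ν * (16 * B2) ≤ 1 := (le_div_iff₀ (by positivity)).1 h5
    nlinarith [mul_le_mul_of_nonneg_left h8 h7.le]

theorem ucube_vol (n : ℕ) : volume (ucube (Fin n)) = 1 := by
  rw [ucube, Real.volume_Icc_pi]
  simp

theorem int_le3 {n : ℕ} (P : MvPolynomial (Fin n) ℚ) {s : ℝ}
    (h : ∀ z ∈ ucube (Fin n), |(MvPolynomial.aeval z P : ℝ)| ≤ s) :
    ∫ z in ucube (Fin n), |(MvPolynomial.aeval z P : ℝ)| ≤ s := by
  have h1 : ∫ z in ucube (Fin n), |(MvPolynomial.aeval z P : ℝ)| ≤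
      ∫ z in ucube (Fin n), s := by
    refine setIntegral_mono_on (abs_int P) ?_ (ucube_meas _) h
    exact (continuous_const.continuousOn).integrableOn_compact (ucube_compact (Fin n))
  refine h1.trans ?_
  rw [setIntegral_const, Measure.real, ucube_vol]
  simp

theorem avm_eqe {x : ℝ} (hx : 0 < x) (h : AVm x) : EQe x := by
  classical
  obtain ⟨n, m, r, s, P, hm, hs, hP, hms, hxr⟩ := h (x / 8) (by positivity)
  obtain ⟨h0, r0, hh, rr', HH⟩ := hills_ex m hm
  have hmR : (1 : ℝ) ≤ m := by exact_mod_cast hm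
  have hsR : (0 : ℝ) < s := by exact_mod_cast hs
  obtain ⟨I, hI⟩ : ∃ I : ℝ, I = ∑ a, ∫ z in ucube (Fin n), |(MvPolynomial.aeval z (P a) : ℝ)| :=
    ⟨_, rfl⟩
  have hI0 : 0 ≤ I := by
    rw [hI]
    exact Finset.sum_nonneg fun a _ => integral_nonneg fun z => abs_nonneg _
  have hI1 : I ≤ m * s := by
    rw [hI]
    calc _ ≤ ∑ _a : Fin m, (s : ℝ) := Finset.sum_le_sum fun a _ => int_le3 (P a) (hP a)
      _ = m * s := by simp
  rw [← hI] at hxr
  have hrx : x ≤ r := by linarith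
  have hr0 : (0 : ℝ) < r := by linarith
  have hr0q : 0 < r := by exact_mod_cast hr0
  -- the doubled polynomials
  obtain ⟨P2, hP2⟩ : ∃ P2 : Fin m → MvPolynomial (Fin n) ℚ, P2 = fun a => MvPolynomial.C 2 * P a :=
    ⟨_, rfl⟩
  have hP2v : ∀ a z, (MvPolynomial.aeval z (P2 a) : ℝ) = 2 * MvPolynomial.aeval z (P a) := by
    intro a z
    rw [hP2]
    simp
  -- homogenized pieces
  let Fb : Bool → Option (Fin m) → MvPolynomial (Fin (n + 1)) ℚ := fun b o =>
    match o with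
    | none => Polynomial.aeval (MvPolynomial.X 0) (PiP m) ^ 2 *
        Polynomial.aeval (MvPolynomial.X 0) (if b then r0 else h0)
    | some a => Polynomial.aeval (MvPolynomial.X 0) (PiP m) ^ 2 *
        (MvPolynomial.rename Fin.succ (P2 a) ^ 2 *
          Polynomial.aeval (MvPolynomial.X 0) (if b then rr' a else hh a))
  choose d0 hd0 using fun (b : Bool) (o : Option (Fin m)) => hom_ex (Fb b o)
  obtain ⟨e, he⟩ : ∃ e : ℕ, e = ∑ b, ∑ o, d0 b o := ⟨_, rfl⟩
  have hde : ∀ b o, 2 * e ≥ d0 b o := by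
    intro b o
    have h1 : d0 b o ≤ ∑ o, d0 b o := Finset.single_le_sum (f := fun o => d0 b o)
      (fun _ _ => Nat.zero_le _) (Finset.mem_univ o)
    have h2 : ∑ o, d0 b o ≤ ∑ b, ∑ o, d0 b o := Finset.single_le_sum
      (f := fun b => ∑ o, d0 b o) (fun _ _ => Nat.zero_le _) (Finset.mem_univ b)
    omega
  choose G hG using fun (b : Bool) (o : Option (Fin m)) => hd0 b o (2 * e) (hde b o)
  -- growth
  choose k0 Cb hCb0 hCb using fun (b : Bool) (o : Option (Fin m)) =>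
    grow (OmP (n + 1) * psP (n + 1) ^ 2 * G b o)
  obtain ⟨k, hk⟩ : ∃ k : ℕ, k = (∑ b, ∑ o, k0 b o) + e + 3 := ⟨_, rfl⟩
  have hkk : ∀ b o, k ≥ k0 b o := by
    intro b o
    have h1 : k0 b o ≤ ∑ o, k0 b o := Finset.single_le_sum (f := fun o => k0 b o)
      (fun _ _ => Nat.zero_le _) (Finset.mem_univ o)
    have h2 : ∑ o, k0 b o ≤ ∑ b, ∑ o, k0 b o := Finset.single_le_sum
      (f := fun b => ∑ o, k0 b o) (fun _ _ => Nat.zero_le _) (Finset.mem_univ b)
    omega
  obtain ⟨C0, hC0, hC0i⟩ := pair_all (n + 1) e (2 * k) (by omega)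
  obtain ⟨M, hM, hMi⟩ := base_all (n + 1) k (by omega)
  obtain ⟨c, hc⟩ : ∃ c : ℚ, c = 1 + 4 * M / r := ⟨_, rfl⟩
  have hc1 : 1 ≤ c := by
    rw [hc]
    have : 0 < 4 * M / r := by positivity
    linarith
  have hc0 : 0 < c := lt_of_lt_of_le one_pos hc1
  have hMc : M / c ^ 2 ≤ r / 4 := by
    have h1 : 4 * M / r ≤ c := by rw [hc]; linarith
    rw [div_le_iff₀ hr0q] at h1
    rw [div_le_div_iff₀ (by positivity) (by norm_num)]
    nlinarith
  obtain ⟨s0, hs0⟩ : ∃ s0 : ℚ, s0 = (r - M / c ^ 2) / (2 * m - 1) := ⟨_, rfl⟩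
  have hmq : (1 : ℚ) ≤ m := by exact_mod_cast hm
  have h2m : (0 : ℚ) < 2 * m - 1 := by linarith
  have hs0pos : 0 < s0 := by
    rw [hs0]
    refine div_pos ?_ h2m
    linarith
  have hs0eq : ((2 * m - 1) * s0 : ℚ) = r - M / c ^ 2 := by
    rw [hs0]
    field_simp
  have hs0R : (0 : ℝ) < s0 := by exact_mod_cast hs0pos
  have hss0 : (2 : ℝ) * s ≤ s0 := by
    have h1 : (((2 * m - 1) * s0 : ℚ) : ℝ) = ((r - M / c ^ 2 : ℚ) : ℝ) := by rw [hs0eq]
    have h2 : ((M / c ^ 2 : ℚ) : ℝ) ≤ ((r / 4 : ℚ) : ℝ) := by exact_mod_cast hMc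
    push_cast at h1 h2
    have h3 : (0 : ℝ) < 2 * m - 1 := by linarith
    have h4 : (2 * (m : ℝ) - 1) * (2 * s) ≤ (2 * m - 1) * s0 := by
      rw [h1]
      nlinarith
    exact le_of_mul_le_mul_left h4 h3
  have hP2b : ∀ a, ∀ z ∈ ucube (Fin n), |(MvPolynomial.aeval z (P2 a) : ℝ)| ≤ s0 := by
    intro a z hz
    rw [hP2v, abs_mul, abs_two]
    have := hP a z hz
    linarith
  -- the numerator and the polynomial under the root
  obtain ⟨B1, hB1⟩ : ∃ B1 : ℚ, B1 = s0 ^ 2 * Cb true none + ∑ a, Cb true (some a) := ⟨_, rfl⟩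
  obtain ⟨B2, hB2⟩ : ∃ B2 : ℚ, B2 = s0 ^ 2 * Cb false none + ∑ a, Cb false (some a) := ⟨_, rfl⟩
  have hBpos : ∀ b, 0 < s0 ^ 2 * Cb b none + ∑ a, Cb b (some a) := by
    intro b
    have h1 := hCb0 b none
    have h2 : 0 ≤ ∑ a, Cb b (some a) := Finset.sum_nonneg fun a _ => (hCb0 b (some a)).le
    positivity
  obtain ⟨ν, hν, hν1, hν2⟩ := small_nu (B1 := B1) (B2 := B2) (by rw [hB1]; exact hBpos true)
    (by rw [hB2]; exact hBpos false) hC0 hc1
  obtain ⟨GG, hGG⟩ : ∃ GG : Bool → MvPolynomial (Fin (n + 1) ⊕ Fin (n + 1)) ℚ,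
      GG = fun b => MvPolynomial.C (s0 ^ 2) * G b none + ∑ a, G b (some a) := ⟨_, rfl⟩
  have hGG1 : ∀ x y : Fin (n + 1) → ℝ, (∀ i, rr x y i ≠ 0) →
      (MvPolynomial.aeval (Sum.elim x y) (GG true) : ℝ) =
      (∏ i, rr x y i) ^ (2 * e) * (Polynomial.aeval (ss x y 0) (PiP m) ^ 2 *
        HV r0 rr' (s0 : ℝ) (fun a => MvPolynomial.aeval (fun i => ss x y (Fin.succ i)) (P2 a))
          (ss x y 0)) := by
    intro x y hxy
    rw [hGG]
    exact comb_val e r0 rr' P2 (G true none) (fun a => G true (some a))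
      (fun x y h => hG true none x y h) (fun a x y h => hG true (some a) x y h) s0 x y hxy
  have hGG2 : ∀ x y : Fin (n + 1) → ℝ, (∀ i, rr x y i ≠ 0) →
      (MvPolynomial.aeval (Sum.elim x y) (GG false) : ℝ) =
      (∏ i, rr x y i) ^ (2 * e) * (Polynomial.aeval (ss x y 0) (PiP m) ^ 2 *
        HV h0 hh (s0 : ℝ) (fun a => MvPolynomial.aeval (fun i => ss x y (Fin.succ i)) (P2 a))
          (ss x y 0)) := by
    intro x y hxy
    rw [hGG]
    exact comb_val e h0 hh P2 (G false none) (fun a => G false (some a))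
      (fun x y h => hG false none x y h) (fun a x y h => hG false (some a) x y h) s0 x y hxy
  have hss : ∀ x y : Fin (n + 1) → ℝ, (0 ≤ ss x y 0 ∧ ss x y 0 ≤ 1) ∧
      ∀ a, |(MvPolynomial.aeval (fun i => ss x y (Fin.succ i)) (P2 a) : ℝ)| ≤ s0 := by
    intro x y
    have h1 := ss_mem x y
    rw [ucube, Set.mem_Icc, Pi.le_def, Pi.le_def] at h1
    refine ⟨⟨h1.1 0, h1.2 0⟩, fun a => hP2b a _ ?_⟩
    rw [ucube, Set.mem_Icc, Pi.le_def, Pi.le_def]
    exact ⟨fun i => h1.1 _, fun i => h1.2 _⟩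
  have hGGn : ∀ b (x y : Fin (n + 1) → ℝ),
      0 ≤ (MvPolynomial.aeval (Sum.elim x y) (GG b) : ℝ) := by
    intro b
    refine nonneg_dense (GG b) fun x y hxy => ?_
    have hρ : 0 ≤ ∏ i, rr x y i := Finset.prod_nonneg fun i _ => rr_nonneg x y i
    obtain ⟨⟨h1, h2⟩, h3⟩ := hss x y
    cases b with
    | true =>
      rw [hGG1 x y hxy]
      have := HV_nonneg HH hs0R h3 h1 h2
      positivity
    | false =>
      rw [hGG2 x y hxy]
      have := (hv_pos hm HH s0 hs0R _ h3 _ h1 h2).1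
      positivity
  have hOmps : ∀ x y : Fin (n + 1) → ℝ,
      0 ≤ (MvPolynomial.aeval (Sum.elim x y) (OmP (n + 1) * psP (n + 1) ^ 2) : ℝ) := by
    intro x y
    have := OmP_pos x y
    rw [map_mul, map_pow]
    positivity
  have hbound : ∀ b (x y : Fin (n + 1) → ℝ),
      (MvPolynomial.aeval (Sum.elim x y) (OmP (n + 1) * psP (n + 1) ^ 2 * GG b) : ℝ) ≤
        ((s0 ^ 2 * Cb b none + ∑ a, Cb b (some a) : ℚ) : ℝ) * (∏ i, (1 + rr x y i)) ^ k := by
    intro b x y
    have h1 : (MvPolynomial.aeval (Sum.elim x y) (OmP (n + 1) * psP (n + 1) ^ 2 * GG b) : ℝ) =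
        (s0 : ℝ) ^ 2 * MvPolynomial.aeval (Sum.elim x y) (OmP (n + 1) * psP (n + 1) ^ 2 * G b none) +
          ∑ a, MvPolynomial.aeval (Sum.elim x y)
            (OmP (n + 1) * psP (n + 1) ^ 2 * G b (some a)) := by
      rw [hGG]
      simp only [map_add, map_mul, map_sum, MvPolynomial.aeval_C, eq_ratCast, mul_add,
        Finset.mul_sum]
      push_cast
      ring
    rw [h1]
    push_cast
    rw [add_mul, Finset.sum_mul, mul_assoc ((s0 : ℝ) ^ 2) ((Cb b none : ℚ) : ℝ)]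
    refine add_le_add ?_ (Finset.sum_le_sum fun a _ => ?_)
    · exact mul_le_mul_of_nonneg_left ((le_abs_self _).trans (hCb b none k (hkk b none) x y))
        (sq_nonneg (s0 : ℝ))
    · exact (le_abs_self _).trans (hCb b (some a) k (hkk b (some a)) x y)
  obtain ⟨aP, haP⟩ : ∃ aP : MvPolynomial (Fin (n + 1) ⊕ Fin (n + 1)) ℚ,
      aP = MvPolynomial.C c * wP (n + 1) ^ k := ⟨_, rfl⟩
  obtain ⟨JP, hJP⟩ : ∃ JP : MvPolynomial (Fin (n + 1) ⊕ Fin (n + 1)) ℚ,
      JP = MvPolynomial.C (ν * c ^ 2 / (2 * C0)) * (OmP (n + 1) * psP (n + 1) ^ 2 * GG true) :=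
    ⟨_, rfl⟩
  obtain ⟨DP, hDP⟩ : ∃ DP : MvPolynomial (Fin (n + 1) ⊕ Fin (n + 1)) ℚ,
      DP = MvPolynomial.C (ν ^ 2) * (OmP (n + 1) * psP (n + 1) ^ 2 * GG false) := ⟨_, rfl⟩
  have hcR : (1 : ℝ) ≤ c := by exact_mod_cast hc1
  have hcR0 : (0 : ℝ) < c := by exact_mod_cast hc0
  have hνR : (0 : ℝ) < ν := by exact_mod_cast hν
  have hC0R : (0 : ℝ) < C0 := by exact_mod_cast hC0
  have haV : ∀ x y : Fin (n + 1) → ℝ, (MvPolynomial.aeval (Sum.elim x y) aP : ℝ) =
      c * (∏ i, (1 + rr x y i)) ^ k := by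
    intro x y
    rw [haP, map_mul, map_pow, wP_val, MvPolynomial.aeval_C]
    rfl
  have hJV : ∀ x y : Fin (n + 1) → ℝ, (MvPolynomial.aeval (Sum.elim x y) JP : ℝ) =
      ν * c ^ 2 / (2 * C0) *
        MvPolynomial.aeval (Sum.elim x y) (OmP (n + 1) * psP (n + 1) ^ 2 * GG true) := by
    intro x y
    rw [hJP, map_mul (MvPolynomial.aeval (Sum.elim x y)) (MvPolynomial.C _), MvPolynomial.aeval_C]
    simp only [eq_ratCast]
    push_cast
    rfl
  have hDV : ∀ x y : Fin (n + 1) → ℝ, (MvPolynomial.aeval (Sum.elim x y) DP : ℝ) =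
      ν ^ 2 * MvPolynomial.aeval (Sum.elim x y) (OmP (n + 1) * psP (n + 1) ^ 2 * GG false) := by
    intro x y
    rw [hDP, map_mul (MvPolynomial.aeval (Sum.elim x y)) (MvPolynomial.C _), MvPolynomial.aeval_C]
    simp only [eq_ratCast]
    push_cast
    rfl
  have hNn : ∀ b (x y : Fin (n + 1) → ℝ),
      0 ≤ (MvPolynomial.aeval (Sum.elim x y) (OmP (n + 1) * psP (n + 1) ^ 2 * GG b) : ℝ) := by
    intro b x y
    rw [map_mul]
    exact mul_nonneg (hOmps x y) (hGGn b x y)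
  refine eqe_of aP JP DP (OmP (n + 1)) ?_ ?_ hx.le ?_
  · intro z
    obtain ⟨x, hx'⟩ : ∃ x : Fin (n + 1) → ℝ, x = fun i => z (Sum.inl i) := ⟨_, rfl⟩
    obtain ⟨y, hy'⟩ : ∃ y : Fin (n + 1) → ℝ, y = fun i => z (Sum.inr i) := ⟨_, rfl⟩
    have hz : z = Sum.elim x y := by
      funext i
      cases i with
      | inl i => rw [hx']; rfl
      | inr i => rw [hy']; rfl
    rw [hz]
    have hW1 := one_le_w x y
    have hWk : 1 ≤ (∏ i, (1 + rr x y i)) ^ k := one_le_pow₀ hW1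
    obtain ⟨W, hW⟩ : ∃ W : ℝ, W = (∏ i, (1 + rr x y i)) ^ k := ⟨_, rfl⟩
    have hb1 := hbound true x y
    have hb2 := hbound false x y
    rw [← hB1] at hb1
    rw [← hB2] at hb2
    have hn1 := hNn true x y
    have hn2 := hNn false x y
    rw [haV, hJV, hDV]
    rw [← hW] at hWk hb1 hb2 ⊢
    have hν1R : (ν : ℝ) * c * B1 ≤ C0 := by exact_mod_cast hν1
    have hν2R : 16 * (ν : ℝ) ^ 2 * B2 ≤ c ^ 2 := by exact_mod_cast hν2
    obtain ⟨A1, hA1⟩ : ∃ A1 : ℝ, A1 =
      MvPolynomial.aeval (Sum.elim x y) (OmP (n + 1) * psP (n + 1) ^ 2 * GG true) := ⟨_, rfl⟩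
    obtain ⟨A2, hA2⟩ : ∃ A2 : ℝ, A2 =
      MvPolynomial.aeval (Sum.elim x y) (OmP (n + 1) * psP (n + 1) ^ 2 * GG false) := ⟨_, rfl⟩
    rw [← hA1] at hb1 hn1 ⊢
    rw [← hA2] at hb2 hn2 ⊢
    refine ⟨by positivity, by positivity, ?_, by positivity, ?_, ?_, OmP_pos x y⟩
    · have h1 : 2 * (ν * c ^ 2 / (2 * C0) * A1) = ν * c ^ 2 * A1 / C0 := by
        field_simp
      rw [h1, div_le_iff₀ hC0R]
      calc (ν : ℝ) * c ^ 2 * A1 ≤ ν * c ^ 2 * (B1 * W) :=
            mul_le_mul_of_nonneg_left hb1 (by positivity)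
        _ = c * W * (ν * c * B1) := by ring
        _ ≤ c * W * C0 := mul_le_mul_of_nonneg_left hν1R (by positivity)
    · calc 16 * ((ν : ℝ) ^ 2 * A2) ≤ 16 * (ν ^ 2 * (B2 * W)) := by
            refine mul_le_mul_of_nonneg_left (mul_le_mul_of_nonneg_left hb2 (by positivity))
              (by norm_num)
        _ = W * (16 * ν ^ 2 * B2) := by ring
        _ ≤ W * c ^ 2 := mul_le_mul_of_nonneg_left hν2R (by positivity)
        _ ≤ W * W * c ^ 2 := by
            refine mul_le_mul_of_nonneg_right ?_ (by positivity)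
            nlinarith
        _ = (c * W) ^ 2 := by ring
    · intro hD
      have h1 : A2 = 0 := by
        rcases mul_eq_zero.1 hD with h | h
        · exact absurd h (by positivity)
        · exact h
      rw [hA2, map_mul, mul_eq_zero] at h1
      have h2 : A1 = 0 := by
        rw [hA1, map_mul, mul_eq_zero]
        rcases h1 with h1 | h1
        · exact Or.inl h1
        · by_cases hr : ∀ i, rr x y i ≠ 0
          · right
            obtain ⟨⟨k1, k2⟩, k3⟩ := hss x y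
            rw [hGG2 x y hr] at h1
            rw [hGG1 x y hr]
            have hρ : 0 < ∏ i, rr x y i := Finset.prod_pos fun i _ =>
              lt_of_le_of_ne (rr_nonneg x y i) (Ne.symm (hr i))
            have h3 : (Polynomial.aeval (ss x y 0) (PiP m) : ℝ) = 0 := by
              by_contra h4
              have h5 := (hv_pos hm HH s0 hs0R _ k3 _ k1 k2).2 h4
              have h6 : (Polynomial.aeval (ss x y 0) (PiP m) : ℝ) ^ 2 ≠ 0 := pow_ne_zero _ h4
              have h7 : 0 < (Polynomial.aeval (ss x y 0) (PiP m) : ℝ) ^ 2 := by positivity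
              have h8 : 0 < (∏ i, rr x y i) ^ (2 * e) := by positivity
              have h9 := mul_pos h8 (mul_pos h7 h5)
              exact absurd h1 h9.ne'
            rw [h3]
            ring
          · left
            push Not at hr
            obtain ⟨i, hi⟩ := hr
            have h3 : x i * y i = 0 := by
              unfold rr at hi
              have h4 : x i ^ 2 = 0 := by nlinarith [sq_nonneg (x i), sq_nonneg (y i)]
              have h5 : x i = 0 := pow_eq_zero_iff (two_ne_zero) |>.1 h4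
              rw [h5, zero_mul]
            rw [map_mul, map_pow, psP_val, Finset.prod_eq_zero (Finset.mem_univ i) h3]
            ring
      rw [h2, mul_zero]
  · -- `DP` is not zero
    intro hD
    obtain ⟨x, hx'⟩ : ∃ x : Fin (n + 1) → ℝ, x = fun _ => 1 := ⟨_, rfl⟩
    obtain ⟨y, hy'⟩ : ∃ y : Fin (n + 1) → ℝ, y = fun _ => Real.sqrt (4 * m - 1) := ⟨_, rfl⟩
    have h4m : (0 : ℝ) < 4 * m - 1 := by linarith
    have hrr : ∀ i, rr x y i = 4 * m := by
      intro i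
      unfold rr
      rw [hx', hy']
      simp only [one_pow]
      rw [Real.sq_sqrt h4m.le]
      ring
    have hr : ∀ i, rr x y i ≠ 0 := fun i => by
      rw [hrr]
      positivity
    have hs4 : ss x y 0 = 1 / (4 * m) := by
      unfold ss
      rw [hrr, hx']
      simp
    have hPi : (Polynomial.aeval (ss x y 0) (PiP m) : ℝ) ≠ 0 := by
      rw [hs4]
      unfold PiP
      rw [map_prod, Finset.prod_ne_zero_iff]
      intro j _
      simp only [map_sub, Polynomial.aeval_X, Polynomial.aeval_C]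
      unfold nd
      simp only [eq_ratCast]
      push_cast
      intro h1
      have hm0 : (m : ℝ) ≠ 0 := by positivity
      field_simp at h1
      have h2 : (1 : ℝ) = 2 * j := by linarith
      have h3 : (1 : ℕ) = 2 * j := by exact_mod_cast h2
      omega
    obtain ⟨⟨k1, k2⟩, k3⟩ := hss x y
    have h5 := (hv_pos hm HH s0 hs0R _ k3 _ k1 k2).2 hPi
    have h6 : (MvPolynomial.aeval (Sum.elim x y) DP : ℝ) = 0 := by rw [hD, map_zero]
    rw [hDV, map_mul, hGG2 x y hr, map_mul, map_pow, psP_val] at h6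
    have h7 : 0 < (Polynomial.aeval (ss x y 0) (PiP m) : ℝ) ^ 2 := by positivity
    have h8 : 0 < (∏ i, rr x y i) ^ (2 * e) := by
      refine pow_pos (Finset.prod_pos fun i _ => ?_) _
      exact lt_of_le_of_ne (rr_nonneg x y i) (Ne.symm (hr i))
    have h9 := OmP_pos x y
    have h10 : ∏ i, (x i * y i) ≠ 0 := by
      rw [Finset.prod_ne_zero_iff]
      intro i _
      rw [hx', hy']
      have := Real.sqrt_pos.2 h4m
      positivity
    have h11 : 0 < (∏ i, (x i * y i)) ^ 2 := by positivity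
    have h12 := mul_pos (pow_pos hνR 2) (mul_pos (mul_pos h9 h11) (mul_pos h8 (mul_pos h7 h5)))
    exact absurd h6 h12.ne'
  · -- the integral
    have hfm : Measurable fun s : Fin (n + 1) → ℝ =>
        ENNReal.ofReal (|Polynomial.aeval (s 0) (PiP m)| *
          HV r0 rr' s0 (fun a => MvPolynomial.aeval (fun i => s (Fin.succ i)) (P2 a)) (s 0) /
          (2 * Real.sqrt (HV h0 hh s0
            (fun a => MvPolynomial.aeval (fun i => s (Fin.succ i)) (P2 a)) (s 0)))) := by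
      refine Measurable.ennreal_ofReal ?_
      have h1 := (HV_meas (n := n) r0 rr' (s0 : ℝ) P2).measurable
      have h2 := (HV_meas (n := n) h0 hh (s0 : ℝ) P2).measurable
      have h3 : Measurable fun s : Fin (n + 1) → ℝ => |Polynomial.aeval (s 0) (PiP m)| :=
        (((PiP m).continuous_aeval.comp (continuous_apply 0)).abs).measurable
      exact (h3.mul h1).div ((h2.sqrt).const_mul 2)
    have hvi := var_int (n := n) hm HH (s0 : ℝ) hs0R P2 hP2b
    have hpa := hC0i _ hfm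
    rw [hvi] at hpa
    have hsum : ∑ a, ∫ z in ucube (Fin n), |(MvPolynomial.aeval z (P2 a) : ℝ)| = 2 * I := by
      rw [hI, Finset.mul_sum]
      refine Finset.sum_congr rfl fun a _ => ?_
      simp only [hP2v, abs_mul, abs_two]
      rw [integral_const_mul]
    rw [hsum] at hpa
    have hval : (2 * (m : ℝ) - 1) * s0 - 1 / 2 * (2 * I) = x - M / c ^ 2 := by
      have h1 : (((2 * m - 1) * s0 : ℚ) : ℝ) = ((r - M / c ^ 2 : ℚ) : ℝ) := by rw [hs0eq]
      push_cast at h1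
      rw [h1, hxr]
      ring
    rw [hval] at hpa
    have hMR : (0 : ℝ) < M := by exact_mod_cast hM
    have hMcx : (M : ℝ) / c ^ 2 ≤ x := by
      have h2 : ((M / c ^ 2 : ℚ) : ℝ) ≤ ((r / 4 : ℚ) : ℝ) := by exact_mod_cast hMc
      push_cast at h2
      have h3 : (r : ℝ) ≤ x + x / 8 := by linarith
      linarith
    -- pointwise
    have hae : ∀ᵐ q : (Fin (n + 1) → ℝ) × (Fin (n + 1) → ℝ), ∀ i, rr q.1 q.2 i ≠ 0 := by
      rw [ae_all_iff]
      intro i
      have h1 : ∀ᵐ u : Fin (n + 1) → ℝ, u i ≠ 0 := by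
        rw [ae_iff]
        simp only [not_not]
        exact Measure.pi_hyperplane (fun _ : Fin (n + 1) => (volume : Measure ℝ)) i 0
      have h2 : ∀ᵐ q : (Fin (n + 1) → ℝ) × (Fin (n + 1) → ℝ)
          ∂((volume : Measure (Fin (n + 1) → ℝ)).prod (volume : Measure (Fin (n + 1) → ℝ))),
          q.1 i ≠ 0 := Measure.quasiMeasurePreserving_fst.ae h1
      filter_upwards [h2] with q hq
      unfold rr
      positivity
    have hpt : ∀ q : (Fin (n + 1) → ℝ) × (Fin (n + 1) → ℝ), (∀ i, rr q.1 q.2 i ≠ 0) →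
        ENNReal.ofReal
          ((1 / (MvPolynomial.aeval (Sum.elim q.1 q.2) aP : ℝ) ^ 2 +
            (MvPolynomial.aeval (Sum.elim q.1 q.2) JP : ℝ) /
              ((MvPolynomial.aeval (Sum.elim q.1 q.2) aP : ℝ) ^ 2 *
                Real.sqrt (MvPolynomial.aeval (Sum.elim q.1 q.2) DP))) /
                  Real.sqrt (MvPolynomial.aeval (Sum.elim q.1 q.2) (OmP (n + 1)))) =
        ENNReal.ofReal (1 / (c : ℝ) ^ 2) * ENNReal.ofReal (∏ i, (1 / ((1 + rr q.1 q.2 i) ^ (2 * k) *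
          Real.sqrt ((1 + rr q.1 q.2 i) * (1 + q.1 i ^ 2))))) +
        ENNReal.ofReal (1 / (C0 : ℝ)) * (ENNReal.ofReal (∏ i, (|q.1 i * q.2 i| *
          (rr q.1 q.2 i) ^ e / (1 + rr q.1 q.2 i) ^ (2 * k))) *
          ENNReal.ofReal (|Polynomial.aeval (ss q.1 q.2 0) (PiP m)| *
          HV r0 rr' s0 (fun a => MvPolynomial.aeval (fun i => ss q.1 q.2 (Fin.succ i)) (P2 a))
            (ss q.1 q.2 0) /
          (2 * Real.sqrt (HV h0 hh s0
            (fun a => MvPolynomial.aeval (fun i => ss q.1 q.2 (Fin.succ i)) (P2 a))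
              (ss q.1 q.2 0))))) := by
      intro q hq
      obtain ⟨⟨k1, k2⟩, k3⟩ := hss q.1 q.2
      have hR := HV_nonneg HH hs0R k3 k1 k2
      have hp := point q.1 q.2 k e (c := (c : ℝ)) (C0 := (C0 : ℝ)) (ν := (ν : ℝ)) hcR0 hC0R hνR
        (fun h => (hv_pos hm HH s0 hs0R _ k3 _ k1 k2).2 h) (hGG1 q.1 q.2 hq) (hGG2 q.1 q.2 hq)
      rw [haV, hJV, hDV]
      simp only [map_mul, map_pow, psP_val, OmP_val]
      rw [hp]
      rw [ENNReal.ofReal_add, ENNReal.ofReal_mul, ENNReal.ofReal_mul, ENNReal.ofReal_mul]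
      · refine Finset.prod_nonneg fun i _ => ?_
        have := rr_nonneg q.1 q.2 i
        positivity
      · positivity
      · positivity
      · refine mul_nonneg (by positivity) (Finset.prod_nonneg fun i _ => ?_)
        have := rr_nonneg q.1 q.2 i
        positivity
      · refine mul_nonneg (by positivity) (mul_nonneg (Finset.prod_nonneg fun i _ => ?_) ?_)
        · have := rr_nonneg q.1 q.2 i
          positivity
        · positivity
    have hrm : ∀ i : Fin (n + 1), Measurable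
        fun q : (Fin (n + 1) → ℝ) × (Fin (n + 1) → ℝ) => rr q.1 q.2 i := by
      intro i
      unfold rr
      fun_prop
    have hsm : Measurable fun q : (Fin (n + 1) → ℝ) × (Fin (n + 1) → ℝ) => ss q.1 q.2 := by
      rw [measurable_pi_iff]
      intro i
      unfold ss
      exact (((measurable_pi_apply i).comp measurable_fst).pow_const 2).div (hrm i)
    have hwm : Measurable fun q : (Fin (n + 1) → ℝ) × (Fin (n + 1) → ℝ) =>
        ENNReal.ofReal (∏ i, (|q.1 i * q.2 i| * (rr q.1 q.2 i) ^ e /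
          (1 + rr q.1 q.2 i) ^ (2 * k))) := by
      refine Measurable.ennreal_ofReal (Finset.measurable_prod _ fun i _ => ?_)
      have h1 : Measurable fun q : (Fin (n + 1) → ℝ) × (Fin (n + 1) → ℝ) => |q.1 i * q.2 i| := by
        fun_prop
      exact (h1.mul ((hrm i).pow_const e)).div (((hrm i).const_add 1).pow_const (2 * k))
    have hbm : Measurable fun q : (Fin (n + 1) → ℝ) × (Fin (n + 1) → ℝ) =>
        ENNReal.ofReal (∏ i, (1 / ((1 + rr q.1 q.2 i) ^ (2 * k) *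
          Real.sqrt ((1 + rr q.1 q.2 i) * (1 + q.1 i ^ 2))))) := by
      refine Measurable.ennreal_ofReal (Finset.measurable_prod _ fun i _ => ?_)
      have h1 : Measurable fun q : (Fin (n + 1) → ℝ) × (Fin (n + 1) → ℝ) => 1 + q.1 i ^ 2 := by
        fun_prop
      exact measurable_const.div ((((hrm i).const_add 1).pow_const (2 * k)).mul
        ((((hrm i).const_add 1).mul h1).sqrt))
    rw [lintegral_congr_ae (hae.mono fun q hq => hpt q hq)]
    rw [lintegral_add_left, lintegral_const_mul, lintegral_const_mul, hMi, hpa]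
    · rw [← ENNReal.ofReal_mul (by positivity), ← ENNReal.ofReal_mul (by positivity),
        ← ENNReal.ofReal_mul (by positivity), ← ENNReal.ofReal_add]
      · congr 1
        field_simp
        ring
      · positivity
      · have : 0 ≤ x - M / c ^ 2 := by linarith
        positivity
    · exact hwm.mul (hfm.comp hsm)
    · exact hbm
    · exact hbm.const_mul _

end Pool.Agent.E1
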