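import Pool.Agent.W_2cf66e_E1.LeH0
import Pool.Agent.W_2cf66e_E1.LeA4
import Pool.Agent.W_2cf66e_E1.LeA7
import Pool.Agent.W_2cf66e_E1.LeF2

/-!
# MP_2cf66e_nt, theorem E1 (helper3): a positive number `x` is a period if and only if `π x` is
the integral over some `ℝ^m` of `1 / Q`, `Q` a polynomial with integer coefficients, positive
everywhere
-/

set_option autoImplicit false

noncomputable section

open MeasureTheory

namespace Pool.Agent.E1

open Pool.Agent.CVol

theorem e1_main {x : ℝ} (hx : 0 < x) : IsPeriod x ↔ OneP x :=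
  ⟨fun h => onep_of_eqi (eqi_of_eqe (avm_eqe hx (avm_of (period_av3 h)))), onep_back⟩

theorem e1_det {x : ℝ} (hx : 0 < x) :
    IsPeriod x ↔ ∃ n : ℕ, NF59.DetInt (n + 1) (Real.pi * x) :=
  ⟨fun h => det_of_onep ((e1_main hx).1 h), fun ⟨_, h⟩ => onep_back (onep_of_det h)⟩

end Pool.Agent.E1
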