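import Pool.Agent.W_2cf66e_h3.Per
import Pool.Agent.W_2cf66e_h3.Sub

/-!
# MP_2cf66e_nt, theorem E1 (`π x` is the integral of `1 / Q`): definitions (helper3)
-/

set_option autoImplicit false

noncomputable section

open MeasureTheory

namespace Pool.Agent.E1

open Pool.Agent.CVol

/-- `x` is a rational combination of integrals of cubes of absolute values. -/
def AV3 (x : ℝ) : Prop :=
  ∃ (N k : ℕ) (c : Fin k → ℚ) (Q : Fin k → MvPolynomial (Fin N) ℚ),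
    x = ∑ j, (c j : ℝ) * ∫ z in ucube (Fin N), |(MvPolynomial.aeval z (Q j) : ℝ)| ^ 3

/-- The class `AbsF` with cubes. -/
def AbsF3 {ι : Type} (S : Set (ι → ℝ)) (φ : (ι → ℝ) → ℝ) : Prop :=
  ∃ (k : ℕ) (c : Fin k → ℚ) (Q : Fin k → MvPolynomial ι ℚ),
    ∀ z ∈ S, φ z = ∑ j, (c j : ℝ) * |(MvPolynomial.aeval z (Q j) : ℝ)| ^ 3

/-- `y^8 log y`. -/
def fl8 (y : ℝ) : ℝ := y ^ 8 * Real.log y

/-- All signs are minus. -/
def AVm (x : ℝ) : Prop :=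
  ∀ ε : ℝ, 0 < ε → ∃ (N m : ℕ) (r s : ℚ) (P : Fin m → MvPolynomial (Fin N) ℚ), 0 < m ∧ 0 < s ∧
    (∀ a, ∀ z ∈ ucube (Fin N), |(MvPolynomial.aeval z (P a) : ℝ)| ≤ s) ∧ (m : ℝ) * s ≤ ε ∧
    x = r - ∑ a, ∫ z in ucube (Fin N), |(MvPolynomial.aeval z (P a) : ℝ)|

/-- The nodes. -/
def nd (m j : ℕ) : ℚ := (j : ℚ) / (2 * m)

/-- The node polynomial. -/
def PiP (m : ℕ) : Polynomial ℚ :=
  ∏ j ∈ Finset.Ico 1 (2 * m), (Polynomial.X - Polynomial.C (nd m j))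

/-- Hills and valleys. -/
structure Hills (m : ℕ) (h0 r0 : Polynomial ℚ) (h r : Fin m → Polynomial ℚ) : Prop where
  d0 : Polynomial.derivative h0 = PiP m * r0
  d1 : ∀ a, Polynomial.derivative (h a) = PiP m * r a
  pos : ∀ (X : ℝ) (τ : Fin m → ℝ), 0 ≤ X → X ≤ 1 → (∀ a, 0 ≤ τ a ∧ τ a ≤ 1) →
    0 < Polynomial.aeval X r0 + ∑ a, τ a * Polynomial.aeval X (r a)
  e0 : h0.eval 0 = 1 / 4 ∧ h0.eval 1 = 1 / 4
  e1 : ∀ a, (h a).eval 0 = 0 ∧ (h a).eval 1 = 0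
  v0 : ∀ b : Fin m, h0.eval (nd m (2 * (b : ℕ) + 1)) = 0
  v1 : ∀ a b : Fin m, (h a).eval (nd m (2 * (b : ℕ) + 1)) = if a = b then 1 / 16 else 0
  t0 : ∀ b : ℕ, 0 < b → b < m → h0.eval (nd m (2 * b)) = 1
  t1 : ∀ (a : Fin m) (b : ℕ), 0 < b → b < m → (h a).eval (nd m (2 * b)) = 0

/-- The value of the hill function with the valleys `|p a|`. -/
def HV {m : ℕ} (h0 : Polynomial ℚ) (h : Fin m → Polynomial ℚ) (s0 : ℝ) (p : Fin m → ℝ) (X : ℝ) :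
    ℝ := s0 ^ 2 * Polynomial.aeval X h0 + ∑ a, p a ^ 2 * Polynomial.aeval X (h a)

/-- `x² + y²`. -/
def rr {N : ℕ} (x y : Fin N → ℝ) (i : Fin N) : ℝ := x i ^ 2 + y i ^ 2

/-- `x² / (x² + y²)`. -/
def ss {N : ℕ} (x y : Fin N → ℝ) (i : Fin N) : ℝ := x i ^ 2 / rr x y i

/-- The kernel polynomial. -/
def QQ (a J D Om t : ℝ) : ℝ :=
  (1 + ((a - J) ^ 2 - D) ^ 2 * (Om * t)) *
    ((1 - ((a - J) ^ 2 - D) * (D + J * (a - J)) * (Om * t)) ^ 2 + a ^ 2 * D * (Om * t))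

/-- `π x` is the integral of `1 / G(w², z)`, `G` positive for `w² ≥ 0`. -/
def EQe (x : ℝ) : Prop :=
  ∃ (m : ℕ) (G : MvPolynomial (Fin (m + 1)) ℚ),
    (∀ z : Fin (m + 1) → ℝ, 0 ≤ z 0 → 0 < (MvPolynomial.aeval z G : ℝ)) ∧
    Integrable (fun z : Fin (m + 1) → ℝ =>
      1 / (MvPolynomial.aeval (Fin.cons (z 0 ^ 2) fun i => z i.succ : Fin (m + 1) → ℝ) G : ℝ)) ∧
    ∫ z : Fin (m + 1) → ℝ,
      1 / (MvPolynomial.aeval (Fin.cons (z 0 ^ 2) fun i => z i.succ : Fin (m + 1) → ℝ) G : ℝ) =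
        Real.pi * x

/-- The same with integral coefficients. -/
def EQI (x : ℝ) : Prop :=
  ∃ (m : ℕ) (G : MvPolynomial (Fin (m + 1)) ℤ),
    (∀ z : Fin (m + 1) → ℝ, 0 ≤ z 0 → 0 < (MvPolynomial.aeval z G : ℝ)) ∧
    Integrable (fun z : Fin (m + 1) → ℝ =>
      1 / (MvPolynomial.aeval (Fin.cons (z 0 ^ 2) fun i => z i.succ : Fin (m + 1) → ℝ) G : ℝ)) ∧
    ∫ z : Fin (m + 1) → ℝ,
      1 / (MvPolynomial.aeval (Fin.cons (z 0 ^ 2) fun i => z i.succ : Fin (m + 1) → ℝ) G : ℝ) =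
        Real.pi * x

end Pool.Agent.E1
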