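import Pool.Agent.W_2cf66e_E1.DefsE

/-!
# MP_2cf66e_nt, exponent one: combinations of cubes of absolute values (helper12, after helper3)
-/

set_option autoImplicit false

noncomputable section

open MeasureTheory MvPolynomial

namespace Pool.Agent.E1

open Pool.Agent.CVol Pool.Agent.OneIneq

variable {ι κ : Type} {S : Set (ι → ℝ)}

theorem AbsF3.congr {φ ψ : (ι → ℝ) → ℝ} (h : AbsF3 S φ) (e : ∀ z ∈ S, ψ z = φ z) : AbsF3 S ψ := by
  obtain ⟨k, c, Q, hQ⟩ := h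
  exact ⟨k, c, Q, fun z hz => (e z hz).trans (hQ z hz)⟩

theorem AbsF3.single (q : ℚ) (Q : MvPolynomial ι ℚ) :
    AbsF3 S (fun z => (q : ℝ) * |aeval z Q| ^ 3) :=
  ⟨1, fun _ => q, fun _ => Q, fun z _ => by simp⟩

theorem AbsF3.zero : AbsF3 S (fun _ => 0) :=
  ⟨0, fun _ => 0, fun _ => 0, fun z _ => by simp⟩

theorem AbsF3.add {φ ψ : (ι → ℝ) → ℝ} (h : AbsF3 S φ) (h' : AbsF3 S ψ) :
    AbsF3 S (fun z => φ z + ψ z) := by
  obtain ⟨k, c, Q, hQ⟩ := h
  obtain ⟨k', c', Q', hQ'⟩ := h'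
  refine ⟨k + k', Fin.append c c', Fin.append Q Q', fun z hz => ?_⟩
  beta_reduce
  rw [Fin.sum_univ_add, hQ z hz, hQ' z hz]
  simp only [Fin.append_left, Fin.append_right]

theorem AbsF3.smul {φ : (ι → ℝ) → ℝ} (q : ℚ) (h : AbsF3 S φ) :
    AbsF3 S (fun z => (q : ℝ) * φ z) := by
  obtain ⟨k, c, Q, hQ⟩ := h
  refine ⟨k, fun j => q * c j, Q, fun z hz => ?_⟩
  beta_reduce
  rw [hQ z hz, Finset.mul_sum]
  refine Finset.sum_congr rfl fun j _ => ?_
  push_cast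
  ring

theorem AbsF3.sum {α : Type} (T : Finset α) (φ : α → (ι → ℝ) → ℝ) (h : ∀ a ∈ T, AbsF3 S (φ a)) :
    AbsF3 S (fun z => ∑ a ∈ T, φ a z) := by
  classical
  induction T using Finset.induction_on with
  | empty => simpa using AbsF3.zero
  | insert a T ha ih =>
    have h1 : (fun z => ∑ b ∈ insert a T, φ b z) = fun z => φ a z + ∑ b ∈ T, φ b z := by
      funext z
      rw [Finset.sum_insert ha]
    rw [h1]
    exact (h a (Finset.mem_insert_self _ _)).add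
      (ih fun b hb => h b (Finset.mem_insert_of_mem hb))

theorem AbsF3.mul {φ ψ : (ι → ℝ) → ℝ} (h : AbsF3 S φ) (h' : AbsF3 S ψ) :
    AbsF3 S (fun z => φ z * ψ z) := by
  obtain ⟨k, c, Q, hQ⟩ := h
  obtain ⟨k', c', Q', hQ'⟩ := h'
  have h1 : AbsF3 S (fun z => ∑ p ∈ (Finset.univ : Finset (Fin k × Fin k')),
      ((c p.1 * c' p.2 : ℚ) : ℝ) * |aeval z (Q p.1 * Q' p.2)| ^ 3) :=
    AbsF3.sum _ _ fun p _ => AbsF3.single _ _
  refine h1.congr fun z hz => ?_
  beta_reduce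
  rw [hQ z hz, hQ' z hz, Finset.sum_mul_sum, ← Finset.univ_product_univ, Finset.sum_product]
  refine Finset.sum_congr rfl fun i _ => Finset.sum_congr rfl fun j _ => ?_
  rw [map_mul, abs_mul]
  push_cast
  ring

theorem AbsF3.abs (Q : MvPolynomial ι ℚ) : AbsF3 S (fun z => |aeval z Q| ^ 3) :=
  (AbsF3.single (S := S) 1 Q).congr fun z _ => by simp

/-- On a set where all polynomials are bounded, polynomials are combinations of cubes of absolute
values. -/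
theorem AbsF3.poly (hS : ∀ p : MvPolynomial ι ℚ, ∃ M : ℚ, ∀ z ∈ S, |aeval z p| ≤ M)
    (p : MvPolynomial ι ℚ) : AbsF3 S (fun z => (aeval z p : ℝ)) := by
  obtain ⟨M, hM⟩ := hS p
  have h1 := (((AbsF3.single (S := S) (1 / 6) (p + C (M + 2))).add
    (AbsF3.single (S := S) (1 / 6) (p + C M))).add
    (AbsF3.single (S := S) (-(1 / 3)) (p + C (M + 1)))).add
    (AbsF3.single (S := S) (-(M + 1)) 1)
  refine h1.congr fun z hz => ?_
  have h2 := hM z hz
  have h3 : 0 ≤ (M : ℝ) := (abs_nonneg _).trans h2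
  have h4 := neg_le_of_abs_le h2
  simp only [map_add, aeval_C, eq_ratCast, Rat.cast_one, Rat.cast_neg, Rat.cast_add,
    Rat.cast_ofNat, Rat.cast_div, map_one, abs_one, one_pow]
  rw [abs_of_nonneg (by linarith : (0 : ℝ) ≤ aeval z p + ((M : ℝ) + 2)),
    abs_of_nonneg (by linarith : (0 : ℝ) ≤ aeval z p + (M : ℝ)),
    abs_of_nonneg (by linarith : (0 : ℝ) ≤ aeval z p + ((M : ℝ) + 1))]
  ring

theorem AbsF3.pos (hS : ∀ p : MvPolynomial ι ℚ, ∃ M : ℚ, ∀ z ∈ S, |aeval z p| ≤ M)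
    (p : MvPolynomial ι ℚ) : AbsF3 S (fun z => (max 0 (aeval z p : ℝ)) ^ 3) := by
  have h1 := ((AbsF3.poly hS (p ^ 3)).smul (1 / 2)).add ((AbsF3.abs (S := S) p).smul (1 / 2))
  refine h1.congr fun z _ => ?_
  rcases le_total 0 (aeval z p : ℝ) with h | h
  · rw [max_eq_right h, abs_of_nonneg h, map_pow]
    push_cast
    ring
  · rw [max_eq_left h, abs_of_nonpos h, map_pow]
    push_cast
    ring

theorem AbsF3.prod (hS : ∀ p : MvPolynomial ι ℚ, ∃ M : ℚ, ∀ z ∈ S, |aeval z p| ≤ M)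
    {α : Type} (T : Finset α) (φ : α → (ι → ℝ) → ℝ) (h : ∀ a ∈ T, AbsF3 S (φ a)) :
    AbsF3 S (fun z => ∏ a ∈ T, φ a z) := by
  classical
  induction T using Finset.induction_on with
  | empty =>
    have h1 := AbsF3.poly hS (1 : MvPolynomial ι ℚ)
    simpa using h1
  | insert a T ha ih =>
    have h1 : (fun z => ∏ b ∈ insert a T, φ b z) = fun z => φ a z * ∏ b ∈ T, φ b z := by
      funext z
      rw [Finset.prod_insert ha]
    rw [h1]
    exact (h a (Finset.mem_insert_self _ _)).mul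
      (ih fun b hb => h b (Finset.mem_insert_of_mem hb))

/-- Substitution of polynomials. -/
theorem AbsF3.comp {T : Set (κ → ℝ)} {φ : (κ → ℝ) → ℝ} (h : AbsF3 T φ)
    (s : κ → MvPolynomial ι ℚ) (hs : ∀ z ∈ S, (fun i => (aeval z (s i) : ℝ)) ∈ T) :
    AbsF3 S (fun z => φ fun i => aeval z (s i)) := by
  obtain ⟨k, c, Q, hQ⟩ := h
  refine ⟨k, c, fun j => bind₁ s (Q j), fun z hz => ?_⟩
  beta_reduce
  rw [hQ _ (hs z hz)]
  refine Finset.sum_congr rfl fun j _ => ?_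
  rw [aeval_bind₁]

end Pool.Agent.E1
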