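import Pool.Agent.W_2cf66e_E1.LeA1

/-!
# MP_2cf66e_nt, exponent one: rational combinations of L^3 norms (helper12, after helper3)
-/

set_option autoImplicit false

noncomputable section

open MeasureTheory MvPolynomial

namespace Pool.Agent.E1

open Pool.Agent.CVol Pool.Agent.OneIneq

theorem abs_int3 {ι : Type} [Fintype ι] (Q : MvPolynomial ι ℚ) :
    IntegrableOn (fun z : ι → ℝ => |(aeval z Q : ℝ)| ^ 3) (ucube ι) :=
  ((HCell_cont Q).abs.pow 3).continuousOn.integrableOn_compact (ucube_compact ι)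

theorem AV3.of_abs {N : ℕ} {φ : (Fin N → ℝ) → ℝ} (h : AbsF3 (ucube (Fin N)) φ) :
    AV3 (∫ z in ucube (Fin N), φ z) := by
  obtain ⟨k, c, Q, hQ⟩ := h
  refine ⟨N, k, c, Q, ?_⟩
  rw [setIntegral_congr_fun (ucube_meas _) hQ, integral_finsetSum]
  · refine Finset.sum_congr rfl fun j _ => ?_
    rw [integral_const_mul]
  · intro j _
    exact (abs_int3 (Q j)).const_mul _

theorem AV3.zero : AV3 0 := ⟨0, 0, fun _ => 0, fun _ => 0, by simp⟩

theorem AV3.add {x y : ℝ} (h : AV3 x) (h' : AV3 y) : AV3 (x + y) := by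
  obtain ⟨N, k, c, Q, hx⟩ := h
  obtain ⟨M, k', c', Q', hy⟩ := h'
  refine ⟨N + M, k + k', Fin.append c c', Fin.append
    (fun j => rename (Fin.castAdd M) (Q j)) (fun j => rename (Fin.natAdd N) (Q' j)), ?_⟩
  rw [Fin.sum_univ_add, hx, hy]
  simp only [Fin.append_left, Fin.append_right, aeval_rename]
  congr 1
  · refine Finset.sum_congr rfl fun j _ => ?_
    rw [← proj_left N M (fun z => |(aeval z (Q j) : ℝ)| ^ 3) ((HCell_cont (Q j)).abs.pow 3)]
    rfl
  · refine Finset.sum_congr rfl fun j _ => ?_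
    rw [← proj_right N M (fun z => |(aeval z (Q' j) : ℝ)| ^ 3) ((HCell_cont (Q' j)).abs.pow 3)]
    rfl

theorem AV3.sum {α : Type} (T : Finset α) (x : α → ℝ) (h : ∀ a ∈ T, AV3 (x a)) :
    AV3 (∑ a ∈ T, x a) := by
  classical
  induction T using Finset.induction_on with
  | empty => simpa using AV3.zero
  | insert a T ha ih =>
    rw [Finset.sum_insert ha]
    exact (h a (Finset.mem_insert_self _ _)).add
      (ih fun b hb => h b (Finset.mem_insert_of_mem hb))

theorem box_to_ucube3 {n : ℕ} {φ : (Fin n → ℝ) → ℝ} (h : AbsF3 (box (Fin n)) φ) :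
    AbsF3 (ucube (Fin n)) (fun u => φ fun i => 2 * u i - 1) := by
  have h1 := h.comp (S := ucube (Fin n)) (fun i => 2 * X i - 1) (fun z hz => by
    rw [ucube, Set.mem_Icc, Pi.le_def, Pi.le_def] at hz
    rw [box_eq, Set.mem_ofPred_eq]
    intro i
    have h2 := hz.1 i
    have h3 := hz.2 i
    simp only [map_sub, map_mul, aeval_X, map_one, map_ofNat]
    exact ⟨by linarith, by linarith⟩)
  refine h1.congr fun z _ => ?_
  simp only [map_sub, map_mul, aeval_X, map_one, map_ofNat]

end Pool.Agent.E1
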