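import Pool.Agent.W_2cf66e_E1.LeA2
import Pool.Agent.W_2cf66e_h3.LogKer

/-!
# MP_2cf66e_nt, one inequality: powers of logarithms (helper12, after helper3)
-/

set_option autoImplicit false

noncomputable section

open MeasureTheory MvPolynomial

namespace Pool.Agent.E1

open Pool.Agent.CVol Pool.Agent.OneIneq

theorem kerS3 {F D : ℝ} (hF : 0 < F) (hF1 : F ≤ 1) (hD : F ≤ D) :
    ∫ s in Set.Icc (0 : ℝ) 1, (max 0 (F ^ 2 - s * D)) ^ 3 = F ^ 8 / (4 * D) := by
  have hD0 : 0 < D := hF.trans_le hD
  have hT0 : 0 ≤ F ^ 2 / D := by positivity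
  have hT1 : F ^ 2 / D ≤ 1 := by
    rw [div_le_one hD0]
    nlinarith
  rw [integral_Icc_eq_integral_Ioc, ← intervalIntegral.integral_of_le zero_le_one]
  have hc : Continuous fun s : ℝ => (max 0 (F ^ 2 - s * D)) ^ 3 := by fun_prop
  rw [← intervalIntegral.integral_add_adjacent_intervals (b := F ^ 2 / D)
    (hc.intervalIntegrable _ _) (hc.intervalIntegrable _ _)]
  have h1 : ∫ s in (0 : ℝ)..(F ^ 2 / D), (max 0 (F ^ 2 - s * D)) ^ 3 =
      ∫ s in (0 : ℝ)..(F ^ 2 / D), (F ^ 2 - s * D) ^ 3 := by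
    refine intervalIntegral.integral_congr fun s hs => ?_
    rw [Set.uIcc_of_le hT0] at hs
    have h3 : s * D ≤ F ^ 2 := by
      have := hs.2
      rwa [le_div_iff₀ hD0] at this
    beta_reduce
    rw [max_eq_right (by linarith)]
  have h2 : ∫ s in (F ^ 2 / D)..1, (max 0 (F ^ 2 - s * D)) ^ 3 =
      ∫ s in (F ^ 2 / D)..1, (0 : ℝ) := by
    refine intervalIntegral.integral_congr fun s hs => ?_
    rw [Set.uIcc_of_le hT1] at hs
    have h3 : F ^ 2 ≤ s * D := by
      have := hs.1
      rwa [div_le_iff₀ hD0] at this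
    beta_reduce
    rw [max_eq_left (by linarith)]
    norm_num
  have h3 : ∀ s ∈ Set.uIcc (0 : ℝ) (F ^ 2 / D),
      HasDerivAt (fun s : ℝ => -((F ^ 2 - s * D) ^ 4 / (4 * D))) ((F ^ 2 - s * D) ^ 3) s := by
    intro s _
    have h4 : HasDerivAt (fun s : ℝ => F ^ 2 - s * D) (-D) s := by
      have := ((hasDerivAt_id s).mul_const D).const_sub (F ^ 2)
      simpa using this
    have h5 := ((h4.pow 4).div_const (4 * D)).neg
    refine h5.congr_deriv ?_
    push_cast
    field_simp
  rw [h1, h2, intervalIntegral.integral_zero, add_zero,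
    intervalIntegral.integral_eq_sub_of_hasDerivAt h3
      (Continuous.intervalIntegrable (by fun_prop) _ _)]
  field_simp
  ring

theorem fl_bound3 {y : ℝ} (h0 : 0 < y) (h1 : y ≤ 1) : |fl8 y| ≤ 1 := by
  have h2 := Real.abs_log_mul_self_lt y h0 h1
  have h3 : fl8 y = y ^ 7 * (Real.log y * y) := by
    unfold fl8
    ring
  rw [h3, abs_mul, abs_of_nonneg (by positivity)]
  have h4 : y ^ 7 ≤ 1 := pow_le_one₀ h0.le h1
  nlinarith [abs_nonneg (Real.log y * y), pow_nonneg h0.le 7]

/-- The kernel in the variables `s, t`. -/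
def ker3 (F t s : ℝ) : ℝ := 4 * (F - 1) * (max 0 (F ^ 2 - s * (F + t * (1 - F)))) ^ 3

/-- The kernel after integration over `s`. -/
def ker13 (F t : ℝ) : ℝ := F ^ 8 * ((F - 1) / (F + t * (1 - F)))

theorem ker_den3 {F t : ℝ} (_h0 : 0 < F) (h1 : F ≤ 1) (ht : 0 ≤ t) : F ≤ F + t * (1 - F) := by
  nlinarith [mul_nonneg ht (sub_nonneg.2 h1)]

theorem ker_int3 {F t : ℝ} (h0 : 0 < F) (h1 : F ≤ 1) (ht : 0 ≤ t) :
    ∫ s in Set.Icc (0 : ℝ) 1, ker3 F t s = ker13 F t := by
  unfold ker3 ker13
  rw [integral_const_mul, kerS3 h0 h1 (ker_den3 h0 h1 ht)]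
  have h2 : 0 < F + t * (1 - F) := h0.trans_le (ker_den3 h0 h1 ht)
  field_simp

theorem ker1_int3 {F : ℝ} (h0 : 0 < F) (h1 : F ≤ 1) :
    ∫ t in Set.Icc (0 : ℝ) 1, ker13 F t = fl8 F := by
  unfold ker13 fl8
  rw [integral_const_mul, kerT h0 h1]

theorem ker_abs3 {F t s : ℝ} (h0 : 0 < F) (h1 : F ≤ 1) (ht : 0 ≤ t) (hs : 0 ≤ s) :
    |ker3 F t s| ≤ 4 := by
  unfold ker3
  have h2 := ker_den3 h0 h1 ht
  have h3 : 0 ≤ s * (F + t * (1 - F)) := mul_nonneg hs (h0.le.trans h2)
  have h4 : max 0 (F ^ 2 - s * (F + t * (1 - F))) ≤ 1 := by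
    refine max_le zero_le_one ?_
    nlinarith
  have h5 : 0 ≤ max 0 (F ^ 2 - s * (F + t * (1 - F))) := le_max_left _ _
  have h6 : (max 0 (F ^ 2 - s * (F + t * (1 - F)))) ^ 3 ≤ 1 := pow_le_one₀ h5 h4
  have h7 : 0 ≤ (max 0 (F ^ 2 - s * (F + t * (1 - F)))) ^ 3 := by positivity
  rw [abs_mul, abs_mul, abs_of_nonneg h7, abs_of_nonpos (by linarith : F - 1 ≤ 0),
    abs_of_nonneg (by norm_num : (0 : ℝ) ≤ 4)]
  nlinarith

theorem ker1_abs3 {F t : ℝ} (h0 : 0 < F) (h1 : F ≤ 1) (ht : 0 ≤ t) : |ker13 F t| ≤ 1 := by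
  unfold ker13
  have h2 := ker_den3 h0 h1 ht
  have h3 : 0 < F + t * (1 - F) := h0.trans_le h2
  rw [abs_mul, abs_div, abs_of_nonneg (by positivity), abs_of_pos h3,
    abs_of_nonpos (by linarith : F - 1 ≤ 0), mul_div_assoc', div_le_one h3]
  have h4 : F ^ 8 ≤ F := by
    calc F ^ 8 = F * F ^ 7 := by ring
      _ ≤ F * 1 := by
        refine mul_le_mul_of_nonneg_left (pow_le_one₀ h0.le h1) h0.le
      _ = F := mul_one F
  nlinarith [pow_pos h0 8]

/-- `∫ φ (F^8 log F)^i` over a unit cube is a combination of `L^3` norms of polynomials. -/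
theorem log_pow3 (i : ℕ) : ∀ (N : ℕ) (φ : (Fin N → ℝ) → ℝ) (F : MvPolynomial (Fin N) ℚ),
    Measurable φ → AbsF3 (ucube (Fin N)) φ →
    (∀ z ∈ ucube (Fin N), φ z ≠ 0 → 0 < (aeval z F : ℝ) ∧ (aeval z F : ℝ) ≤ 1) →
    AV3 (∫ z in ucube (Fin N), φ z * (fl8 (aeval z F)) ^ i) := by
  induction i with
  | zero =>
    intro N φ F _ hφ _
    have := AV3.of_abs hφ
    simpa using this
  | succ i ih =>
    intro N φ F hm hφ hs
    let F' : MvPolynomial (Fin (N + 2)) ℚ := rename (fun j : Fin N => j.succ.succ) F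
    let ψ : (Fin (N + 2) → ℝ) → ℝ := fun z =>
      φ (fun j => z j.succ.succ) * ker3 (aeval (fun j : Fin N => z j.succ.succ) F) (z 1) (z 0)
    have hF' : ∀ z : Fin (N + 2) → ℝ, (aeval z F' : ℝ) =
        aeval (fun j : Fin N => z j.succ.succ) F := by
      intro z
      rw [aeval_rename]
      rfl
    have hFm : Measurable fun z : Fin N → ℝ => (aeval z F : ℝ) := (HCell_cont F).measurable
    have hpm : Measurable fun (z : Fin (N + 2) → ℝ) (j : Fin N) => z j.succ.succ :=
      measurable_pi_iff.2 fun j => measurable_pi_apply _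
    have hflm : Measurable fl8 := by
      unfold fl8
      exact (measurable_id.pow_const 8).mul Real.measurable_log
    have hψm : Measurable ψ := by
      have h1 := hm.comp hpm
      have h2 := hFm.comp hpm
      have h3 : Measurable fun z : Fin (N + 2) → ℝ => z 1 := measurable_pi_apply _
      have h4 : Measurable fun z : Fin (N + 2) → ℝ => z 0 := measurable_pi_apply _
      refine h1.mul ?_
      unfold ker3
      exact ((h2.sub_const 1).const_mul 4).mul ((measurable_const.max
        ((h2.pow_const 2).sub (h4.mul (h2.add (h3.mul (measurable_const.sub h2)))))).pow_const 3)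
    have hcube : ∀ z ∈ ucube (Fin (N + 2)), (fun j : Fin N => z j.succ.succ) ∈ ucube (Fin N) := by
      intro z hz
      rw [ucube, Set.mem_Icc, Pi.le_def, Pi.le_def] at hz ⊢
      exact ⟨fun j => hz.1 _, fun j => hz.2 _⟩
    have hψ : AbsF3 (ucube (Fin (N + 2))) ψ := by
      have h1 := hφ.comp (S := ucube (Fin (N + 2))) (fun j : Fin N => X j.succ.succ)
        (fun z hz => by
          simp only [aeval_X]
          exact hcube z hz)
      have h2 := AbsF3.poly (ucube_bound (Fin (N + 2))) (4 * (F' - 1))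
      have h3 := AbsF3.pos (ucube_bound (Fin (N + 2))) (F' ^ 2 - X 0 * (F' + X 1 * (1 - F')))
      refine (h1.mul (h2.mul h3)).congr fun z _ => ?_
      simp only [aeval_X, map_mul, map_sub, map_add, map_pow, map_one, map_ofNat, hF']
      rfl
    have hψs : ∀ z ∈ ucube (Fin (N + 2)), ψ z ≠ 0 →
        0 < (aeval z F' : ℝ) ∧ (aeval z F' : ℝ) ≤ 1 := by
      intro z hz h
      rw [hF']
      exact hs _ (hcube z hz) fun h0 => h (by simp only [ψ, h0, zero_mul])
    have hih := ih (N + 2) ψ F' hψm hψ hψs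
    obtain ⟨B, hB⟩ : ∃ B : ℝ, ∀ z ∈ ucube (Fin N), |φ z| ≤ B := by
      obtain ⟨k, c, Q, hQ⟩ := hφ
      have h1 : Continuous fun z : Fin N → ℝ => ∑ j, (c j : ℝ) * |(aeval z (Q j) : ℝ)| ^ 3 :=
        continuous_finsetSum _ fun j _ => continuous_const.mul ((HCell_cont (Q j)).abs.pow 3)
      obtain ⟨B, hB⟩ := (ucube_compact (Fin N)).exists_bound_of_continuousOn h1.continuousOn
      refine ⟨B, fun z hz => ?_⟩
      rw [hQ z hz]
      exact hB z hz
    -- bound of the product with the power
    have hprod : ∀ (u : Fin N → ℝ), u ∈ ucube (Fin N) → ∀ κ C : ℝ, 0 ≤ C →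
        (φ u ≠ 0 → |κ| ≤ C) → |φ u * κ * fl8 (aeval u F) ^ i| ≤ B * C := by
      intro u hu κ C hC hκ
      have hB0 : 0 ≤ B := (abs_nonneg _).trans (hB u hu)
      by_cases h0 : φ u = 0
      · rw [h0, zero_mul, zero_mul, abs_zero]
        exact mul_nonneg hB0 hC
      · obtain ⟨h1, h2⟩ := hs u hu h0
        rw [abs_mul, abs_mul, abs_pow]
        have h3 : |fl8 (aeval u F)| ^ i ≤ 1 := pow_le_one₀ (abs_nonneg _) (fl_bound3 h1 h2)
        calc |φ u| * |κ| * |fl8 (aeval u F)| ^ i ≤ |φ u| * |κ| * 1 := by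
              refine mul_le_mul_of_nonneg_left h3 (by positivity)
          _ ≤ B * C := by
              rw [mul_one]
              exact mul_le_mul (hB u hu) (hκ h0) (abs_nonneg _) hB0
    -- first Fubini
    let S1 : (Fin (N + 1) → ℝ) → ℝ := fun z =>
      φ (fun j => z j.succ) * ker13 (aeval (fun j : Fin N => z j.succ) F) (z 0) *
        fl8 (aeval (fun j : Fin N => z j.succ) F) ^ i
    have hae : ∀ {n : ℕ} (P : (Fin n → ℝ) → Prop), (∀ z ∈ ucube (Fin n), P z) →
        ∀ᵐ z ∂((volume : Measure (Fin n → ℝ)).restrict (ucube (Fin n))), P z := by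
      intro n P h
      exact ae_restrict_of_forall_mem (ucube_meas _) h
    have hcube1 : ∀ z ∈ ucube (Fin (N + 1)), (fun j : Fin N => z j.succ) ∈ ucube (Fin N) ∧
        0 ≤ z 0 ∧ z 0 ≤ 1 := by
      intro z hz
      rw [ucube, Set.mem_Icc, Pi.le_def, Pi.le_def] at hz ⊢
      exact ⟨⟨fun j => hz.1 _, fun j => hz.2 _⟩, hz.1 0, hz.2 0⟩
    have hB0 : 0 ≤ B := by
      refine (abs_nonneg _).trans (hB (fun _ => 0) ?_)
      rw [ucube, Set.mem_Icc, Pi.le_def, Pi.le_def]
      exact ⟨fun _ => le_rfl, fun _ => zero_le_one⟩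
    have hfub1 := (KVal_fub (fun z => ψ z * fl8 (aeval z F') ^ i)
      (hψm.mul (((hflm.comp (HCell_cont F').measurable)).pow_const i)) S1 (B * 4)
      (hae _ fun z hz => by
        obtain ⟨hu, ht0, ht1⟩ := hcube1 z hz
        have he : ∀ s : ℝ, ψ (Fin.cons s z) * fl8 (aeval (Fin.cons s z : Fin (N + 2) → ℝ) F') ^ i =
            φ (fun j => z j.succ) * ker3 (aeval (fun j : Fin N => z j.succ) F) (z 0) s *
              fl8 (aeval (fun j : Fin N => z j.succ) F) ^ i := by
          intro s
          rw [hF']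
          rfl
        simp only [he]
        refine ⟨?_, ?_, ?_⟩
        · refine Continuous.integrableOn_Icc ?_
          unfold ker3
          fun_prop
        · rw [integral_mul_const, integral_const_mul]
          by_cases h0 : φ (fun j => z j.succ) = 0
          · simp only [S1, h0, zero_mul]
          · obtain ⟨h1, h2⟩ := hs _ hu h0
            rw [ker_int3 h1 h2 ht0]
        · calc ∫ s in Set.Icc (0 : ℝ) 1, |φ (fun j => z j.succ) *
                  ker3 (aeval (fun j : Fin N => z j.succ) F) (z 0) s *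
                    fl8 (aeval (fun j : Fin N => z j.succ) F) ^ i|
                ≤ ∫ s in Set.Icc (0 : ℝ) 1, B * 4 := by
                  refine setIntegral_mono_on ?_ continuous_const.integrableOn_Icc
                    measurableSet_Icc fun s hs' => ?_
                  · refine Continuous.integrableOn_Icc ?_
                    unfold ker3
                    fun_prop
                  · exact hprod _ hu _ 4 (by norm_num) fun h0 =>
                      ker_abs3 (hs _ hu h0).1 (hs _ hu h0).2 ht0 hs'.1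
            _ = B * 4 := by simp)).2
    have hS1m : Measurable S1 := by
      have hpm1 : Measurable fun (z : Fin (N + 1) → ℝ) (j : Fin N) => z j.succ :=
        measurable_pi_iff.2 fun j => measurable_pi_apply _
      have h1 := hm.comp hpm1
      have h2 := hFm.comp hpm1
      have h3 : Measurable fun z : Fin (N + 1) → ℝ => z 0 := measurable_pi_apply _
      have h4 : Measurable fun z : Fin (N + 1) → ℝ =>
          ker13 (aeval (fun j : Fin N => z j.succ) F) (z 0) := by
        unfold ker13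
        exact (h2.pow_const 8).mul ((h2.sub_const 1).div
          (h2.add (h3.mul (measurable_const.sub h2))))
      exact (h1.mul h4).mul ((hflm.comp h2).pow_const i)
    have hfub2 := (KVal_fub S1 hS1m (fun u => φ u * fl8 (aeval u F) ^ (i + 1)) (B * 1)
      (hae _ fun u hu => by
        have he : ∀ t : ℝ, S1 (Fin.cons t u) = φ u * ker13 (aeval u F) t * fl8 (aeval u F) ^ i := by
          intro t
          rfl
        simp only [he]
        by_cases h0 : φ u = 0
        · simp only [h0, zero_mul, abs_zero, integral_zero]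
          exact ⟨integrableOn_zero, trivial, by linarith⟩
        obtain ⟨h1, h2⟩ := hs _ hu h0
        have hcont : ContinuousOn (fun t => φ u * ker13 (aeval u F) t * fl8 (aeval u F) ^ i)
            (Set.Icc (0 : ℝ) 1) := by
          unfold ker13
          refine ContinuousOn.mul (ContinuousOn.mul continuousOn_const
            (ContinuousOn.mul continuousOn_const (ContinuousOn.div continuousOn_const
              (by fun_prop) fun t ht => ?_))) continuousOn_const
          exact (h1.trans_le (ker_den3 h1 h2 ht.1)).ne'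
        refine ⟨hcont.integrableOn_Icc, ?_, ?_⟩
        · rw [integral_mul_const, integral_const_mul, ker1_int3 h1 h2]
          ring
        · calc ∫ t in Set.Icc (0 : ℝ) 1, |φ u * ker13 (aeval u F) t * fl8 (aeval u F) ^ i|
                ≤ ∫ t in Set.Icc (0 : ℝ) 1, B * 1 := by
                  refine setIntegral_mono_on hcont.abs.integrableOn_Icc
                    continuous_const.integrableOn_Icc measurableSet_Icc fun t ht => ?_
                  exact hprod _ hu _ 1 zero_le_one fun _ => ker1_abs3 h1 h2 ht.1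
            _ = B * 1 := by simp)).2
    rw [← hfub2, ← hfub1]
    exact hih

end Pool.Agent.E1
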