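import Pool.Agent.W_2cf66e_E1.DefsE

/-!
# MP_2cf66e_nt, theorem E1: small cubes (helper85)
-/

set_option autoImplicit false

noncomputable section

open MeasureTheory MvPolynomial

namespace Pool.Agent.E1

open Pool.Agent.CVol Pool.Agent.OneIneq

/-- The integral of `|Q|³` is rational plus a weighted sum of integrals of small `|P_a|³`. -/
def Good3h85 {N : ℕ} (Q : MvPolynomial (Fin N) ℚ) (η : ℝ) : Prop :=
  ∃ (α : Type) (_ : Fintype α) (r : ℚ) (w om : α → ℚ) (P : α → MvPolynomial (Fin N) ℚ),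
    (∀ a, 0 < w a ∧ 0 < om a) ∧
    (∀ a, ∀ z ∈ ucube (Fin N), |(aeval z (P a) : ℝ)| ≤ om a) ∧
    ((∑ a, w a * om a ^ 3 : ℚ) : ℝ) ≤ η ∧
    ∫ z in ucube (Fin N), |(aeval z Q : ℝ)| ^ 3 =
      r + ∑ a, (w a : ℝ) * ∫ z in ucube (Fin N), |(aeval z (P a) : ℝ)| ^ 3

theorem good3_all85 {N : ℕ} (Q : MvPolynomial (Fin N) ℚ) {η' : ℝ} (hη' : 0 < η') :
    Good3h85 Q η' := by
  obtain ⟨om, hom0, hom1⟩ : ∃ om : ℚ, 0 < om ∧ (om : ℝ) ^ 3 ≤ η' := by
    obtain ⟨q, hq0, hq1⟩ := exists_rat_btwn (show (0 : ℝ) < min 1 η' from lt_min one_pos hη')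
    refine ⟨q, by exact_mod_cast hq0, ?_⟩
    have h1 : (q : ℝ) ≤ 1 := (hq1.trans_le (min_le_left _ _)).le
    have h2 : (q : ℝ) ≤ η' := (hq1.trans_le (min_le_right _ _)).le
    calc (q : ℝ) ^ 3 ≤ (q : ℝ) ^ 1 := pow_le_pow_of_le_one hq0.le h1 (by norm_num)
      _ ≤ η' := by rw [pow_one]; exact h2
  have hη : (0 : ℝ) < om := by exact_mod_cast hom0
  have huc : UniformContinuousOn (fun z : Fin N → ℝ => (aeval z Q : ℝ)) (ucube (Fin N)) :=
    (ucube_compact (Fin N)).uniformContinuousOn_of_continuous (HCell_cont Q).continuousOn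
  rw [Metric.uniformContinuousOn_iff_le] at huc
  obtain ⟨δ, hδ, hd⟩ := huc om hη
  obtain ⟨k, hk⟩ := exists_nat_gt (1 / δ)
  have hk0 : (0 : ℝ) < k := lt_trans (by positivity) hk
  have hkn : 0 < k := by exact_mod_cast hk0
  have hkq : (0 : ℚ) < k := by exact_mod_cast hkn
  have hkd : 1 / (k : ℝ) ≤ δ := by
    rw [div_le_iff₀ hk0]
    rw [div_lt_iff₀ hδ] at hk
    linarith
  have hmap : ∀ (b : Fin N → Fin k) (u : Fin N → ℝ), u ∈ ucube (Fin N) →
      cellmap k b u ∈ ucube (Fin N) := by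
    intro b u hu
    rw [ucube, Set.mem_Icc, Pi.le_def, Pi.le_def] at hu ⊢
    refine ⟨fun i => ?_, fun i => ?_⟩
    · have := hu.1 i
      unfold cellmap
      positivity
    · have h1 := hu.2 i
      have h2 : ((b i : ℕ) : ℝ) + 1 ≤ k := by exact_mod_cast (b i).2
      unfold cellmap
      rw [div_le_one hk0]
      linarith
  have hosc : ∀ (b : Fin N → Fin k) (u v : Fin N → ℝ), u ∈ ucube (Fin N) → v ∈ ucube (Fin N) →
      |(aeval (cellmap k b u) Q : ℝ) - aeval (cellmap k b v) Q| ≤ om := by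
    intro b u v hu hv
    have h1 := hd (cellmap k b u) (hmap b u hu) (cellmap k b v) (hmap b v hv) (by
      rw [dist_pi_le_iff hδ.le]
      intro i
      rw [Real.dist_eq]
      unfold cellmap
      rw [← sub_div, abs_div, abs_of_pos hk0]
      refine le_trans ?_ hkd
      rw [div_le_div_iff_of_pos_right hk0, abs_le]
      rw [ucube, Set.mem_Icc, Pi.le_def, Pi.le_def] at hu hv
      have := hu.1 i
      have := hu.2 i
      have := hv.1 i
      have := hv.2 i
      constructor <;> linarith)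
    rwa [Real.dist_eq] at h1
  let Qb : (Fin N → Fin k) → MvPolynomial (Fin N) ℚ := fun b =>
    bind₁ (fun i => C (1 / (k : ℚ)) * (X i + C ((b i : ℕ) : ℚ))) Q
  have hQb : ∀ b u, (aeval u (Qb b) : ℝ) = aeval (cellmap k b u) Q := by
    intro b u
    simp only [Qb]
    rw [aeval_bind₁]
    congr 2
    funext i
    simp only [map_mul, map_add, aeval_C, aeval_X, cellmap, eq_ratCast]
    push_cast
    field_simp
  have hcase : ∀ b : Fin N → Fin k, ∃ (r : ℚ) (P : MvPolynomial (Fin N) ℚ),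
      (∀ z ∈ ucube (Fin N), |(aeval z P : ℝ)| ≤ om) ∧
      ∫ z in ucube (Fin N), |(aeval z (Qb b) : ℝ)| ^ 3 =
        r + ∫ z in ucube (Fin N), |(aeval z P : ℝ)| ^ 3 := by
    intro b
    by_cases h1 : ∀ z ∈ ucube (Fin N), 0 ≤ (aeval z (Qb b) : ℝ)
    · obtain ⟨r, hr⟩ := ucube_rat (Qb b ^ 3)
      refine ⟨r, 0, fun z _ => ?_, ?_⟩
      · simp only [map_zero, abs_zero]
        exact hη.le
      · rw [← hr]
        simp only [map_zero, abs_zero, ne_eq, OfNat.ofNat_ne_zero, not_false_eq_true, zero_pow,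
          integral_zero, add_zero]
        refine setIntegral_congr_fun (ucube_meas _) fun z hz => ?_
        simp only [map_pow]
        rw [abs_of_nonneg (h1 z hz)]
    by_cases h2 : ∀ z ∈ ucube (Fin N), (aeval z (Qb b) : ℝ) ≤ 0
    · obtain ⟨r, hr⟩ := ucube_rat ((-(Qb b)) ^ 3)
      refine ⟨r, 0, fun z _ => ?_, ?_⟩
      · simp only [map_zero, abs_zero]
        exact hη.le
      · rw [← hr]
        simp only [map_zero, abs_zero, ne_eq, OfNat.ofNat_ne_zero, not_false_eq_true, zero_pow,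
          integral_zero, add_zero]
        refine setIntegral_congr_fun (ucube_meas _) fun z hz => ?_
        simp only [map_pow, map_neg]
        rw [abs_of_nonpos (h2 z hz)]
    push Not at h1 h2
    obtain ⟨z1, hz1, h1⟩ := h1
    obtain ⟨z2, hz2, h2⟩ := h2
    refine ⟨0, Qb b, fun z hz => ?_, by simp⟩
    rw [hQb] at h1 h2 ⊢
    have h5 := abs_le.1 (hosc b z z1 hz hz1)
    have h6 := abs_le.1 (hosc b z z2 hz hz2)
    rw [abs_le]
    constructor <;> linarith [h5.2, h6.1]
  choose r P hP1 hP2 using hcase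
  refine ⟨Fin N → Fin k, inferInstance, ∑ b, (1 / (k : ℚ)) ^ N * r b, fun _ => (1 / (k : ℚ)) ^ N,
    fun _ => om, P, fun _ => ⟨by positivity, hom0⟩, hP1, ?_, ?_⟩
  · rw [Finset.sum_const, Finset.card_univ, Fintype.card_fun, Fintype.card_fin, Fintype.card_fin,
      nsmul_eq_mul]
    push_cast
    rw [← mul_assoc, ← mul_pow, mul_one_div_cancel hk0.ne', one_pow, one_mul]
    exact hom1
  · rw [subdiv hkn (fun z : Fin N → ℝ => |(aeval z Q : ℝ)| ^ 3) (by
      have h9 : Continuous fun z : Fin N → ℝ => (aeval z Q : ℝ) := HCell_cont Q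
      fun_prop)]
    push_cast
    rw [← Finset.sum_add_distrib]
    refine Finset.sum_congr rfl fun b _ => ?_
    rw [← mul_add, ← hP2 b, integral_const_mul]
    congr 1
    refine setIntegral_congr_fun (ucube_meas _) fun z _ => ?_
    rw [hQb]

theorem AV3.small {x : ℝ} (h : AV3 x) : ∀ ε : ℝ, 0 < ε →
    ∃ (N : ℕ) (α : Type) (_ : Fintype α) (r : ℚ) (σ : α → Bool) (w om : α → ℚ)
      (P : α → MvPolynomial (Fin N) ℚ), (∀ a, 0 < w a ∧ 0 < om a) ∧
      (∀ a, ∀ z ∈ ucube (Fin N), |(MvPolynomial.aeval z (P a) : ℝ)| ≤ om a) ∧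
      ((∑ a, w a * om a ^ 3 : ℚ) : ℝ) ≤ ε ∧
      x = r + ∑ a, (if σ a then (1 : ℝ) else -1) * (w a *
        ∫ z in ucube (Fin N), |(MvPolynomial.aeval z (P a) : ℝ)| ^ 3) := by
  intro ε hε
  obtain ⟨N, k, c, Q, hx⟩ := h
  -- positive coefficients
  let q : Fin k → ℚ := fun j => if c j = 0 then 1 else |c j|
  let Q' : Fin k → MvPolynomial (Fin N) ℚ := fun j => if c j = 0 then 0 else Q j
  have hq : ∀ j, 0 < q j := by
    intro j
    simp only [q]
    split_ifs with h0
    · exact one_pos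
    · exact abs_pos.2 h0
  have hqr : ∀ j, (0 : ℝ) < q j := fun j => by exact_mod_cast hq j
  have hterm : ∀ j, (c j : ℝ) * ∫ z in ucube (Fin N), |(aeval z (Q j) : ℝ)| ^ 3 =
      (if decide (0 ≤ c j) = true then (1 : ℝ) else -1) * ((q j : ℝ) *
        ∫ z in ucube (Fin N), |(aeval z (Q' j) : ℝ)| ^ 3) := by
    intro j
    by_cases h0 : c j = 0
    · simp [q, Q', h0]
    · simp only [q, Q', if_neg h0]
      by_cases h5 : 0 ≤ c j
      · simp only [h5, decide_true, if_true, abs_of_nonneg h5, one_mul]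
      · simp only [h5, decide_false, Bool.false_eq_true, if_false, abs_of_neg (not_le.1 h5)]
        push_cast
        ring
  have hg : ∀ j : Fin k, Good3h85 (Q' j) (ε / ((k + 1) * q j)) := fun j =>
    good3_all85 _ (by have := hqr j; positivity)
  choose α iα r w om P h0 h1 h2 h3 using hg
  refine ⟨N, Σ j, α j, inferInstance, ∑ j, (if 0 ≤ c j then 1 else -1) * (q j * r j),
    fun p => decide (0 ≤ c p.1), fun p => q p.1 * w p.1 p.2, fun p => om p.1 p.2,
    fun p => P p.1 p.2, fun p => ⟨mul_pos (hq _) (h0 p.1 p.2).1, (h0 p.1 p.2).2⟩,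
    fun p => h1 p.1 p.2, ?_, ?_⟩
  · rw [Fintype.sum_sigma]
    push_cast
    calc ∑ j, ∑ a, (q j : ℝ) * (w j a : ℝ) * (om j a : ℝ) ^ 3
        = ∑ j, (q j : ℝ) * ((∑ a, w j a * om j a ^ 3 : ℚ) : ℝ) := by
          refine Finset.sum_congr rfl fun j _ => ?_
          push_cast
          rw [Finset.mul_sum]
          exact Finset.sum_congr rfl fun a _ => by ring
      _ ≤ ∑ _j : Fin k, ε / (k + 1) := by
          refine Finset.sum_le_sum fun j _ => ?_
          calc (q j : ℝ) * ((∑ a, w j a * om j a ^ 3 : ℚ) : ℝ)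
              ≤ (q j : ℝ) * (ε / ((k + 1) * q j)) :=
                mul_le_mul_of_nonneg_left (h2 j) (hqr j).le
            _ = ε / (k + 1) := by
                have := (hqr j).ne'
                field_simp
      _ = k * (ε / (k + 1)) := by simp
      _ ≤ ε := by
        rw [← mul_div_assoc, div_le_iff₀ (by positivity)]
        nlinarith
  · rw [hx, Fintype.sum_sigma]
    push_cast
    rw [← Finset.sum_add_distrib]
    refine Finset.sum_congr rfl fun j _ => ?_
    rw [hterm j, h3 j]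
    have h7 : ∑ a, (if decide (0 ≤ c j) = true then (1 : ℝ) else -1) * ((q j : ℝ) * (w j a : ℝ) *
        ∫ (z : Fin N → ℝ) in ucube (Fin N), |(aeval z (P j a) : ℝ)| ^ 3) =
        (if decide (0 ≤ c j) = true then (1 : ℝ) else -1) * ((q j : ℝ) *
        ∑ a, (w j a : ℝ) * ∫ (z : Fin N → ℝ) in ucube (Fin N), |(aeval z (P j a) : ℝ)| ^ 3) := by
      rw [Finset.mul_sum, Finset.mul_sum]
      exact Finset.sum_congr rfl fun a _ => by ring
    refine Eq.trans ?_ (congrArg _ h7.symm)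
    by_cases h5 : 0 ≤ c j
    · simp only [h5, decide_true, if_true]
      push_cast
      ring
    · simp only [h5, decide_false, if_false, Bool.false_eq_true]
      push_cast
      ring

end Pool.Agent.E1
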