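import Pool.Agent.W_2cf66e_E1.DefsE
import Mathlib.Analysis.SpecificLimits.Normed

/-!
# MP_2cf66e_nt, theorem E1, leaf B1: spikes (helper59)
-/

set_option autoImplicit false
open Set Filter Topology

namespace Pool.Agent.E1

theorem conc59 (U V : ℝ → ℝ) (hU : Continuous U) (hV : Continuous V) (z : ℝ)
    (hz : z ∈ Icc (0:ℝ) 1) (hVz : 0 < V z) (e : ℝ) (he : 0 < e) :
    ∀ᶠ l : ℕ in atTop, ∀ x ∈ Icc (0:ℝ) 1,
      -e ≤ (1 - (x - z) ^ 2) ^ l * (2 * (l + 1) * V x - (1 - (x - z) ^ 2) * U x) := by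
  obtain ⟨C, hC⟩ := isCompact_Icc.exists_bound_of_continuousOn (s := Icc (0:ℝ) 1) hU.continuousOn
  obtain ⟨D, hD⟩ := isCompact_Icc.exists_bound_of_continuousOn (s := Icc (0:ℝ) 1) hV.continuousOn
  have hC0 : 0 ≤ C := (norm_nonneg _).trans (hC z hz)
  have hD0 : 0 ≤ D := (norm_nonneg _).trans (hD z hz)
  obtain ⟨δ, hδ, hδV⟩ := Metric.continuous_iff.1 hV z (V z / 2) (by positivity)
  set η : ℝ := min δ (1 / 2) with hη
  have hη0 : 0 < η := lt_min hδ (by norm_num)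
  have hη1 : η ≤ 1 / 2 := min_le_right _ _
  set q : ℝ := 1 - η ^ 2 with hq
  have hq0 : 0 ≤ q := by rw [hq]; nlinarith
  have hq1 : q < 1 := by rw [hq]; nlinarith
  have hlim : Tendsto (fun l : ℕ => 2 * D * (l * q ^ l) + (2 * D + C) * q ^ l) atTop (𝓝 0) := by
    have h1 := (tendsto_self_mul_const_pow_of_lt_one hq0 hq1).const_mul (2 * D)
    have h2 := (tendsto_pow_atTop_nhds_zero_of_lt_one hq0 hq1).const_mul (2 * D + C)
    have := h1.add h2
    simpa using this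
  have hev := hlim.eventually (gt_mem_nhds he)
  have hev2 : ∀ᶠ l : ℕ in atTop, C / V z ≤ l := by
    exact tendsto_natCast_atTop_atTop.eventually (eventually_ge_atTop (C / V z))
  filter_upwards [hev, hev2] with l h1 h2 x hx
  have hB0 : 0 ≤ 1 - (x - z) ^ 2 := by
    have : |x - z| ≤ 1 := abs_le.2 ⟨by linarith [hx.1, hz.2], by linarith [hx.2, hz.1]⟩
    nlinarith [sq_abs (x - z), abs_nonneg (x - z)]
  have hB1 : 1 - (x - z) ^ 2 ≤ 1 := by nlinarith [sq_nonneg (x - z)]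
  have hUx : |U x| ≤ C := hC x hx
  have hVx : |V x| ≤ D := hD x hx
  have hBU : |(1 - (x - z) ^ 2) * U x| ≤ C := by
    rw [abs_mul, abs_of_nonneg hB0]
    nlinarith [abs_nonneg (U x)]
  by_cases hnear : |x - z| < η
  · have hv : V z / 2 ≤ V x := by
      have := hδV x (by rw [Real.dist_eq]; exact hnear.trans_le (min_le_left _ _))
      rw [Real.dist_eq] at this
      linarith [(abs_lt.1 this).1]
    have h3 : 0 ≤ 2 * ((l:ℝ) + 1) * V x - (1 - (x - z) ^ 2) * U x := by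
      have h4 : C ≤ l * V z := by rwa [div_le_iff₀ hVz] at h2
      have h5 : ((l:ℝ) + 1) * V z ≤ 2 * ((l:ℝ) + 1) * V x := by nlinarith [Nat.cast_nonneg (α := ℝ) l]
      linarith [(abs_le.1 hBU).2]
    have h6 := mul_nonneg (pow_nonneg hB0 l) h3
    linarith
  · have hfar : 1 - (x - z) ^ 2 ≤ q := by
      push Not at hnear
      rw [hq]
      nlinarith [sq_abs (x - z)]
    have h7 : (1 - (x - z) ^ 2) ^ l ≤ q ^ l := pow_le_pow_left₀ hB0 hfar l
    have h8 : |(1 - (x - z) ^ 2) ^ l * (2 * ((l:ℝ) + 1) * V x - (1 - (x - z) ^ 2) * U x)| ≤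
        q ^ l * (2 * (l + 1) * D + C) := by
      rw [abs_mul, abs_of_nonneg (pow_nonneg hB0 l)]
      refine mul_le_mul h7 ?_ (abs_nonneg _) (pow_nonneg hq0 l)
      refine (abs_sub _ _).trans (add_le_add ?_ hBU)
      rw [abs_mul, abs_of_nonneg (by positivity : (0:ℝ) ≤ 2 * ((l:ℝ) + 1))]
      exact mul_le_mul_of_nonneg_left hVx (by positivity)
    have h9 : q ^ l * (2 * (l + 1) * D + C) < e := by
      have : q ^ l * (2 * (l + 1) * D + C) = 2 * D * (l * q ^ l) + (2 * D + C) * q ^ l := by ring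
      rw [this]; exact h1
    linarith [(abs_le.1 h8).1]

theorem spike (a b : ℝ → ℝ) (ha : Continuous a) (hb : Continuous b) (z : ℝ)
    (hz : 0 ≤ z ∧ z ≤ 1) (h : 0 < b z) (ε : ℝ) (hε : 0 < ε) :
    ∃ l₀ : ℕ, ∀ l ≥ l₀, ∀ X : ℝ, 0 ≤ X → X ≤ 1 →
      -ε ≤ (1 - (X - z) ^ 2) ^ l * (2 * (l + 1) * b X - a X * (1 - (X - z) ^ 2)) := by
  obtain ⟨l₀, hl₀⟩ := eventually_atTop.1 (conc59 a b ha hb z hz h ε hε)
  refine ⟨l₀, fun l hl X h0 h1 => ?_⟩
  have := hl₀ l hl X ⟨h0, h1⟩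
  rwa [mul_comm (a X)]

end Pool.Agent.E1
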