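import Pool.Agent.W_2cf66e_E1.DefsE

/-!
# MP_2cf66e_nt, theorem E1, leaf B2 (helper31): the bump
-/

set_option autoImplicit false

noncomputable section

namespace Pool.Agent.E1

open Polynomial

lemma nd_inj31 {m : ℕ} (hm : 0 < m) {i j : ℕ} (h : nd m i = nd m j) : i = j := by
  unfold nd at h
  have hm' : (0 : ℚ) < 2 * m := by positivity
  have h1 := (div_left_inj' hm'.ne').1 h
  exact_mod_cast h1

theorem bump {m : ℕ} (hm : 0 < m) (j : ℕ) (h1 : 1 ≤ j) (h2 : j < 2 * m) :
    ∃ A a b : Polynomial ℚ, A.eval (nd m j) = 1 ∧ (∀ i ≤ 2 * m, i ≠ j → A.eval (nd m i) = 0) ∧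
      Polynomial.derivative A = PiP m * a ∧ A * (Polynomial.X - Polynomial.C (nd m j)) = PiP m * b ∧
      b.eval (nd m j) * (Polynomial.derivative (PiP m)).eval (nd m j) = 1 := by
  classical
  have hm' : (0 : ℚ) < 2 * m := by positivity
  set z : ℚ := nd m j with hz
  set l : Polynomial ℚ := ∏ i ∈ (Finset.Ico 1 (2 * m)).erase j, (X - C (nd m i)) with hl
  have hP : PiP m = l * (X - C z) := by
    unfold PiP
    rw [hl, hz, Finset.prod_erase_mul]
    exact Finset.mem_Ico.2 ⟨h1, h2⟩
  have hlz : l.eval z ≠ 0 := by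
    rw [hl, eval_prod]
    refine Finset.prod_ne_zero_iff.2 fun i hi => ?_
    rw [eval_sub, eval_X, eval_C, sub_ne_zero, hz]
    intro h3
    exact (Finset.mem_erase.1 hi).1 (nd_inj31 hm h3).symm
  have hz0 : z ≠ 0 := by
    intro h3
    have h4 : nd m j = nd m 0 := by
      rw [← hz, h3]
      unfold nd
      simp
    have := nd_inj31 hm h4
    omega
  have hnd1 : nd m (2 * m) = 1 := by
    unfold nd
    push_cast
    exact div_self hm'.ne'
  have hz1 : 1 - z ≠ 0 := by
    intro h3
    have h4 : nd m j = nd m (2 * m) := by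
      rw [hnd1]
      linarith
    have := nd_inj31 hm h4
    omega
  set B : ℚ := z * (1 - z) * l.eval z ^ 2 with hB
  have hB0 : B ≠ 0 := by
    rw [hB]
    exact mul_ne_zero (mul_ne_zero hz0 hz1) (pow_ne_zero 2 hlz)
  set w : Polynomial ℚ := X * (1 - X) with hw
  set al : ℚ := 1 / B with hal
  set B' : ℚ := (derivative (w * l ^ 2)).eval z with hB'
  set be : ℚ := - (B' * al / B) with hbe
  set u : Polynomial ℚ := C al + C be * (X - C z) with hu
  set g : Polynomial ℚ := (derivative w * l + 2 * w * derivative l) * u + w * l * C be with hg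
  have hdu : derivative u = C be := by
    rw [hu]
    simp
  have hA' : derivative (w * l ^ 2 * u) = l * g := by
    rw [derivative_mul, derivative_mul, derivative_pow, hdu, hg]
    simp only [Nat.cast_ofNat, Nat.add_one_sub_one, pow_one, map_ofNat]
    ring
  have huz : u.eval z = al := by
    rw [hu]
    simp
  have hwz : w.eval z = z * (1 - z) := by
    rw [hw]
    simp
  have hgz : g.eval z = 0 := by
    have h3 : l.eval z * g.eval z = 0 := by
      rw [← eval_mul, ← hA', derivative_mul, eval_add, eval_mul, eval_mul, hdu, huz, ← hB',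
        eval_C, eval_mul, eval_pow, hwz, ← hB, hbe]
      field_simp
      ring
    exact (mul_eq_zero.1 h3).resolve_left hlz
  obtain ⟨a, ha⟩ : (X - C z) ∣ g := dvd_iff_isRoot.2 hgz
  refine ⟨w * l ^ 2 * u, a, w * l * u, ?_, ?_, ?_, ?_, ?_⟩
  · rw [eval_mul, eval_mul, eval_pow, hwz, huz, ← hB, hal]
    exact mul_one_div_cancel hB0
  · intro i hi hij
    rw [eval_mul, eval_mul, eval_pow]
    by_cases hi0 : i = 0
    · have h3 : nd m i = 0 := by
        rw [hi0]
        unfold nd
        simp
      rw [h3, hw]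
      simp
    · by_cases hi2 : i = 2 * m
      · rw [hi2, hnd1, hw]
        simp
      · have h3 : l.eval (nd m i) = 0 := by
          rw [hl, eval_prod]
          refine Finset.prod_eq_zero (i := i) (Finset.mem_erase.2 ⟨hij, Finset.mem_Ico.2
            ⟨by omega, by omega⟩⟩) ?_
          simp
        rw [h3]
        simp
  · rw [hA', hP, ha]
    ring
  · rw [hP]
    ring
  · have h3 : (derivative (PiP m)).eval z = l.eval z := by
      rw [hP, derivative_mul]
      simp
    rw [h3, eval_mul, eval_mul, hwz, huz, hal, hB]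
    have h4 := hB0
    rw [hB] at h4
    field_simp

end Pool.Agent.E1
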