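import Pool.Agent.W_2cf66e_E1.DefsE

/-!
# MP_2cf66e_nt, theorem E1, leaf B3: the node polynomial (helper61)
-/

set_option autoImplicit false

noncomputable section

open MeasureTheory Set Filter Topology

namespace Pool.Agent.E1

open Pool.Agent.CVol Pool.Agent.OneIneq

open scoped ENNReal

theorem pip_sign {m : ℕ} (j : ℕ) (h1 : 1 ≤ j) (h2 : j < 2 * m) :
    0 < (-1 : ℚ) ^ (j + 1) * (Polynomial.derivative (PiP m)).eval (nd m j) := by
  have hm : (0 : ℚ) < 2 * m := by
    have : 0 < 2 * m := by omega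
    exact_mod_cast this
  have hlt : ∀ a b : ℕ, a < b → nd m a < nd m b := by
    intro a b hab
    unfold nd
    have : (a : ℚ) < b := by exact_mod_cast hab
    exact div_lt_div_of_pos_right this hm
  have hsplit : PiP m = (∏ a ∈ Finset.Ico 1 j, (Polynomial.X - Polynomial.C (nd m a))) *
      ((Polynomial.X - Polynomial.C (nd m j)) *
        ∏ a ∈ Finset.Ico (j + 1) (2 * m), (Polynomial.X - Polynomial.C (nd m a))) := by
    unfold PiP
    rw [← Finset.prod_Ico_consecutive _ h1 h2.le, Finset.prod_eq_prod_Ico_succ_bot h2]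
  have hval : (Polynomial.derivative (PiP m)).eval (nd m j) =
      (∏ a ∈ Finset.Ico 1 j, (nd m j - nd m a)) *
        ∏ a ∈ Finset.Ico (j + 1) (2 * m), (nd m j - nd m a) := by
    rw [hsplit]
    simp [Polynomial.derivative_mul, Polynomial.eval_mul, Polynomial.eval_prod]
  have hneg : ∏ a ∈ Finset.Ico (j + 1) (2 * m), (nd m j - nd m a) =
      (-1) ^ (2 * m - (j + 1)) * ∏ a ∈ Finset.Ico (j + 1) (2 * m), (nd m a - nd m j) := by
    have : ∀ a ∈ Finset.Ico (j + 1) (2 * m), nd m j - nd m a = (-1) * (nd m a - nd m j) := by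
      intro a _; ring
    rw [Finset.prod_congr rfl this, Finset.prod_mul_distrib, Finset.prod_const, Nat.card_Ico]
  have hA : 0 < ∏ a ∈ Finset.Ico 1 j, (nd m j - nd m a) := by
    apply Finset.prod_pos
    intro a ha
    exact sub_pos.2 (hlt _ _ (Finset.mem_Ico.1 ha).2)
  have hC : 0 < ∏ a ∈ Finset.Ico (j + 1) (2 * m), (nd m a - nd m j) := by
    apply Finset.prod_pos
    intro a ha
    exact sub_pos.2 (hlt _ _ (Finset.mem_Ico.1 ha).1)
  have hone : (-1 : ℚ) ^ (j + 1) * (-1) ^ (2 * m - (j + 1)) = 1 := by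
    rw [← pow_add, show j + 1 + (2 * m - (j + 1)) = 2 * m by omega, pow_mul]
    norm_num
  rw [hval, hneg]
  have : (-1 : ℚ) ^ (j + 1) * ((∏ a ∈ Finset.Ico 1 j, (nd m j - nd m a)) *
      ((-1) ^ (2 * m - (j + 1)) * ∏ a ∈ Finset.Ico (j + 1) (2 * m), (nd m a - nd m j))) =
      ((-1 : ℚ) ^ (j + 1) * (-1) ^ (2 * m - (j + 1))) *
      ((∏ a ∈ Finset.Ico 1 j, (nd m j - nd m a)) *
        ∏ a ∈ Finset.Ico (j + 1) (2 * m), (nd m a - nd m j)) := by ring
  rw [this, hone, one_mul]
  exact mul_pos hA hC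

/-- The node polynomial is odd about `1/2`. -/
theorem pip_symm {m : ℕ} (hm : 0 < m) :
    (PiP m).comp (1 - Polynomial.X) = - PiP m := by
  have h2m : (2 * (m : ℚ)) ≠ 0 := by positivity
  unfold PiP
  rw [Polynomial.prod_comp]
  have h1 : ∀ j ∈ Finset.Ico 1 (2 * m),
      (Polynomial.X - Polynomial.C (nd m j)).comp (1 - Polynomial.X) =
        (-1) * (fun i : ℕ => (Polynomial.X - Polynomial.C (nd m i) : Polynomial ℚ)) (2 * m - j) := by
    intro j hj
    have hj := Finset.mem_Ico.1 hj
    have : nd m (2 * m - j) = 1 - nd m j := by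
      unfold nd
      rw [Nat.cast_sub hj.2.le]
      push_cast
      field_simp
    simp only [Polynomial.sub_comp, Polynomial.X_comp, Polynomial.C_comp, this, map_sub, map_one]
    ring
  have hr := Finset.prod_Ico_reflect
    (fun i : ℕ => (Polynomial.X - Polynomial.C (nd m i) : Polynomial ℚ)) 1
    (show 2 * m ≤ 2 * m + 1 by omega)
  have e1 : 2 * m + 1 - 2 * m = 1 := by omega
  have e2 : 2 * m + 1 - 1 = 2 * m := by omega
  rw [e1, e2] at hr
  rw [Finset.prod_congr rfl h1, Finset.prod_mul_distrib, Finset.prod_const, Nat.card_Ico, hr]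
  have : (-1 : Polynomial ℚ) ^ (2 * m - 1) = -1 := by
    apply Odd.neg_one_pow
    exact ⟨m - 1, by omega⟩
  rw [this]
  ring

/-- A polynomial has a primitive that vanishes at `0`. -/
theorem prim_ex (P : Polynomial ℚ) : ∃ K : Polynomial ℚ,
    Polynomial.derivative K = P ∧ K.eval 0 = 0 := by
  refine ⟨∑ i ∈ Finset.range (P.natDegree + 1),
    Polynomial.C (P.coeff i / ((i : ℚ) + 1)) * Polynomial.X ^ (i + 1), ?_, ?_⟩
  · conv_rhs => rw [P.as_sum_range_C_mul_X_pow]
    rw [Polynomial.derivative_sum]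
    apply Finset.sum_congr rfl
    intro i _
    rw [Polynomial.derivative_C_mul_X_pow]
    have hi : ((i : ℚ) + 1) ≠ 0 := by positivity
    congr 2
    push_cast
    field_simp
  · rw [Polynomial.eval_finsetSum]
    apply Finset.sum_eq_zero
    intro i _
    simp

theorem pip_prim {m : ℕ} (hm : 0 < m) : ∃ K : Polynomial ℚ,
    Polynomial.derivative K = - PiP m ∧ K.eval 0 = 0 ∧ K.eval 1 = 0 ∧
    ∀ X : ℝ, 0 ≤ X → X ≤ 1 → |Polynomial.aeval X K| ≤ 1 := by
  obtain ⟨K, hK, h0⟩ := prim_ex (- PiP m)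
  refine ⟨K, hK, h0, ?_, ?_⟩
  · have hL : Polynomial.derivative (K.comp (1 - Polynomial.X) - K) = 0 := by
      rw [Polynomial.derivative_sub, Polynomial.derivative_comp, hK]
      simp only [Polynomial.neg_comp, pip_symm hm, Polynomial.derivative_sub,
        Polynomial.derivative_one, Polynomial.derivative_X]
      ring
    have hc := Polynomial.derivative_eq_zero.1 hL
    rw [Polynomial.natDegree_eq_zero] at hc
    obtain ⟨c, hc⟩ := hc
    have e1 : (K.comp (1 - Polynomial.X) - K).eval (1 / 2) = c := by rw [← hc]; simp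
    have e2 : (K.comp (1 - Polynomial.X) - K).eval 0 = c := by rw [← hc]; simp
    simp only [Polynomial.eval_sub, Polynomial.eval_comp, Polynomial.eval_one,
      Polynomial.eval_X] at e1 e2
    have e3 : (1 : ℚ) - 1 / 2 = 1 / 2 := by norm_num
    rw [e3, sub_self] at e1
    rw [sub_zero, h0, sub_zero, ← e1] at e2
    exact e2
  · intro X hX0 hX1
    have hder : ∀ x ∈ Icc (0 : ℝ) 1, HasDerivWithinAt (fun y : ℝ => (Polynomial.aeval y K : ℝ))
        (Polynomial.aeval x (- PiP m)) (Icc 0 1) x := by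
      intro x _
      have := K.hasDerivAt_aeval x
      rw [hK] at this
      exact this.hasDerivWithinAt
    have hbd : ∀ x ∈ Icc (0 : ℝ) 1, ‖(Polynomial.aeval x (- PiP m) : ℝ)‖ ≤ 1 := by
      intro x hx
      rw [map_neg, norm_neg]
      unfold PiP
      rw [map_prod, norm_prod]
      apply Finset.prod_le_one (fun _ _ => norm_nonneg _)
      intro j hj
      have hj := Finset.mem_Ico.1 hj
      have hn : (Polynomial.aeval x (Polynomial.X - Polynomial.C (nd m j)) : ℝ) =
          x - ((nd m j : ℚ) : ℝ) := by simp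
      rw [hn, Real.norm_eq_abs, abs_le]
      have hn0 : (0 : ℝ) ≤ ((nd m j : ℚ) : ℝ) := by
        have : (0 : ℚ) ≤ nd m j := by unfold nd; positivity
        exact_mod_cast this
      have hn1 : ((nd m j : ℚ) : ℝ) ≤ 1 := by
        have : nd m j ≤ 1 := by
          unfold nd
          rw [div_le_one (by positivity)]
          have := hj.2.le
          exact_mod_cast this
        exact_mod_cast this
      constructor
      · linarith [hx.1]
      · linarith [hx.2]
    have := Convex.norm_image_sub_le_of_norm_hasDerivWithin_le hder hbd (convex_Icc 0 1)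
      (left_mem_Icc.2 zero_le_one) (show X ∈ Icc (0 : ℝ) 1 from ⟨hX0, hX1⟩)
    have hz : (Polynomial.aeval (0 : ℝ) K : ℝ) = 0 := by
      have e : (Polynomial.aeval (0 : ℝ) K : ℝ) = ((K.eval 0 : ℚ) : ℝ) := by
        have := Polynomial.aeval_algebraMap_apply ℝ (0 : ℚ) K
        simpa using this
      rw [e, h0]; simp
    simp only [hz, sub_zero, one_mul, Real.norm_eq_abs] at this
    rw [abs_of_nonneg hX0] at this
    exact this.trans hX1

end Pool.Agent.E1
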