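import Pool.Agent.W_2cf66e_E1.LeB1
import Pool.Agent.W_2cf66e_E1.LeB2
import Pool.Agent.W_2cf66e_E1.LeB3

/-!
# MP_2cf66e_nt, theorem E1, leaf B4: hills and valleys (helper59)
-/

set_option autoImplicit false

noncomputable section

namespace Pool.Agent.E1

open Polynomial

/-- The quadratic weight. -/
def Bq (m j : ℕ) : Polynomial ℚ := 1 - (X - C (nd m j)) ^ 2

theorem aeval_cast59 (p : Polynomial ℚ) (q : ℚ) : (aeval (q : ℝ) p : ℝ) = ((p.eval q : ℚ) : ℝ) := by
  have := Polynomial.aeval_algebraMap_apply ℝ q p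
  simpa using this

theorem cont_aeval59 (p : Polynomial ℚ) : Continuous fun x : ℝ => (aeval x p : ℝ) := by
  exact p.continuous_aeval

theorem asm59 (m : ℕ) (hm : 0 < m) (K : Polynomial ℚ) (hK : derivative K = - PiP m)
    (hK0 : K.eval 0 = 0) (hK1 : K.eval 1 = 0) (hKn : ∀ j, j ≤ 2 * m → |K.eval (nd m j)| ≤ 1)
    (G W : ℕ → Polynomial ℚ) (hGd : ∀ j, 1 ≤ j → j < 2 * m → derivative (G j) = PiP m * W j)
    (hGe : ∀ j, 1 ≤ j → j < 2 * m → ∀ i ≤ 2 * m, (G j).eval (nd m i) = if i = j then 1 else 0)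
    (ε : ℝ) (hε : ε = 1 / (16 * m))
    (hWx : ∀ j, 1 ≤ j → j < 2 * m → ∀ x : ℝ, 0 ≤ x → x ≤ 1 →
      -ε ≤ (if Even j then (1:ℝ) else -1) * aeval x (W j)) :
    ∃ (h0 r0 : Polynomial ℚ) (h r : Fin m → Polynomial ℚ), Hills m h0 r0 h r := by
  classical
  have hmR : (0:ℝ) < m := by exact_mod_cast hm
  have hmQ : (m:ℚ) ≠ 0 := by exact_mod_cast hm.ne'
  have hε0 : 0 < ε := by rw [hε]; positivity
  have hn0 : nd m 0 = 0 := by simp [nd]
  have hn1 : nd m (2 * m) = 1 := by
    unfold nd; push_cast; field_simp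
  have hodd : ∀ c : Fin m, 1 ≤ 2 * (c : ℕ) + 1 ∧ 2 * (c : ℕ) + 1 < 2 * m := fun c =>
    ⟨by omega, by have := c.2; omega⟩
  have hev : ∀ c ∈ Finset.Ico 1 m, 1 ≤ 2 * c ∧ 2 * c < 2 * m := fun c hc => by
    have := Finset.mem_Ico.1 hc; omega
  set co : ℕ → ℚ := fun j => -(1 / 4) + K.eval (nd m j) / 8 with hco
  set ce : ℕ → ℚ := fun j => 3 / 4 + K.eval (nd m j) / 8 with hce
  have hval : ∀ i ≤ 2 * m, (C (1 / 4) - C (1 / 8) * K +
      ∑ c : Fin m, C (co (2 * (c : ℕ) + 1)) * G (2 * (c : ℕ) + 1) +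
      ∑ c ∈ Finset.Ico 1 m, C (ce (2 * c)) * G (2 * c) : Polynomial ℚ).eval (nd m i) =
      1 / 4 - K.eval (nd m i) / 8 +
      ∑ c : Fin m, co (2 * (c : ℕ) + 1) * (if i = 2 * (c : ℕ) + 1 then 1 else 0) +
      ∑ c ∈ Finset.Ico 1 m, ce (2 * c) * (if i = 2 * c then 1 else 0) := by
    intro i hi
    simp only [eval_add, eval_sub, eval_mul, eval_C, eval_finsetSum]
    congr 1
    · congr 1
      · ring
      · exact Finset.sum_congr rfl fun c _ => by rw [hGe _ (hodd c).1 (hodd c).2 i hi]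
    · exact Finset.sum_congr rfl fun c hc => by rw [hGe _ (hev c hc).1 (hev c hc).2 i hi]
  refine ⟨C (1 / 4) - C (1 / 8) * K +
      ∑ c : Fin m, C (co (2 * (c : ℕ) + 1)) * G (2 * (c : ℕ) + 1) +
      ∑ c ∈ Finset.Ico 1 m, C (ce (2 * c)) * G (2 * c),
    C (1 / 8) + ∑ c : Fin m, C (co (2 * (c : ℕ) + 1)) * W (2 * (c : ℕ) + 1) +
      ∑ c ∈ Finset.Ico 1 m, C (ce (2 * c)) * W (2 * c),
    fun c => C (1 / 16) * G (2 * (c : ℕ) + 1), fun c => C (1 / 16) * W (2 * (c : ℕ) + 1),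
    ?_, ?_, ?_, ?_, ?_, ?_, ?_, ?_, ?_⟩
  · simp only [derivative_add, derivative_sub, derivative_C, derivative_mul, hK, derivative_sum,
      zero_mul, zero_add, mul_add, Finset.mul_sum]
    congr 1
    · congr 1
      · ring
      · exact Finset.sum_congr rfl fun c _ => by rw [hGd _ (hodd c).1 (hodd c).2]; ring
    · exact Finset.sum_congr rfl fun c hc => by rw [hGd _ (hev c hc).1 (hev c hc).2]; ring
  · intro c
    simp only [derivative_mul, derivative_C, zero_mul, zero_add]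
    rw [hGd _ (hodd c).1 (hodd c).2]; ring
  · intro x τ hx0 hx1 hτ
    have hsum : (aeval x (C (1 / 8) + ∑ c : Fin m, C (co (2 * (c : ℕ) + 1)) * W (2 * (c : ℕ) + 1) +
        ∑ c ∈ Finset.Ico 1 m, C (ce (2 * c)) * W (2 * c) : Polynomial ℚ) : ℝ) +
        ∑ c : Fin m, τ c * aeval x (C (1 / 16) * W (2 * (c : ℕ) + 1)) =
        1 / 8 + ∑ c : Fin m, ((co (2 * (c : ℕ) + 1) : ℝ) + τ c / 16) *
          aeval x (W (2 * (c : ℕ) + 1)) + ∑ c ∈ Finset.Ico 1 m, (ce (2 * c) : ℝ) *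
          aeval x (W (2 * c)) := by
      simp only [map_add, map_mul, map_sum, aeval_C, eq_ratCast]
      have : ∑ c : Fin m, ((co (2 * (c : ℕ) + 1) : ℝ) + τ c / 16) *
          aeval x (W (2 * (c : ℕ) + 1)) = ∑ c : Fin m, (co (2 * (c : ℕ) + 1) : ℝ) *
          aeval x (W (2 * (c : ℕ) + 1)) + ∑ c : Fin m, τ c * (((1 / 16 : ℚ) : ℝ) *
            aeval x (W (2 * (c : ℕ) + 1))) := by
        rw [← Finset.sum_add_distrib]
        refine Finset.sum_congr rfl fun c _ => ?_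
        push_cast; ring
      rw [this]; push_cast; ring
    rw [hsum]
    have ho : ∀ c : Fin m, -ε ≤ ((co (2 * (c : ℕ) + 1) : ℝ) + τ c / 16) *
        aeval x (W (2 * (c : ℕ) + 1)) := by
      intro c
      have hw := hWx _ (hodd c).1 (hodd c).2 x hx0 hx1
      rw [if_neg (by simp)] at hw
      have hk := hKn _ (hodd c).2.le
      have hk' : |((K.eval (nd m (2 * (c : ℕ) + 1)) : ℚ) : ℝ)| ≤ 1 := by exact_mod_cast hk
      have hc1 : (co (2 * (c : ℕ) + 1) : ℝ) = -(1 / 4) + (K.eval (nd m (2 * (c : ℕ) + 1)) : ℚ) / 8 := by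
        simp only [hco]; push_cast; ring
      have h3 := abs_le.1 hk'
      have h4 := hτ c
      rw [hc1]
      nlinarith [h3.1, h3.2, h4.1, h4.2]
    have he : ∀ c ∈ Finset.Ico 1 m, -ε ≤ (ce (2 * c) : ℝ) * aeval x (W (2 * c)) := by
      intro c hc
      have hw := hWx _ (hev c hc).1 (hev c hc).2 x hx0 hx1
      rw [if_pos (by simp)] at hw
      have hk := hKn _ (hev c hc).2.le
      have hk' : |((K.eval (nd m (2 * c)) : ℚ) : ℝ)| ≤ 1 := by exact_mod_cast hk
      have hc1 : (ce (2 * c) : ℝ) = 3 / 4 + (K.eval (nd m (2 * c)) : ℚ) / 8 := by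
        simp only [hce]; push_cast; ring
      have h3 := abs_le.1 hk'
      rw [hc1]
      nlinarith [h3.1, h3.2]
    have s1 : -(m * ε) ≤ ∑ c : Fin m, ((co (2 * (c : ℕ) + 1) : ℝ) + τ c / 16) *
        aeval x (W (2 * (c : ℕ) + 1)) := by
      have := Finset.sum_le_sum (s := (Finset.univ : Finset (Fin m))) fun c _ => ho c
      simpa using this
    have s2 : -((m - 1) * ε) ≤ ∑ c ∈ Finset.Ico 1 m, (ce (2 * c) : ℝ) * aeval x (W (2 * c)) := by
      have := Finset.sum_le_sum (s := Finset.Ico 1 m) he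
      rw [Finset.sum_const, Nat.card_Ico, nsmul_eq_mul, Nat.cast_sub hm] at this
      push_cast at this
      linarith
    have h5 : (2 * m : ℝ) * ε = 1 / 8 := by rw [hε]; field_simp; norm_num
    nlinarith
  · constructor
    · have := hval 0 (Nat.zero_le _)
      rw [hn0, hK0] at this
      rw [this]
      have e1 : ∑ c : Fin m, co (2 * (c : ℕ) + 1) * (if 0 = 2 * (c : ℕ) + 1 then (1:ℚ) else 0) = 0 :=
        Finset.sum_eq_zero fun c _ => by rw [if_neg (by omega), mul_zero]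
      have e2 : ∑ c ∈ Finset.Ico 1 m, ce (2 * c) * (if 0 = 2 * c then (1:ℚ) else 0) = 0 :=
        Finset.sum_eq_zero fun c hc => by
          rw [if_neg (by have := (Finset.mem_Ico.1 hc).1; omega), mul_zero]
      rw [e1, e2]; norm_num
    · have := hval (2 * m) le_rfl
      rw [hn1, hK1] at this
      rw [this]
      have e1 : ∑ c : Fin m, co (2 * (c : ℕ) + 1) *
          (if 2 * m = 2 * (c : ℕ) + 1 then (1:ℚ) else 0) = 0 :=
        Finset.sum_eq_zero fun c _ => by rw [if_neg (by omega), mul_zero]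
      have e2 : ∑ c ∈ Finset.Ico 1 m, ce (2 * c) * (if 2 * m = 2 * c then (1:ℚ) else 0) = 0 :=
        Finset.sum_eq_zero fun c hc => by
          rw [if_neg (by have := (Finset.mem_Ico.1 hc).2; omega), mul_zero]
      rw [e1, e2]; norm_num
  · intro c
    have g0 := hGe _ (hodd c).1 (hodd c).2 0 (Nat.zero_le _)
    have g1 := hGe _ (hodd c).1 (hodd c).2 (2 * m) le_rfl
    rw [hn0, if_neg (by omega)] at g0
    rw [hn1, if_neg (by omega)] at g1
    simp only [eval_mul, eval_C, g0, g1, mul_zero, and_self]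
  · intro d
    rw [hval _ (hodd d).2.le]
    have e1 : ∑ c : Fin m, co (2 * (c : ℕ) + 1) *
        (if 2 * (d : ℕ) + 1 = 2 * (c : ℕ) + 1 then (1:ℚ) else 0) = co (2 * (d : ℕ) + 1) := by
      rw [Finset.sum_eq_single d]
      · simp
      · intro c _ hc
        rw [if_neg (fun h => hc (Fin.ext (by omega))), mul_zero]
      · simp
    have e2 : ∑ c ∈ Finset.Ico 1 m, ce (2 * c) *
        (if 2 * (d : ℕ) + 1 = 2 * c then (1:ℚ) else 0) = 0 :=
      Finset.sum_eq_zero fun c hc => by rw [if_neg (by omega), mul_zero]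
    rw [e1, e2]; simp only [hco]; ring
  · intro c d
    simp only [eval_mul, eval_C, hGe _ (hodd c).1 (hodd c).2 _ (hodd d).2.le]
    by_cases h : c = d
    · subst h; simp
    · rw [if_neg (fun e => h (Fin.ext (by omega))), if_neg h]; simp
  · intro d hd0 hdm
    rw [hval _ (by omega)]
    have e1 : ∑ c : Fin m, co (2 * (c : ℕ) + 1) *
        (if 2 * d = 2 * (c : ℕ) + 1 then (1:ℚ) else 0) = 0 :=
      Finset.sum_eq_zero fun c _ => by rw [if_neg (by omega), mul_zero]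
    have e2 : ∑ c ∈ Finset.Ico 1 m, ce (2 * c) *
        (if 2 * d = 2 * c then (1:ℚ) else 0) = ce (2 * d) := by
      rw [Finset.sum_eq_single d]
      · simp
      · intro c _ hc
        rw [if_neg (by omega), mul_zero]
      · intro h
        exact absurd (Finset.mem_Ico.2 ⟨hd0, hdm⟩) h
    rw [e1, e2]; simp only [hce]; ring
  · intro c d hd0 hdm
    simp only [eval_mul, eval_C, hGe _ (hodd c).1 (hodd c).2 _ (by omega : 2 * d ≤ 2 * m)]
    rw [if_neg (by omega), mul_zero]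

theorem hills_ex (m : ℕ) (hm : 0 < m) : ∃ (h0 r0 : Polynomial ℚ) (h r : Fin m → Polynomial ℚ),
    Hills m h0 r0 h r := by
  classical
  have hmR : (0:ℝ) < m := by exact_mod_cast hm
  have hmQ : (m:ℚ) ≠ 0 := by exact_mod_cast hm.ne'
  obtain ⟨K, hK, hK0, hK1, hKb⟩ := pip_prim hm
  have hex : ∀ j : ℕ, ∃ A a b : Polynomial ℚ, 1 ≤ j → j < 2 * m → (A.eval (nd m j) = 1 ∧
      (∀ i ≤ 2 * m, i ≠ j → A.eval (nd m i) = 0) ∧
      derivative A = PiP m * a ∧ A * (X - C (nd m j)) = PiP m * b ∧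
      b.eval (nd m j) * (derivative (PiP m)).eval (nd m j) = 1) := by
    intro j
    by_cases h : 1 ≤ j ∧ j < 2 * m
    · obtain ⟨A, a, b, hh⟩ := bump hm j h.1 h.2
      exact ⟨A, a, b, fun _ _ => hh⟩
    · exact ⟨0, 0, 0, fun h1 h2 => absurd ⟨h1, h2⟩ h⟩
  choose A a b hA using hex
  set ε : ℝ := 1 / (16 * m) with hε
  have hε0 : 0 < ε := by positivity
  have hnd : ∀ j : ℕ, j ≤ 2 * m → 0 ≤ ((nd m j : ℚ) : ℝ) ∧ ((nd m j : ℚ) : ℝ) ≤ 1 := by
    intro j hj
    have hj' : (j:ℝ) ≤ 2 * m := by exact_mod_cast hj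
    constructor
    · unfold nd; push_cast; positivity
    · unfold nd; push_cast
      rw [div_le_one (by positivity)]; exact hj'
  -- signs of b at the nodes
  have hbo : ∀ j : ℕ, 1 ≤ j → j < 2 * m → Odd j → 0 < (b j).eval (nd m j) := by
    intro j h1 h2 ho
    have hs := pip_sign (m := m) j h1 h2
    rw [Even.neg_one_pow (by simpa [Nat.even_add_one] using ho), one_mul] at hs
    have := (hA j h1 h2).2.2.2.2
    exact pos_of_mul_pos_left (by rw [this]; norm_num) hs.le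
  have hbe : ∀ j : ℕ, 1 ≤ j → j < 2 * m → Even j → (b j).eval (nd m j) < 0 := by
    intro j h1 h2 he
    have hs := pip_sign (m := m) j h1 h2
    rw [Odd.neg_one_pow he.add_one] at hs
    have := (hA j h1 h2).2.2.2.2
    by_contra hc
    push Not at hc
    nlinarith
  have hsp : ∀ j : ℕ, ∃ l₀ : ℕ, 1 ≤ j → j < 2 * m → ∀ l ≥ l₀, ∀ x : ℝ, 0 ≤ x → x ≤ 1 →
      -ε ≤ (if Even j then (1:ℝ) else -1) * ((1 - (x - (nd m j : ℚ)) ^ 2) ^ l *
        (aeval x (a j) * (1 - (x - (nd m j : ℚ)) ^ 2) - 2 * (l + 1) * aeval x (b j))) := by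
    intro j
    by_cases hj : 1 ≤ j ∧ j < 2 * m
    · obtain ⟨h1, h2⟩ := hj
      by_cases he : Even j
      · have hb := hbe j h1 h2 he
        obtain ⟨l₀, hl⟩ := spike (fun x => -(aeval x (a j) : ℝ)) (fun x => -(aeval x (b j) : ℝ))
          (cont_aeval59 _).neg (cont_aeval59 _).neg ((nd m j : ℚ) : ℝ) (hnd j h2.le)
          (by simp only [aeval_cast59]; exact_mod_cast neg_pos.2 hb) ε hε0
        refine ⟨l₀, fun _ _ l hll x hx0 hx1 => ?_⟩
        have := hl l hll x hx0 hx1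
        rw [if_pos he]
        convert this using 1
        ring
      · have hb := hbo j h1 h2 (Nat.not_even_iff_odd.1 he)
        obtain ⟨l₀, hl⟩ := spike (fun x => (aeval x (a j) : ℝ)) (fun x => (aeval x (b j) : ℝ))
          (cont_aeval59 _) (cont_aeval59 _) ((nd m j : ℚ) : ℝ) (hnd j h2.le)
          (by simp only [aeval_cast59]; exact_mod_cast hb) ε hε0
        refine ⟨l₀, fun _ _ l hll x hx0 hx1 => ?_⟩
        have := hl l hll x hx0 hx1
        rw [if_neg he]
        convert this using 1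
        ring
    · exact ⟨0, fun h1 h2 => absurd ⟨h1, h2⟩ hj⟩
  choose l₀ hl₀ using hsp
  set l : ℕ := ∑ j ∈ Finset.range (2 * m), l₀ j with hl
  have hll : ∀ j, j < 2 * m → l₀ j ≤ l := fun j hj =>
    Finset.single_le_sum (f := l₀) (fun _ _ => Nat.zero_le _) (Finset.mem_range.2 hj)
  -- the bumps
  set G : ℕ → Polynomial ℚ := fun j => A j * Bq m j ^ (l + 1) with hG
  set W : ℕ → Polynomial ℚ := fun j =>
    a j * Bq m j ^ (l + 1) - C (2 * ((l : ℚ) + 1)) * (b j * Bq m j ^ l) with hW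
  have hGd : ∀ j, 1 ≤ j → j < 2 * m → derivative (G j) = PiP m * W j := by
    intro j h1 h2
    obtain ⟨-, -, hd, hmul, -⟩ := hA j h1 h2
    have hB : derivative (Bq m j) = - (C 2 * (X - C (nd m j))) := by
      unfold Bq
      simp only [derivative_sub, derivative_one, derivative_pow, derivative_X, derivative_C]
      simp
    have e1 : derivative (G j) = derivative (A j) * Bq m j ^ (l + 1) -
        C (2 * ((l : ℚ) + 1)) * ((A j * (X - C (nd m j))) * Bq m j ^ l) := by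
      simp only [hG, derivative_mul, derivative_pow, hB, Nat.add_sub_cancel]
      push_cast
      simp only [map_mul, map_add, map_one, map_natCast]
      ring
    rw [e1, hd, hmul]
    simp only [hW]
    ring
  have hGe : ∀ j, 1 ≤ j → j < 2 * m → ∀ i ≤ 2 * m, (G j).eval (nd m i) = if i = j then 1 else 0 := by
    intro j h1 h2 i hi
    obtain ⟨hj, hz, -, -, -⟩ := hA j h1 h2
    by_cases hij : i = j
    · subst hij
      simp [hG, Bq, hj]
    · simp [hG, hz i hi hij, hij]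
  have hWx : ∀ j, 1 ≤ j → j < 2 * m → ∀ x : ℝ, 0 ≤ x → x ≤ 1 →
      -ε ≤ (if Even j then (1:ℝ) else -1) * aeval x (W j) := by
    intro j h1 h2 x hx0 hx1
    have := hl₀ j h1 h2 l (hll j h2) x hx0 hx1
    convert this using 2
    simp only [hW, Bq, map_sub, map_mul, map_pow, map_one, aeval_X, aeval_C]
    simp only [eq_ratCast]
    push_cast
    ring
  have hKn : ∀ j, j ≤ 2 * m → |K.eval (nd m j)| ≤ 1 := by
    intro j hj
    have := hKb _ (hnd j hj).1 (hnd j hj).2
    rw [aeval_cast59] at this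
    exact_mod_cast this
  exact asm59 m hm K hK hK0 hK1 hKn G W hGd hGe ε hε hWx

end Pool.Agent.E1
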