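import Pool.Agent.W_2cf66e_E1.DefsE

/-!
# MP_2cf66e_nt, theorem E1: leaf C1 (helper69): one pair
-/

set_option autoImplicit false

noncomputable section

open MeasureTheory Set Filter Topology

namespace Pool.Agent.E1

open scoped ENNReal

namespace C69

/-- `s = 1/(1+v)` -/
theorem subA (g : ℝ → ℝ≥0∞) :
    ∫⁻ t in Ioo (0 : ℝ) 1, g t =
      ∫⁻ v in Ioi (0 : ℝ), ENNReal.ofReal (1 / (1 + v) ^ 2) * g (1 / (1 + v)) := by
  have himg : (fun v : ℝ => 1 / (1 + v)) '' Ioi (0 : ℝ) = Ioo (0 : ℝ) 1 := by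
    ext t
    constructor
    · rintro ⟨v, hv, rfl⟩
      have hv' : (0 : ℝ) < v := hv
      refine ⟨by positivity, ?_⟩
      show 1 / (1 + v) < 1
      rw [div_lt_one (by linarith)]
      linarith
    · rintro ⟨h0, h1⟩
      refine ⟨1 / t - 1, ?_, ?_⟩
      · show (0 : ℝ) < 1 / t - 1
        have : 1 < 1 / t := by rw [lt_div_iff₀ h0]; linarith
        linarith
      · show 1 / (1 + (1 / t - 1)) = t
        field_simp
        ring
  rw [← himg, lintegral_image_eq_lintegral_abs_deriv_mul (f := fun v : ℝ => 1 / (1 + v))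
    (f' := fun v => -1 / (1 + v) ^ 2) measurableSet_Ioi]
  · refine setLIntegral_congr_fun measurableSet_Ioi fun v hv => ?_
    have hv' : (0 : ℝ) < v := hv
    have h1 : |-1 / (1 + v) ^ 2| = 1 / (1 + v) ^ 2 := by
      rw [neg_div, abs_neg, abs_of_nonneg (by positivity)]
    show ENNReal.ofReal |-1 / (1 + v) ^ 2| * g (1 / (1 + v)) = _
    rw [h1]
  · intro v hv
    have hv' : (0 : ℝ) < v := hv
    have h1 : HasDerivAt (fun v : ℝ => 1 + v) 1 v := by
      simpa using (hasDerivAt_id v).const_add 1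
    have h2 := h1.fun_inv (by positivity : (1 + v) ≠ 0)
    simpa [one_div] using h2.hasDerivWithinAt
  · intro a ha b hb hab
    have ha' : (0 : ℝ) < a := ha
    have hb' : (0 : ℝ) < b := hb
    have h1 : 1 / (1 + a) = 1 / (1 + b) := hab
    rw [div_eq_div_iff (by positivity) (by positivity)] at h1
    linarith

/-- scaling -/
theorem subB {a : ℝ} (ha : 0 < a) (g : ℝ → ℝ≥0∞) :
    ∫⁻ r in Ioi (0 : ℝ), g r = ∫⁻ v in Ioi (0 : ℝ), ENNReal.ofReal a * g (a * v) := by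
  have himg : (fun v : ℝ => a * v) '' Ioi (0 : ℝ) = Ioi (0 : ℝ) := by
    ext t
    constructor
    · rintro ⟨v, hv, rfl⟩
      exact mul_pos ha hv
    · intro ht
      have ht' : (0 : ℝ) < t := ht
      refine ⟨t / a, div_pos ht' ha, ?_⟩
      show a * (t / a) = t
      field_simp
  conv_lhs => rw [← himg]
  rw [lintegral_image_eq_lintegral_abs_deriv_mul (f := fun v : ℝ => a * v)
    (f' := fun _ => a) measurableSet_Ioi]
  · refine setLIntegral_congr_fun measurableSet_Ioi fun v hv => ?_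
    show ENNReal.ofReal |a| * g (a * v) = _
    rw [abs_of_pos ha]
  · intro v _
    have h := (hasDerivAt_id v).const_mul a
    simp only [id, mul_one] at h
    exact h.hasDerivWithinAt
  · intro x _ y _ hxy
    exact mul_left_cancel₀ ha.ne' hxy

/-- squares -/
theorem subC (g : ℝ → ℝ≥0∞) :
    ∫⁻ x : ℝ, ENNReal.ofReal |x| * g (x ^ 2) = ∫⁻ r in Ioi (0 : ℝ), g r := by
  have key : ∀ s : Set ℝ, MeasurableSet s → InjOn (fun x : ℝ => x ^ 2) s →
      (fun x : ℝ => x ^ 2) '' s = Ioi (0 : ℝ) →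
      ∫⁻ x in s, ENNReal.ofReal |x| * g (x ^ 2) = ∫⁻ r in Ioi (0 : ℝ), 2⁻¹ * g r := by
    intro s hs hinj himg
    rw [← himg, lintegral_image_eq_lintegral_abs_deriv_mul (f := fun x : ℝ => x ^ 2)
      (f' := fun x => 2 * x) hs _ hinj]
    · refine setLIntegral_congr_fun hs fun x _ => ?_
      show _ = ENNReal.ofReal |2 * x| * (2⁻¹ * g (x ^ 2))
      rw [abs_mul, abs_of_pos (by norm_num : (0 : ℝ) < 2), ENNReal.ofReal_mul (by norm_num),
        show ENNReal.ofReal (2 : ℝ) = 2 by simp]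
      rw [← mul_assoc, mul_comm (2 : ℝ≥0∞) _, mul_assoc (ENNReal.ofReal |x|) 2 2⁻¹,
        ENNReal.mul_inv_cancel (by norm_num) (by norm_num), mul_one]
    · intro x _
      have h := hasDerivAt_pow 2 x
      simp only [Nat.cast_ofNat, Nat.add_one_sub_one, pow_one] at h
      exact h.hasDerivWithinAt
  have h1 := key (Ioi 0) measurableSet_Ioi (by
    intro a ha b hb hab
    have ha' : (0 : ℝ) < a := ha
    have hb' : (0 : ℝ) < b := hb
    have h : a ^ 2 = b ^ 2 := hab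
    nlinarith [sq_nonneg (a - b), mul_self_eq_mul_self_iff.mp (by nlinarith : a * a = b * b)]) (by
    ext t
    constructor
    · rintro ⟨v, hv, rfl⟩
      have hv' : (0 : ℝ) < v := hv
      show (0 : ℝ) < v ^ 2
      positivity
    · intro ht
      have ht' : (0 : ℝ) < t := ht
      exact ⟨Real.sqrt t, Real.sqrt_pos.mpr ht', Real.sq_sqrt ht'.le⟩)
  have h2 := key (Iio 0) measurableSet_Iio (by
    intro a ha b hb hab
    have ha' : a < (0 : ℝ) := ha
    have hb' : b < (0 : ℝ) := hb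
    have h : a ^ 2 = b ^ 2 := hab
    rcases mul_self_eq_mul_self_iff.mp (by nlinarith : a * a = b * b) with h3 | h3
    · exact h3
    · linarith) (by
    ext t
    constructor
    · rintro ⟨v, hv, rfl⟩
      have hv' : v < (0 : ℝ) := hv
      show (0 : ℝ) < v ^ 2
      nlinarith
    · intro ht
      have ht' : (0 : ℝ) < t := ht
      refine ⟨-Real.sqrt t, ?_, ?_⟩
      · show -Real.sqrt t < 0
        have := Real.sqrt_pos.mpr ht'
        linarith
      · show (-Real.sqrt t) ^ 2 = t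
        rw [neg_sq, Real.sq_sqrt ht'.le])
  have h3 : ∫⁻ x : ℝ, ENNReal.ofReal |x| * g (x ^ 2) =
      (∫⁻ x in Iio (0 : ℝ), ENNReal.ofReal |x| * g (x ^ 2)) +
        ∫⁻ x in Ioi (0 : ℝ), ENNReal.ofReal |x| * g (x ^ 2) := by
    rw [← lintegral_add_compl _ (measurableSet_Iio (a := (0 : ℝ))), compl_Iio]
    congr 1
    exact (setLIntegral_congr Ioi_ae_eq_Ici).symm
  rw [h3, h1, h2]
  have hh : ∀ r : ℝ, g r = 2⁻¹ * g r + 2⁻¹ * g r := by
    intro r
    rw [← add_mul, ENNReal.inv_two_add_inv_two, one_mul]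
  rw [lintegral_const_mul' _ _ (by norm_num), ← add_mul, ENNReal.inv_two_add_inv_two, one_mul]

/-- the beta integral is rational -/
theorem beta_rat (a : ℕ) : ∀ c : ℕ, ∃ q : ℚ, ∫ t in (0 : ℝ)..1, (1 - t) ^ a * t ^ c = q := by
  induction a with
  | zero =>
    intro c
    refine ⟨1 / (c + 1), ?_⟩
    simp only [pow_zero, one_mul, integral_pow]
    push_cast
    simp
  | succ a ih =>
    intro c
    obtain ⟨q1, h1⟩ := ih c
    obtain ⟨q2, h2⟩ := ih (c + 1)
    refine ⟨q1 - q2, ?_⟩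
    push_cast
    rw [← h1, ← h2, ← intervalIntegral.integral_sub
      ((by fun_prop : Continuous fun t : ℝ => (1 - t) ^ a * t ^ c).intervalIntegrable _ _)
      ((by fun_prop : Continuous fun t : ℝ => (1 - t) ^ a * t ^ (c + 1)).intervalIntegrable _ _)]
    refine intervalIntegral.integral_congr fun t _ => ?_
    show (1 - t) ^ (a + 1) * t ^ c = (1 - t) ^ a * t ^ c - (1 - t) ^ a * t ^ (c + 1)
    ring

theorem beta_pos (a c : ℕ) : 0 < ∫ t in (0 : ℝ)..1, (1 - t) ^ a * t ^ c := by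
  refine intervalIntegral.intervalIntegral_pos_of_pos_on
    ((by fun_prop : Continuous fun t : ℝ => (1 - t) ^ a * t ^ c).intervalIntegrable _ _)
    (fun t ht => ?_) (by norm_num)
  have h0 : 0 < t := ht.1
  have h1 : 0 < 1 - t := by linarith [ht.2]
  positivity

/-- the radial integral -/
theorem radial (b k : ℕ) (hk : b + 2 < k) : ∃ C : ℚ, 0 < C ∧
    ∫⁻ r in Ioi (0 : ℝ), ENNReal.ofReal (r ^ (b + 1) / (1 + r) ^ k) = ENNReal.ofReal C := by
  obtain ⟨j, rfl⟩ : ∃ j, k = b + 3 + j := ⟨k - (b + 3), by omega⟩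
  obtain ⟨q, hq⟩ := beta_rat (b + 1) j
  have hq0 : (0 : ℝ) < q := by rw [← hq]; exact beta_pos _ _
  refine ⟨q, by exact_mod_cast hq0, ?_⟩
  have h1 := subA fun t => ENNReal.ofReal ((1 - t) ^ (b + 1) * t ^ j)
  have h2 : ∫⁻ v in Ioi (0 : ℝ), ENNReal.ofReal (1 / (1 + v) ^ 2) *
      ENNReal.ofReal ((1 - 1 / (1 + v)) ^ (b + 1) * (1 / (1 + v)) ^ j) =
      ∫⁻ r in Ioi (0 : ℝ), ENNReal.ofReal (r ^ (b + 1) / (1 + r) ^ (b + 3 + j)) := by
    refine setLIntegral_congr_fun measurableSet_Ioi fun v hv => ?_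
    have hv' : (0 : ℝ) < v := hv
    have hv1 : (0 : ℝ) < 1 + v := by linarith
    show ENNReal.ofReal (1 / (1 + v) ^ 2) *
      ENNReal.ofReal ((1 - 1 / (1 + v)) ^ (b + 1) * (1 / (1 + v)) ^ j) = _
    rw [← ENNReal.ofReal_mul (by positivity)]
    congr 1
    have h3 : 1 - 1 / (1 + v) = v / (1 + v) := by
      field_simp
      ring
    rw [h3, div_pow, div_pow, one_pow, pow_add (1 + v) (b + 3) j,
      show (1 + v) ^ (b + 3) = (1 + v) ^ 2 * (1 + v) ^ (b + 1) by ring]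
    field_simp
  rw [← h2, ← h1, ← hq, intervalIntegral.integral_of_le (by norm_num),
    integral_Ioc_eq_integral_Ioo, ofReal_integral_eq_lintegral_ofReal]
  · exact ((by fun_prop : Continuous fun t : ℝ => (1 - t) ^ (b + 1) * t ^ j).integrableOn_Icc
      (a := 0) (b := 1)).mono_set Ioo_subset_Icc_self
  · rw [EventuallyLE, ae_restrict_iff' measurableSet_Ioo]
    refine ae_of_all _ fun t ht => ?_
    have h0 : 0 < t := ht.1
    have h1 : 0 < 1 - t := by linarith [ht.2]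
    show (0 : ℝ) ≤ _
    positivity

end C69

open C69

/-- LEAF C1. -/
theorem pair_one (b k : ℕ) (hk : b + 2 < k) : ∃ C : ℚ, 0 < C ∧ ∀ f : ℝ → ℝ≥0∞, Measurable f →
    ∫⁻ q : ℝ × ℝ, ENNReal.ofReal (|q.1 * q.2| * (q.1 ^ 2 + q.2 ^ 2) ^ b /
      (1 + (q.1 ^ 2 + q.2 ^ 2)) ^ k) * f (q.1 ^ 2 / (q.1 ^ 2 + q.2 ^ 2)) =
      ENNReal.ofReal C * ∫⁻ s in Set.Icc (0 : ℝ) 1, f s := by
  obtain ⟨C, hC, hJ⟩ := radial b k hk
  refine ⟨C, hC, fun f hf => ?_⟩
  set G : ℝ → ℝ → ℝ≥0∞ := fun α β =>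
    ENNReal.ofReal ((α + β) ^ b / (1 + (α + β)) ^ k) * f (α / (α + β)) with hG
  have hGm : Measurable (Function.uncurry G) := by
    simp only [hG]
    unfold Function.uncurry
    fun_prop
  have hF : ∀ x y : ℝ, ENNReal.ofReal (|x * y| * (x ^ 2 + y ^ 2) ^ b /
      (1 + (x ^ 2 + y ^ 2)) ^ k) * f (x ^ 2 / (x ^ 2 + y ^ 2)) =
      ENNReal.ofReal |x| * (ENNReal.ofReal |y| * G (x ^ 2) (y ^ 2)) := by
    intro x y
    simp only [hG]
    rw [← mul_assoc, ← mul_assoc, ← ENNReal.ofReal_mul (abs_nonneg _),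
      ← ENNReal.ofReal_mul (by positivity), abs_mul]
    congr 2
    ring
  have hFm : Measurable fun q : ℝ × ℝ => ENNReal.ofReal (|q.1 * q.2| * (q.1 ^ 2 + q.2 ^ 2) ^ b /
      (1 + (q.1 ^ 2 + q.2 ^ 2)) ^ k) * f (q.1 ^ 2 / (q.1 ^ 2 + q.2 ^ 2)) := by
    have : Measurable fun q : ℝ × ℝ => |q.1 * q.2| := by
      exact (measurable_fst.mul measurable_snd).abs
    fun_prop
  rw [Measure.volume_eq_prod, lintegral_prod _ hFm.aemeasurable]
  have h1 : ∀ x : ℝ, ∫⁻ y : ℝ, ENNReal.ofReal (|x * y| * (x ^ 2 + y ^ 2) ^ b /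
      (1 + (x ^ 2 + y ^ 2)) ^ k) * f (x ^ 2 / (x ^ 2 + y ^ 2)) =
      ENNReal.ofReal |x| * ∫⁻ β in Ioi (0 : ℝ), G (x ^ 2) β := by
    intro x
    rw [lintegral_congr (hF x), lintegral_const_mul' _ _ ENNReal.ofReal_ne_top,
      subC (fun r => G (x ^ 2) r)]
  rw [lintegral_congr h1, subC (fun r => ∫⁻ β in Ioi (0 : ℝ), G r β)]
  -- scaling
  set K : ℝ → ℝ → ℝ≥0∞ := fun α v =>
    ENNReal.ofReal (α * ((1 + v) * α) ^ b / (1 + (1 + v) * α) ^ k) * f (1 / (1 + v)) with hK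
  have h2 : ∫⁻ α in Ioi (0 : ℝ), ∫⁻ β in Ioi (0 : ℝ), G α β =
      ∫⁻ α in Ioi (0 : ℝ), ∫⁻ v in Ioi (0 : ℝ), K α v := by
    refine setLIntegral_congr_fun measurableSet_Ioi fun α hα => ?_
    have hα' : (0 : ℝ) < α := hα
    show ∫⁻ β in Ioi (0 : ℝ), G α β = _
    rw [subB hα' (fun β => G α β)]
    refine setLIntegral_congr_fun measurableSet_Ioi fun v hv => ?_
    have hv' : (0 : ℝ) < v := hv
    simp only [hG, hK]
    rw [← mul_assoc, ← ENNReal.ofReal_mul hα'.le]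
    have h3 : α / (α + α * v) = 1 / (1 + v) := by
      field_simp
    have h4 : α + α * v = (1 + v) * α := by ring
    rw [h3, h4, mul_div_assoc]
  have hKm : Measurable (Function.uncurry K) := by
    simp only [hK]
    unfold Function.uncurry
    fun_prop
  rw [h2, lintegral_lintegral_swap hKm.aemeasurable]
  have h5 : ∫⁻ v in Ioi (0 : ℝ), ∫⁻ α in Ioi (0 : ℝ), K α v =
      ∫⁻ v in Ioi (0 : ℝ), ENNReal.ofReal C *
        (ENNReal.ofReal (1 / (1 + v) ^ 2) * f (1 / (1 + v))) := by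
    refine setLIntegral_congr_fun measurableSet_Ioi fun v hv => ?_
    have hv' : (0 : ℝ) < v := hv
    have hv1 : (0 : ℝ) < 1 + v := by linarith
    have h6 := subB hv1 (fun r => ENNReal.ofReal (r ^ (b + 1) / (1 + r) ^ k))
    have h7 : ∫⁻ α in Ioi (0 : ℝ), ENNReal.ofReal (α * ((1 + v) * α) ^ b / (1 + (1 + v) * α) ^ k) =
        ENNReal.ofReal C * ENNReal.ofReal (1 / (1 + v) ^ 2) := by
      rw [← hJ, h6, mul_comm, ← lintegral_const_mul' _ _ ENNReal.ofReal_ne_top]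
      refine setLIntegral_congr_fun measurableSet_Ioi fun α hα => ?_
      have hα' : (0 : ℝ) < α := hα
      show _ = ENNReal.ofReal (1 / (1 + v) ^ 2) * (ENNReal.ofReal (1 + v) *
        ENNReal.ofReal (((1 + v) * α) ^ (b + 1) / (1 + (1 + v) * α) ^ k))
      rw [← ENNReal.ofReal_mul hv1.le, ← ENNReal.ofReal_mul (by positivity)]
      congr 1
      field_simp
      ring
    show ∫⁻ α in Ioi (0 : ℝ), K α v = _
    simp only [hK]
    rw [lintegral_mul_const _ (by fun_prop), h7, mul_assoc]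
  rw [h5, lintegral_const_mul' _ _ ENNReal.ofReal_ne_top, ← subA f,
    setLIntegral_congr Ioo_ae_eq_Icc]

end Pool.Agent.E1
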