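import Mathlib

/-!
# MP_2cf66e_nt, theorem E1, leaf D1 (helper14): the kernel
-/

set_option autoImplicit false

noncomputable section

open MeasureTheory Set Filter Topology

namespace Pool.Agent.E1

theorem dArc14 {a : ℝ} (ha : 0 < a) (s : ℝ) :
    HasDerivAt (fun s : ℝ => 1 / a * Real.arctan (s / a)) (1 / (s ^ 2 + a ^ 2)) s := by
  have h1 : HasDerivAt (fun s : ℝ => s / a) (1 / a) s := (hasDerivAt_id s).div_const a
  have h2 := (h1.arctan).const_mul (1 / a)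
  have e : 1 / a * (1 / (1 + (s / a) ^ 2) * (1 / a)) = 1 / (s ^ 2 + a ^ 2) := by
    have : (0 : ℝ) < s ^ 2 + a ^ 2 := by positivity
    field_simp
    ring
  rw [e] at h2
  exact h2

theorem tArc14 {a : ℝ} (ha : 0 < a) :
    Tendsto (fun s : ℝ => 1 / a * Real.arctan (s / a)) atTop (𝓝 (Real.pi / (2 * a))) := by
  have h1 : Tendsto (fun s : ℝ => Real.arctan (s / a)) atTop (𝓝 (Real.pi / 2)) :=
    (tendsto_nhds_of_tendsto_nhdsWithin Real.tendsto_arctan_atTop).comp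
      (tendsto_id.atTop_div_const ha)
  have h2 := h1.const_mul (1 / a)
  have e : 1 / a * (Real.pi / 2) = Real.pi / (2 * a) := by
    field_simp
  rw [e] at h2
  exact h2

theorem tQuo14 {a : ℝ} (ha : 0 < a) :
    Tendsto (fun s : ℝ => s / (s ^ 2 + a ^ 2)) atTop (𝓝 0) := by
  refine squeeze_zero' ?_ ?_ tendsto_inv_atTop_zero
  · filter_upwards [eventually_ge_atTop (0 : ℝ)] with s hs
    positivity
  · filter_upwards [eventually_gt_atTop (0 : ℝ)] with s hs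
    rw [div_le_iff₀ (by positivity), inv_mul_eq_div, le_div_iff₀ hs]
    nlinarith [sq_nonneg a]

/-- Two real factors. -/
theorem two14 {a b : ℝ} (ha : 0 < a) (hb : 0 < b) (al be : ℝ) : ∃ (Φ : ℝ → ℝ) (L : ℝ),
    (∀ s, HasDerivAt Φ ((al * s ^ 2 + be) / ((s ^ 2 + a ^ 2) * (s ^ 2 + b ^ 2))) s) ∧
    Tendsto Φ atTop (𝓝 L) ∧ Tendsto Φ atBot (𝓝 (-L)) ∧
    2 * L = Real.pi * ((al * (a * b) + be) / (a * b * (a + b))) := by
  have odd : ∀ {Φ : ℝ → ℝ} {L : ℝ}, (∀ s, Φ (-s) = -Φ s) → Tendsto Φ atTop (𝓝 L) →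
      Tendsto Φ atBot (𝓝 (-L)) := by
    intro Φ L ho ht
    have h1 := (ht.comp tendsto_neg_atBot_atTop).neg
    refine h1.congr fun s => ?_
    simp only [Function.comp_apply, ho, neg_neg]
  rcases eq_or_ne a b with hab | hab
  · subst hab
    set c : ℝ := (be - al * a ^ 2) / (2 * a ^ 2) with hc
    refine ⟨fun s => al * (1 / a * Real.arctan (s / a)) +
      c * (s / (s ^ 2 + a ^ 2) + 1 / a * Real.arctan (s / a)),
      al * (Real.pi / (2 * a)) + c * (0 + Real.pi / (2 * a)), ?_, ?_, ?_, ?_⟩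
    · intro s
      have hp : (0 : ℝ) < s ^ 2 + a ^ 2 := by positivity
      have h1 : HasDerivAt (fun s : ℝ => s ^ 2 + a ^ 2) (2 * s) s := by
        simpa using ((hasDerivAt_id s).pow 2).add_const (a ^ 2)
      have h2 : HasDerivAt (fun s : ℝ => s / (s ^ 2 + a ^ 2))
          ((1 * (s ^ 2 + a ^ 2) - s * (2 * s)) / (s ^ 2 + a ^ 2) ^ 2) s :=
        (hasDerivAt_id s).div h1 hp.ne'
      have h3 := ((dArc14 ha s).const_mul al).add ((h2.add (dArc14 ha s)).const_mul c)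
      have e : al * (1 / (s ^ 2 + a ^ 2)) + c * ((1 * (s ^ 2 + a ^ 2) - s * (2 * s)) /
          (s ^ 2 + a ^ 2) ^ 2 + 1 / (s ^ 2 + a ^ 2)) =
          (al * s ^ 2 + be) / ((s ^ 2 + a ^ 2) * (s ^ 2 + a ^ 2)) := by
        rw [hc]
        field_simp
        ring
      rw [e] at h3
      exact h3
    · exact ((tArc14 ha).const_mul al).add (((tQuo14 ha).add (tArc14 ha)).const_mul c)
    · refine odd (fun s => ?_) (((tArc14 ha).const_mul al).add
        (((tQuo14 ha).add (tArc14 ha)).const_mul c))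
      simp only [neg_div, Real.arctan_neg, neg_sq]
      ring
    · rw [hc]
      field_simp
      ring
  · have hd : b ^ 2 - a ^ 2 ≠ 0 := by
      have h1 : b ^ 2 - a ^ 2 = (b - a) * (b + a) := by ring
      rw [h1]
      exact mul_ne_zero (sub_ne_zero.2 hab.symm) (by positivity)
    set A : ℝ := (be - al * a ^ 2) / (b ^ 2 - a ^ 2) with hA
    set B : ℝ := (al * b ^ 2 - be) / (b ^ 2 - a ^ 2) with hB
    refine ⟨fun s => A * (1 / a * Real.arctan (s / a)) + B * (1 / b * Real.arctan (s / b)),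
      A * (Real.pi / (2 * a)) + B * (Real.pi / (2 * b)), ?_, ?_, ?_, ?_⟩
    · intro s
      have hp : (0 : ℝ) < s ^ 2 + a ^ 2 := by positivity
      have hq : (0 : ℝ) < s ^ 2 + b ^ 2 := by positivity
      have h3 := ((dArc14 ha s).const_mul A).add ((dArc14 hb s).const_mul B)
      have e : A * (1 / (s ^ 2 + a ^ 2)) + B * (1 / (s ^ 2 + b ^ 2)) =
          (al * s ^ 2 + be) / ((s ^ 2 + a ^ 2) * (s ^ 2 + b ^ 2)) := by
        rw [hA, hB]
        field_simp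
        ring
      rw [e] at h3
      exact h3
    · exact ((tArc14 ha).const_mul A).add ((tArc14 hb).const_mul B)
    · refine odd (fun s => ?_) (((tArc14 ha).const_mul A).add ((tArc14 hb).const_mul B))
      simp only [neg_div, Real.arctan_neg]
      ring
    · rw [hA, hB]
      have hab' : b - a ≠ 0 := sub_ne_zero.2 hab.symm
      have hs : a + b ≠ 0 := by positivity
      have h1 : b ^ 2 - a ^ 2 = (b - a) * (a + b) := by ring
      rw [h1]
      field_simp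
      ring

/-- The function to be integrated. -/
def kk14 (u X k W : ℝ) : ℝ :=
  1 / ((1 + u ^ 2 * W ^ 2) * ((1 - k * W ^ 2) ^ 2 + X ^ 2 * W ^ 2))

theorem gpos14 {X k : ℝ} (hX : 0 < X) (hk : 0 ≤ k) (W : ℝ) :
    X ^ 2 / (X ^ 2 + 2 * k) ≤ (1 - k * W ^ 2) ^ 2 + X ^ 2 * W ^ 2 := by
  set l : ℝ := X ^ 2 / (X ^ 2 + 2 * k) with hl
  have h0 : 0 < X ^ 2 + 2 * k := by positivity
  have hl0 : 0 ≤ l := by positivity
  have hl1 : l ≤ 1 := by
    rw [hl, div_le_one h0]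
    linarith
  have hl2 : 2 * k * l ≤ X ^ 2 := by
    have h1 : l * (X ^ 2 + 2 * k) = X ^ 2 := by
      rw [hl]
      field_simp
    nlinarith [sq_nonneg X]
  have h2 : 1 - 2 * k * W ^ 2 + X ^ 2 * W ^ 2 ≤ (1 - k * W ^ 2) ^ 2 + X ^ 2 * W ^ 2 := by
    nlinarith [sq_nonneg (k * W ^ 2)]
  have h3 : X ^ 2 * W ^ 2 ≤ (1 - k * W ^ 2) ^ 2 + X ^ 2 * W ^ 2 := by
    nlinarith [sq_nonneg (1 - k * W ^ 2)]
  have h4 : 2 * k * l * W ^ 2 ≤ X ^ 2 * W ^ 2 := mul_le_mul_of_nonneg_right hl2 (sq_nonneg W)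
  nlinarith [mul_le_mul_of_nonneg_left h2 hl0, mul_le_mul_of_nonneg_left h3 (sub_nonneg.2 hl1)]

theorem gpos14' {X k : ℝ} (hX : 0 < X) (hk : 0 ≤ k) (W : ℝ) :
    0 < (1 - k * W ^ 2) ^ 2 + X ^ 2 * W ^ 2 :=
  lt_of_lt_of_le (by positivity) (gpos14 hX hk W)

theorem kk14_cont {u X k : ℝ} (hX : 0 < X) (hk : 0 ≤ k) : Continuous (kk14 u X k) := by
  unfold kk14
  refine continuous_const.div (by fun_prop) fun W => ?_
  have := gpos14' hX hk W
  positivity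

theorem kk14_int {u X k : ℝ} (hu : 0 < u) (hX : 0 < X) (hk : 0 ≤ k) :
    Integrable (kk14 u X k) := by
  have hi : Integrable (fun W : ℝ => (X ^ 2 / (X ^ 2 + 2 * k))⁻¹ * (1 + (u * W) ^ 2)⁻¹) :=
    (integrable_inv_one_add_sq.comp_mul_left' hu.ne').const_mul _
  refine hi.mono' (kk14_cont hX hk).aestronglyMeasurable (Eventually.of_forall fun W => ?_)
  have h1 := gpos14 hX hk W
  have h2 := gpos14' hX hk W
  have h3 : 0 < X ^ 2 / (X ^ 2 + 2 * k) := by positivity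
  rw [Real.norm_of_nonneg (by unfold kk14; positivity), kk14, one_div, ← mul_inv]
  apply inv_anti₀ (by positivity)
  rw [mul_comm, mul_pow]
  exact mul_le_mul_of_nonneg_left h1 (by positivity)

/-- The two preimages of `s = 1 / W - k W`. -/
theorem pre14 {u X k W : ℝ} (hu : 0 < u) (hX : 0 < X) (hk : 0 < k) (hW : 0 < W) :
    kk14 u X k W + kk14 u X k (k⁻¹ * W⁻¹) * (k⁻¹ * (W ^ 2)⁻¹) =
      (u ^ 2 * (W⁻¹ - k * W) ^ 2 + k * (k + u ^ 2)) /
        (((W⁻¹ - k * W) ^ 2 + X ^ 2) * (u ^ 2 * (W⁻¹ - k * W) ^ 2 + (k + u ^ 2) ^ 2)) *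
        ((W ^ 2)⁻¹ + k) := by
  have hG := gpos14' hX hk.le W
  set G : ℝ := (1 - k * W ^ 2) ^ 2 + X ^ 2 * W ^ 2 with hGd
  have hF : 0 < 1 + u ^ 2 * W ^ 2 := by positivity
  have hH : 0 < u ^ 2 + k ^ 2 * W ^ 2 := by positivity
  have e1 : kk14 u X k W = 1 / ((1 + u ^ 2 * W ^ 2) * G) := rfl
  have e2 : kk14 u X k (k⁻¹ * W⁻¹) * (k⁻¹ * (W ^ 2)⁻¹) =
      k ^ 3 * W ^ 4 / ((u ^ 2 + k ^ 2 * W ^ 2) * G) := by
    have a1 : 1 + u ^ 2 * (k⁻¹ * W⁻¹) ^ 2 = (u ^ 2 + k ^ 2 * W ^ 2) / (k ^ 2 * W ^ 2) := by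
      field_simp
      ring
    have a2 : (1 - k * (k⁻¹ * W⁻¹) ^ 2) ^ 2 + X ^ 2 * (k⁻¹ * W⁻¹) ^ 2 =
        G / (k ^ 2 * W ^ 4) := by
      rw [hGd]
      field_simp
      ring
    rw [kk14, a1, a2]
    field_simp
  have e3 : (W⁻¹ - k * W) ^ 2 + X ^ 2 = G / W ^ 2 := by
    rw [hGd]
    field_simp
  have e4 : u ^ 2 * (W⁻¹ - k * W) ^ 2 + (k + u ^ 2) ^ 2 =
      (1 + u ^ 2 * W ^ 2) * (u ^ 2 + k ^ 2 * W ^ 2) / W ^ 2 := by
    field_simp
    ring
  have e5 : u ^ 2 * (W⁻¹ - k * W) ^ 2 + k * (k + u ^ 2) =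
      (u ^ 2 + (k ^ 2 - k * u ^ 2) * W ^ 2 + u ^ 2 * k ^ 2 * W ^ 4) / W ^ 2 := by
    field_simp
    ring
  have e6 : (W ^ 2)⁻¹ + k = (1 + k * W ^ 2) / W ^ 2 := by
    field_simp
  rw [e1, e2, e3, e4, e5, e6]
  field_simp
  ring

/-- The inversion. -/
theorem inv14 {k : ℝ} (hk : 0 < k) (h : ℝ → ℝ) :
    ∫ W in Ioi (0 : ℝ), h (k⁻¹ * W⁻¹) * (k⁻¹ * (W ^ 2)⁻¹) = ∫ W in Ioi (0 : ℝ), h W := by
  have h1 := integral_comp_rpow_Ioi (fun y => k⁻¹ * h (k⁻¹ * y)) (p := -1) (by norm_num)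
  have h2 := integral_comp_mul_left_Ioi h 0 (inv_pos.2 hk)
  rw [mul_zero, inv_inv, smul_eq_mul] at h2
  rw [integral_const_mul, h2] at h1
  have h3 : ∫ W in Ioi (0 : ℝ), h (k⁻¹ * W⁻¹) * (k⁻¹ * (W ^ 2)⁻¹) =
      ∫ x in Ioi (0 : ℝ), (|(-1 : ℝ)| * x ^ ((-1 : ℝ) - 1)) • (k⁻¹ * h (k⁻¹ * x ^ (-1 : ℝ))) := by
    refine setIntegral_congr_fun measurableSet_Ioi fun x hx => ?_
    have hx0 : (0 : ℝ) < x := hx
    have e1 : x ^ ((-1 : ℝ) - 1) = (x ^ 2)⁻¹ := by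
      have : ((-1 : ℝ) - 1) = -((2 : ℕ) : ℝ) := by norm_num
      rw [this, Real.rpow_neg hx0.le, Real.rpow_natCast]
    simp only [e1, Real.rpow_neg_one, smul_eq_mul, abs_neg, abs_one, one_mul]
    ring
  rw [h3, h1]
  field_simp

theorem half14 {u X k : ℝ} (hu : 0 < u) (hX : 0 < X) (hk : 0 < k) :
    ∫ W : ℝ, kk14 u X k W = ∫ W in Ioi (0 : ℝ),
      (kk14 u X k W + kk14 u X k (k⁻¹ * W⁻¹) * (k⁻¹ * (W ^ 2)⁻¹)) := by
  have h1 : ∫ W : ℝ, kk14 u X k W = 2 * ∫ W in Ioi (0 : ℝ), kk14 u X k W := by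
    rw [← integral_comp_abs]
    refine integral_congr_ae (Eventually.of_forall fun W => ?_)
    simp only [kk14, sq_abs]
  have hi : IntegrableOn (kk14 u X k) (Ioi 0) := (kk14_int hu hX hk.le).integrableOn
  have hj : IntegrableOn (fun W => kk14 u X k (k⁻¹ * W⁻¹) * (k⁻¹ * (W ^ 2)⁻¹)) (Ioi 0) := by
    by_contra hc
    have h2 := inv14 hk (kk14 u X k)
    rw [integral_undef hc] at h2
    have h3 : 0 < ∫ W in Ioi (0 : ℝ), kk14 u X k W := by
      rw [setIntegral_pos_iff_support_of_nonneg_ae _ hi]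
      · have : Function.support (kk14 u X k) = univ := by
          ext W
          have := gpos14' hX hk.le W
          have : kk14 u X k W ≠ 0 := by
            unfold kk14
            positivity
          simp [this]
        rw [this]
        simp
      · refine Eventually.of_forall fun W => ?_
        have := gpos14' hX hk.le W
        show (0 : ℝ) ≤ kk14 u X k W
        unfold kk14
        positivity
    linarith
  rw [integral_add hi hj, inv14 hk, h1]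
  ring

theorem kerpos14 {u X k : ℝ} (hu : 0 < u) (hX : 0 < X) (hk : 0 < k) :
    ∫ W : ℝ, kk14 u X k W = Real.pi * ((u * X + k) / (X * (u ^ 2 + k + u * X))) := by
  have hc : 0 < (k + u ^ 2) / u := by positivity
  obtain ⟨Φ, L, hΦ, ht, hb, hL⟩ := two14 hX hc 1 (k * (k + u ^ 2) / u ^ 2)
  set s : ℝ → ℝ := fun W => W⁻¹ - k * W with hs
  have hsd : ∀ W ∈ Ioi (0 : ℝ), HasDerivAt s (-(W ^ 2)⁻¹ - k) W := by
    intro W hW
    have hW0 : (W : ℝ) ≠ 0 := (ne_of_gt hW)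
    have h1 : HasDerivAt s (-(W ^ 2)⁻¹ - k * 1) W :=
      (hasDerivAt_inv hW0).sub ((hasDerivAt_id W).const_mul k)
    rw [mul_one] at h1
    exact h1
  set F : ℝ → ℝ := Function.update (fun W => -Φ (s W)) 0 (-L) with hF
  have hFd : ∀ W ∈ Ioi (0 : ℝ), HasDerivAt F
      (kk14 u X k W + kk14 u X k (k⁻¹ * W⁻¹) * (k⁻¹ * (W ^ 2)⁻¹)) W := by
    intro W hW
    have hW' : 0 < W := hW
    have h1 := ((hΦ (s W)).comp W (hsd W hW)).neg
    have h2 : F =ᶠ[𝓝 W] fun W => -Φ (s W) := by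
      filter_upwards [Ioi_mem_nhds hW'] with V hV
      rw [hF, Function.update_of_ne (ne_of_gt hV)]
    have h3 := h1.congr_of_eventuallyEq h2
    have e : -((1 * s W ^ 2 + k * (k + u ^ 2) / u ^ 2) /
        ((s W ^ 2 + X ^ 2) * (s W ^ 2 + ((k + u ^ 2) / u) ^ 2)) * (-(W ^ 2)⁻¹ - k)) =
        kk14 u X k W + kk14 u X k (k⁻¹ * W⁻¹) * (k⁻¹ * (W ^ 2)⁻¹) := by
      rw [pre14 hu hX hk hW']
      have e1 : 1 * s W ^ 2 + k * (k + u ^ 2) / u ^ 2 =
          (u ^ 2 * (W⁻¹ - k * W) ^ 2 + k * (k + u ^ 2)) / u ^ 2 := by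
        simp only [hs]
        field_simp
      have e2 : s W ^ 2 + ((k + u ^ 2) / u) ^ 2 =
          (u ^ 2 * (W⁻¹ - k * W) ^ 2 + (k + u ^ 2) ^ 2) / u ^ 2 := by
        simp only [hs]
        field_simp
      have p1 : 0 < (W⁻¹ - k * W) ^ 2 + X ^ 2 := by positivity
      have p2 : 0 < u ^ 2 * (W⁻¹ - k * W) ^ 2 + (k + u ^ 2) ^ 2 := by positivity
      rw [e1, e2]
      have e3 : s W ^ 2 + X ^ 2 = (W⁻¹ - k * W) ^ 2 + X ^ 2 := rfl
      rw [e3]
      generalize (W⁻¹ - k * W) ^ 2 + X ^ 2 = P at p1 ⊢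
      generalize u ^ 2 * (W⁻¹ - k * W) ^ 2 + (k + u ^ 2) ^ 2 = Q at p2 ⊢
      generalize u ^ 2 * (W⁻¹ - k * W) ^ 2 + k * (k + u ^ 2) = R
      field_simp
      ring
    rw [e] at h3
    exact h3
  have hs0 : Tendsto s (𝓝[>] 0) atTop := by
    have h1 : Tendsto (fun W : ℝ => -(k * W)) (𝓝[>] 0) (𝓝 0) := by
      have : Tendsto (fun W : ℝ => -(k * W)) (𝓝 0) (𝓝 (-(k * 0))) :=
        (by fun_prop : Continuous fun W : ℝ => -(k * W)).tendsto 0
      simpa using this.mono_left nhdsWithin_le_nhds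
    have h2 := tendsto_inv_nhdsGT_zero (𝕜 := ℝ)
    have h3 := h2.atTop_add h1
    refine h3.congr fun W => ?_
    simp only [hs]
    ring
  have hsT : Tendsto s atTop atBot := by
    have h1 : Tendsto (fun W : ℝ => -(k * W)) atTop atBot :=
      tendsto_neg_atTop_atBot.comp (tendsto_id.const_mul_atTop hk)
    have h3 := (tendsto_inv_atTop_zero (𝕜 := ℝ)).add_atBot h1
    refine h3.congr fun W => ?_
    simp only [hs]
    ring
  have hcont : ContinuousWithinAt F (Ici 0) 0 := by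
    rw [hF, continuousWithinAt_update_same, Ici_sdiff_left]
    exact (ht.comp hs0).neg
  have htop : Tendsto F atTop (𝓝 L) := by
    have h1 : Tendsto (fun W => -Φ (s W)) atTop (𝓝 (- -L)) := (hb.comp hsT).neg
    rw [neg_neg] at h1
    refine h1.congr' ?_
    filter_upwards [eventually_gt_atTop (0 : ℝ)] with V hV
    rw [hF, Function.update_of_ne (ne_of_gt hV)]
  have hnn : ∀ W ∈ Ioi (0 : ℝ),
      0 ≤ kk14 u X k W + kk14 u X k (k⁻¹ * W⁻¹) * (k⁻¹ * (W ^ 2)⁻¹) := by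
    intro W hW
    have hW' : 0 < W := hW
    have h1 := gpos14' hX hk.le W
    have h2 := gpos14' hX hk.le (k⁻¹ * W⁻¹)
    unfold kk14
    positivity
  rw [half14 hu hX hk, integral_Ioi_of_hasDerivAt_of_nonneg hcont hFd hnn htop]
  have hF0 : F 0 = -L := by
    rw [hF, Function.update_self]
  rw [hF0]
  have e : L - -L = 2 * L := by ring
  rw [e, hL]
  congr 1
  field_simp
  ring

theorem kerzero14 {u X : ℝ} (hu : 0 < u) (hX : 0 < X) :
    ∫ W : ℝ, kk14 u X 0 W = Real.pi * ((u * X + 0) / (X * (u ^ 2 + 0 + u * X))) := by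
  obtain ⟨Φ, L, hΦ, ht, hb, hL⟩ := two14 (inv_pos.2 hu) (inv_pos.2 hX) 0 (1 / (u ^ 2 * X ^ 2))
  have hd : ∀ W, HasDerivAt Φ (kk14 u X 0 W) W := by
    intro W
    have h1 := hΦ W
    have e : (0 * W ^ 2 + 1 / (u ^ 2 * X ^ 2)) / ((W ^ 2 + u⁻¹ ^ 2) * (W ^ 2 + X⁻¹ ^ 2)) =
        kk14 u X 0 W := by
      have p1 : 0 < 1 + u ^ 2 * W ^ 2 := by positivity
      have p2 : 0 < 1 + X ^ 2 * W ^ 2 := by positivity
      have e1 : W ^ 2 + u⁻¹ ^ 2 = (1 + u ^ 2 * W ^ 2) / u ^ 2 := by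
        field_simp
        ring
      have e2 : W ^ 2 + X⁻¹ ^ 2 = (1 + X ^ 2 * W ^ 2) / X ^ 2 := by
        field_simp
        ring
      have e3 : (1 - 0 * W ^ 2) ^ 2 + X ^ 2 * W ^ 2 = 1 + X ^ 2 * W ^ 2 := by ring
      rw [kk14, e1, e2, e3]
      field_simp
      ring
    rw [e] at h1
    exact h1
  rw [integral_of_hasDerivAt_of_tendsto hd (kk14_int hu hX le_rfl) hb ht]
  have e : L - -L = 2 * L := by ring
  rw [e, hL]
  congr 1
  field_simp
  ring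

theorem ker_one {u X k : ℝ} (hu : 0 < u) (hX : 0 < X) (hk : 0 ≤ k) :
    Integrable (fun W : ℝ => 1 / ((1 + u ^ 2 * W ^ 2) * ((1 - k * W ^ 2) ^ 2 + X ^ 2 * W ^ 2))) ∧
    ∫ W : ℝ, 1 / ((1 + u ^ 2 * W ^ 2) * ((1 - k * W ^ 2) ^ 2 + X ^ 2 * W ^ 2)) =
      Real.pi * ((u * X + k) / (X * (u ^ 2 + k + u * X))) := by
  refine ⟨kk14_int hu hX hk, ?_⟩
  rcases hk.eq_or_lt with h | h
  · subst h
    exact kerzero14 hu hX
  · exact kerpos14 hu hX h

end Pool.Agent.E1
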