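import Pool.Agent.W_2cf66e_E1.DefsE
import Pool.Agent.W_2cf66e_E1.LeD1

/-!
# MP_2cf66e_nt, theorem E1, leaf D2 (helper14): the kernel polynomial
-/

set_option autoImplicit false

noncomputable section

open MeasureTheory Set Filter Topology

namespace Pool.Agent.E1

theorem qq_pos {a J D Om : ℝ} (ha : 0 < a) (hJ : 0 ≤ J) (hJ2 : 2 * J ≤ a) (hD : 0 ≤ D)
    (h0 : D = 0 → J = 0) (hO : 0 < Om) {t : ℝ} (ht : 0 ≤ t) : 0 < QQ a J D Om t := by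
  unfold QQ
  have hOt : 0 ≤ Om * t := mul_nonneg hO.le ht
  refine mul_pos (by positivity) ?_
  rcases hD.eq_or_lt with h | h
  · have hJ0 := h0 h.symm
    rw [← h, hJ0]
    norm_num
  · rcases hOt.eq_or_lt with h1 | h1
    · rw [← h1]
      norm_num
    · have : 0 < a ^ 2 * D * (Om * t) := by positivity
      nlinarith [sq_nonneg (1 - ((a - J) ^ 2 - D) * (D + J * (a - J)) * (Om * t))]

theorem qq_kk14 {a J D Om : ℝ} (hD : 0 < D) (hO : 0 < Om) (w : ℝ) :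
    1 / QQ a J D Om (w ^ 2) = kk14 ((a - J) ^ 2 - D) (a * Real.sqrt D)
      (((a - J) ^ 2 - D) * (D + J * (a - J))) (Real.sqrt Om * w) := by
  rw [kk14, QQ]
  have h1 : (Real.sqrt Om * w) ^ 2 = Om * w ^ 2 := by
    rw [mul_pow, Real.sq_sqrt hO.le]
  have h2 : (a * Real.sqrt D) ^ 2 = a ^ 2 * D := by
    rw [mul_pow, Real.sq_sqrt hD.le]
  rw [h1, h2]

theorem qq_int {a J D Om : ℝ} (ha : 0 < a) (hJ : 0 ≤ J) (hJ2 : 2 * J ≤ a) (hD : 0 < D)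
    (hD2 : 16 * D ≤ a ^ 2) (hO : 0 < Om) :
    Integrable (fun w : ℝ => 1 / QQ a J D Om (w ^ 2)) ∧ ∫ w : ℝ, 1 / QQ a J D Om (w ^ 2) =
      Real.pi * ((1 / a ^ 2 + J / (a ^ 2 * Real.sqrt D)) / Real.sqrt Om) := by
  have haJ : 0 < a - J := by linarith
  have hu : 0 < (a - J) ^ 2 - D := by nlinarith
  have hk : 0 ≤ ((a - J) ^ 2 - D) * (D + J * (a - J)) := by positivity
  have hX : 0 < a * Real.sqrt D := mul_pos ha (Real.sqrt_pos.2 hD)
  have hs : 0 < Real.sqrt Om := Real.sqrt_pos.2 hO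
  obtain ⟨hi, hv⟩ := ker_one hu hX hk
  simp only [qq_kk14 hD hO]
  refine ⟨(kk14_int hu hX hk).comp_mul_left' hs.ne', ?_⟩
  rw [Measure.integral_comp_mul_left (kk14 _ _ _) (Real.sqrt Om)]
  have hv' : ∫ W : ℝ, kk14 ((a - J) ^ 2 - D) (a * Real.sqrt D)
      (((a - J) ^ 2 - D) * (D + J * (a - J))) W = _ := hv
  rw [hv', smul_eq_mul, abs_of_pos (inv_pos.2 hs)]
  set d : ℝ := Real.sqrt D with hd
  have hd0 : 0 < d := Real.sqrt_pos.2 hD
  have hdD : D = d ^ 2 := (Real.sq_sqrt hD.le).symm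
  rw [hdD] at hu ⊢
  have e1 : ((a - J) ^ 2 - d ^ 2) * (a * d) + ((a - J) ^ 2 - d ^ 2) * (d ^ 2 + J * (a - J)) =
      ((a - J) ^ 2 - d ^ 2) * ((a - J + d) * (d + J)) := by ring
  have e2 : ((a - J) ^ 2 - d ^ 2) ^ 2 + ((a - J) ^ 2 - d ^ 2) * (d ^ 2 + J * (a - J)) +
      ((a - J) ^ 2 - d ^ 2) * (a * d) = ((a - J) ^ 2 - d ^ 2) * (a * (a - J + d)) := by ring
  rw [e1, e2]
  have h3 : 0 < a - J + d := by linarith
  generalize (a - J) ^ 2 - d ^ 2 = u at hu ⊢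
  generalize a - J + d = e at h3 ⊢
  field_simp

end Pool.Agent.E1
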