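import Pool.Agent.W_2cf66e_E1.DefsE
import Pool.Agent.W_2cf66e_h59.FinR

/-!
# MP_2cf66e_nt, theorem E1, leaf G1: the converse (helper78)
-/

set_option autoImplicit false

noncomputable section

open MeasureTheory

namespace Pool.Agent.E1

open Pool.Agent.CVol

theorem period_of_eqi {x : ℝ} (h : EQI x) : IsPeriod x := by
  obtain ⟨m, G, hG, hi, hv⟩ := h
  let a : Fin (m + 1) → MvPolynomial (Fin (m + 1)) ℤ :=
    Fin.cons (MvPolynomial.X 0 ^ 2) fun i => MvPolynomial.X i.succ
  have key : ∀ z : Fin (m + 1) → ℝ, (MvPolynomial.aeval z (MvPolynomial.aeval a G) : ℝ) =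
      MvPolynomial.aeval (Fin.cons (z 0 ^ 2) fun i => z i.succ : Fin (m + 1) → ℝ) G := by
    intro z
    have h1 : ((MvPolynomial.aeval z : MvPolynomial (Fin (m + 1)) ℤ →ₐ[ℤ] ℝ).comp
        (MvPolynomial.aeval a)) = MvPolynomial.aeval
          (Fin.cons (z 0 ^ 2) fun i => z i.succ : Fin (m + 1) → ℝ) := by
      refine MvPolynomial.algHom_ext fun i => ?_
      rw [AlgHom.comp_apply, MvPolynomial.aeval_X, MvPolynomial.aeval_X]
      refine Fin.cases ?_ (fun j => ?_) i
      · show (MvPolynomial.aeval z (MvPolynomial.X 0 ^ 2) : ℝ) = z 0 ^ 2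
        rw [map_pow, MvPolynomial.aeval_X]
      · show (MvPolynomial.aeval z (MvPolynomial.X j.succ) : ℝ) = z j.succ
        rw [MvPolynomial.aeval_X]
    exact DFunLike.congr_fun h1 G
  refine R59.abs_per (x := x) (n := m) 1 (MvPolynomial.aeval a G) ?_ ?_
  · simp only [map_one, key]
    exact hi
  · simp only [map_one, key]
    exact hv

end Pool.Agent.E1
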