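import Mathlib.MeasureTheory.Integral.IntegralEqImproper
import Mathlib.Analysis.SpecialFunctions.ImproperIntegrals
import Mathlib.Analysis.SpecialFunctions.Integrals.Basic

/-!
# MP_2cf66e_nt, theorem E1, leaf G2: `∫ (α v² + β v + γ)^(-3/2) dv = 8 √α / (4 α γ - β²)`
-/

set_option autoImplicit false

noncomputable section

open MeasureTheory Set Filter Topology

namespace Pool.Agent.E1

lemma G2_deriv {δ : ℝ} (hδ : 0 < δ) (w : ℝ) :
    HasDerivAt (fun w : ℝ => w / (δ * Real.sqrt (w ^ 2 + δ)))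
      (1 / ((w ^ 2 + δ) * Real.sqrt (w ^ 2 + δ))) w := by
  have hq : 0 < w ^ 2 + δ := by positivity
  have hs : 0 < Real.sqrt (w ^ 2 + δ) := Real.sqrt_pos.2 hq
  have h1 : HasDerivAt (fun w : ℝ => w ^ 2 + δ) (2 * w) w := by
    have := (hasDerivAt_pow 2 w).add_const δ
    simpa using this
  have h2 := (h1.sqrt hq.ne').const_mul δ
  have h3 := (hasDerivAt_id w).div h2 (by positivity)
  refine h3.congr_deriv ?_
  simp only [id]
  have hss : Real.sqrt (w ^ 2 + δ) ^ 2 = w ^ 2 + δ := Real.sq_sqrt hq.le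
  obtain ⟨s, hsd⟩ : ∃ s, s = Real.sqrt (w ^ 2 + δ) := ⟨_, rfl⟩
  rw [← hsd] at hs hss ⊢
  rw [← hss]
  field_simp
  nlinarith

lemma G2_top {δ : ℝ} (hδ : 0 < δ) :
    Tendsto (fun w : ℝ => w / (δ * Real.sqrt (w ^ 2 + δ))) atTop (𝓝 (1 / δ)) := by
  have h1 : Tendsto (fun w : ℝ => w ^ 2 + δ) atTop atTop :=
    tendsto_atTop_add_const_right _ _ (tendsto_pow_atTop two_ne_zero)
  have h2 : Tendsto (fun w : ℝ => Real.sqrt (1 - δ / (w ^ 2 + δ)) / δ) atTop (𝓝 (1 / δ)) := by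
    have h3 : Tendsto (fun w : ℝ => 1 - δ / (w ^ 2 + δ)) atTop (𝓝 (1 - 0)) :=
      tendsto_const_nhds.sub (h1.const_div_atTop δ)
    rw [sub_zero] at h3
    have h4 := (Real.continuous_sqrt.tendsto 1).comp h3
    rw [Real.sqrt_one] at h4
    exact h4.div_const δ
  refine h2.congr' ?_
  filter_upwards [eventually_ge_atTop (0 : ℝ)] with w hw
  have hq : 0 < w ^ 2 + δ := by positivity
  have hs : 0 < Real.sqrt (w ^ 2 + δ) := Real.sqrt_pos.2 hq
  have h5 : 1 - δ / (w ^ 2 + δ) = w ^ 2 / (w ^ 2 + δ) := by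
    field_simp
    ring
  rw [h5, Real.sqrt_div (by positivity), Real.sqrt_sq hw]
  field_simp

lemma G2_bot {δ : ℝ} (hδ : 0 < δ) :
    Tendsto (fun w : ℝ => w / (δ * Real.sqrt (w ^ 2 + δ))) atBot (𝓝 (-(1 / δ))) := by
  have h1 := ((G2_top hδ).comp tendsto_neg_atBot_atTop).neg
  refine h1.congr fun w => ?_
  show -(-w / (δ * Real.sqrt ((-w) ^ 2 + δ))) = _
  rw [neg_sq, neg_div, neg_neg]

lemma G2_int {δ : ℝ} (hδ : 0 < δ) :
    Integrable (fun w : ℝ => 1 / ((w ^ 2 + δ) * Real.sqrt (w ^ 2 + δ))) := by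
  have hc : 0 < min 1 δ := lt_min one_pos hδ
  refine (integrable_inv_one_add_sq.const_mul (1 / (min 1 δ * Real.sqrt δ))).mono'
    ((by fun_prop : Measurable fun w : ℝ => (w ^ 2 + δ) * Real.sqrt (w ^ 2 + δ)).const_div
      1).aestronglyMeasurable (Eventually.of_forall fun w => ?_)
  have hq : 0 < w ^ 2 + δ := by positivity
  have hs : 0 < Real.sqrt (w ^ 2 + δ) := Real.sqrt_pos.2 hq
  have hs0 : 0 < Real.sqrt δ := Real.sqrt_pos.2 hδ
  rw [Real.norm_eq_abs, abs_of_pos (by positivity), ← one_div, div_mul_div_comm, mul_one]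
  refine one_div_le_one_div_of_le (by positivity) ?_
  have h1 : min 1 δ * (1 + w ^ 2) ≤ w ^ 2 + δ := by
    nlinarith [min_le_left 1 δ, min_le_right 1 δ, sq_nonneg w]
  have h2 : Real.sqrt δ ≤ Real.sqrt (w ^ 2 + δ) :=
    Real.sqrt_le_sqrt (by nlinarith [sq_nonneg w])
  calc min 1 δ * Real.sqrt δ * (1 + w ^ 2) = (min 1 δ * (1 + w ^ 2)) * Real.sqrt δ := by ring
    _ ≤ (w ^ 2 + δ) * Real.sqrt (w ^ 2 + δ) := mul_le_mul h1 h2 hs0.le hq.le

/-- Leaf G2. -/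
theorem quad_int {al be ga : ℝ} (ha : 0 < al) (hd : 0 < 4 * al * ga - be ^ 2) :
    Integrable (fun v : ℝ => 1 / Real.sqrt ((al * v ^ 2 + be * v + ga) ^ 3)) ∧
    ∫ v : ℝ, 1 / Real.sqrt ((al * v ^ 2 + be * v + ga) ^ 3) =
      8 * Real.sqrt al / (4 * al * ga - be ^ 2) := by
  obtain ⟨δ, hδ⟩ : ∃ δ, δ = (4 * al * ga - be ^ 2) / (4 * al ^ 2) := ⟨_, rfl⟩
  have hδ0 : 0 < δ := by rw [hδ]; positivity
  have hsa : 0 < Real.sqrt al := Real.sqrt_pos.2 ha
  have hsa2 : Real.sqrt al ^ 2 = al := Real.sq_sqrt ha.le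
  have hf : (fun v : ℝ => 1 / Real.sqrt ((al * v ^ 2 + be * v + ga) ^ 3)) =
      fun v : ℝ => 1 / (al * Real.sqrt al) *
        (fun w : ℝ => 1 / ((w ^ 2 + δ) * Real.sqrt (w ^ 2 + δ))) (v + be / (2 * al)) := by
    funext v
    have hq : 0 < (v + be / (2 * al)) ^ 2 + δ := by positivity
    have h1 : al * v ^ 2 + be * v + ga = al * ((v + be / (2 * al)) ^ 2 + δ) := by
      rw [hδ]
      field_simp
      ring
    have h2 : Real.sqrt ((al * ((v + be / (2 * al)) ^ 2 + δ)) ^ 3) =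
        al * Real.sqrt al * (((v + be / (2 * al)) ^ 2 + δ) *
          Real.sqrt ((v + be / (2 * al)) ^ 2 + δ)) := by
      have h3 : (al * ((v + be / (2 * al)) ^ 2 + δ)) ^ 3 =
          (al * ((v + be / (2 * al)) ^ 2 + δ)) ^ 2 * (al * ((v + be / (2 * al)) ^ 2 + δ)) := by
        ring
      rw [h3, Real.sqrt_mul (sq_nonneg _), Real.sqrt_sq (by positivity), Real.sqrt_mul ha.le]
      ring
    rw [h1, h2]
    simp only
    rw [← one_div_mul_one_div]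
  have hi := G2_int hδ0
  refine ⟨?_, ?_⟩
  · rw [hf]
    exact (hi.comp_add_right (be / (2 * al))).const_mul _
  · rw [hf, integral_const_mul, integral_add_right_eq_self
      (fun w : ℝ => 1 / ((w ^ 2 + δ) * Real.sqrt (w ^ 2 + δ))) (be / (2 * al)),
      integral_of_hasDerivAt_of_tendsto (fun w => G2_deriv hδ0 w) hi (G2_bot hδ0) (G2_top hδ0),
      hδ]
    obtain ⟨s, hs⟩ : ∃ s, s = Real.sqrt al := ⟨_, rfl⟩
    rw [← hs] at hsa hsa2 ⊢
    obtain ⟨Δ, hΔ⟩ : ∃ Δ, Δ = 4 * al * ga - be ^ 2 := ⟨_, rfl⟩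
    rw [← hΔ] at hd ⊢
    rw [← hsa2]
    field_simp
    ring

end Pool.Agent.E1
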