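import Pool.Agent.W_2cf66e_E1.DefsE
import Pool.Agent.W_2cf66e_E1.LeG2

/-!
# MP_2cf66e_nt, theorem E1, leaf G3: `G(t, z) ↦ G((α v² + β v + γ)³ t, z)`
-/

set_option autoImplicit false

noncomputable section

open MeasureTheory Set Filter Topology

namespace Pool.Agent.E1

open Pool.Agent.CVol

/-- The coordinate `0` is multiplied by `c`. -/
def G3s {m : ℕ} (c : ℝ) (y : Fin (m + 1) → ℝ) : Fin (m + 1) → ℝ :=
  fun i => (if i = 0 then c else 1) * y i

lemma G3_meas {m : ℕ} (c : ℝ) : Measurable (G3s c : (Fin (m + 1) → ℝ) → Fin (m + 1) → ℝ) := by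
  unfold G3s
  fun_prop

lemma G3_map {m : ℕ} {c : ℝ} (hc : 0 < c) :
    ENNReal.ofReal c • Measure.map (G3s c) (volume : Measure (Fin (m + 1) → ℝ)) = volume := by
  have hdet : (Matrix.diagonal fun i : Fin (m + 1) => if i = 0 then c else 1).det = c := by
    rw [Matrix.det_diagonal, Finset.prod_ite_eq' Finset.univ 0 (fun _ => c)]
    simp
  have h := Real.smul_map_diagonal_volume_pi
    (D := fun i : Fin (m + 1) => if i = 0 then c else 1) (by rw [hdet]; exact hc.ne')
  rw [hdet, abs_of_pos hc] at h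
  have h2 : (⇑(Matrix.toLin' (Matrix.diagonal fun i : Fin (m + 1) => if i = 0 then c else 1)) :
      (Fin (m + 1) → ℝ) → Fin (m + 1) → ℝ) = G3s c := by
    funext y i
    rw [Matrix.toLin'_apply, Matrix.mulVec_diagonal]
    rfl
  rwa [h2] at h

lemma G3_integrable {m : ℕ} {c : ℝ} (hc : 0 < c) {g : (Fin (m + 1) → ℝ) → ℝ}
    (hg : Measurable g) (hi : Integrable g) : Integrable fun y => g (G3s c y) := by
  rw [← G3_map hc] at hi
  have h1 : Integrable g (Measure.map (G3s c) (volume : Measure (Fin (m + 1) → ℝ))) :=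
    (integrable_smul_measure (by simpa using hc) ENNReal.ofReal_ne_top).1 hi
  exact (integrable_map_measure hg.aestronglyMeasurable (G3_meas c).aemeasurable).1 h1

lemma G3_integral {m : ℕ} {c : ℝ} (hc : 0 < c) {g : (Fin (m + 1) → ℝ) → ℝ}
    (hg : Measurable g) : ∫ y, g (G3s c y) = 1 / c * ∫ y, g y := by
  have h1 : ∫ y, g y = c * ∫ y, g (G3s c y) := by
    conv_lhs => rw [← G3_map (m := m) hc]
    rw [integral_smul_measure, ENNReal.toReal_ofReal hc.le, smul_eq_mul,
      integral_map (G3_meas c).aemeasurable hg.aestronglyMeasurable]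
  rw [h1]
  field_simp

/-- The polynomial in one more variable. -/
def G3p {m : ℕ} (al be ga : ℤ) (G : MvPolynomial (Fin (m + 1)) ℤ) :
    MvPolynomial (Fin (m + 1 + 1)) ℤ :=
  MvPolynomial.bind₁ (fun i : Fin (m + 1) =>
    if i = 0 then MvPolynomial.X 0 * (MvPolynomial.C al * MvPolynomial.X (Fin.last (m + 1)) ^ 2 +
      MvPolynomial.C be * MvPolynomial.X (Fin.last (m + 1)) + MvPolynomial.C ga) ^ 3
    else MvPolynomial.X i.castSucc) G

lemma G3_aeval {m : ℕ} (al be ga : ℤ) (G : MvPolynomial (Fin (m + 1)) ℤ)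
    (z : Fin (m + 1 + 1) → ℝ) :
    (MvPolynomial.aeval z (G3p al be ga G) : ℝ) =
      MvPolynomial.aeval (fun i : Fin (m + 1) => if i = 0 then
        z 0 * (al * z (Fin.last (m + 1)) ^ 2 + be * z (Fin.last (m + 1)) + ga) ^ 3
        else z i.castSucc) G := by
  unfold G3p
  rw [MvPolynomial.aeval_bind₁]
  congr 2
  funext i
  split_ifs <;> simp

/-- Leaf G3. -/
theorem eqi_mul {x : ℝ} (h : EQI x) {al be ga : ℤ} (ha : 0 < al)
    (hd : 0 < 4 * al * ga - be ^ 2) :
    EQI (x * (8 * Real.sqrt al / (4 * al * ga - be ^ 2))) := by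
  obtain ⟨m, G, hpos, hint, hval⟩ := h
  have haR : (0 : ℝ) < al := by exact_mod_cast ha
  have hdR : (0 : ℝ) < 4 * al * ga - be ^ 2 := by exact_mod_cast hd
  obtain ⟨hq1, hq2⟩ := quad_int haR hdR
  have hqpos : ∀ v : ℝ, 0 < (al : ℝ) * v ^ 2 + be * v + ga := by
    intro v
    have h1 : (0 : ℝ) < 4 * al * ((al : ℝ) * v ^ 2 + be * v + ga) := by
      nlinarith [sq_nonneg (2 * (al : ℝ) * v + be)]
    exact (mul_pos_iff_of_pos_left (by positivity)).1 h1
  obtain ⟨g, hg⟩ : ∃ g : (Fin (m + 1) → ℝ) → ℝ, g = fun z : Fin (m + 1) → ℝ =>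
      1 / (MvPolynomial.aeval (Fin.cons (z 0 ^ 2) fun i => z i.succ : Fin (m + 1) → ℝ) G : ℝ) :=
    ⟨_, rfl⟩
  rw [← hg] at hint hval
  have hgm : Measurable g := by
    rw [hg]
    refine Measurable.const_div ?_ _
    have h1 : Continuous fun z : Fin (m + 1) → ℝ => (MvPolynomial.aeval z G : ℝ) := by
      have := MvPolynomial.continuous_eval (MvPolynomial.map (Int.castRingHom ℝ) G)
      refine this.congr fun z => ?_
      rw [MvPolynomial.eval_map, MvPolynomial.aeval_def]
      rfl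
    refine h1.measurable.comp (measurable_pi_iff.2 fun i => ?_)
    refine Fin.cases ?_ (fun j => ?_) i
    · simp only [Fin.cons_zero]
      fun_prop
    · simp only [Fin.cons_succ]
      fun_prop
  -- the new integrand
  obtain ⟨cc, hcc⟩ : ∃ cc : ℝ → ℝ, cc = fun v : ℝ =>
      Real.sqrt (((al : ℝ) * v ^ 2 + be * v + ga) ^ 3) := ⟨_, rfl⟩
  have hcc0 : ∀ v, 0 < cc v := fun v => by
    rw [hcc]
    exact Real.sqrt_pos.2 (pow_pos (hqpos v) 3)
  have hccm : Measurable cc := by
    rw [hcc]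
    fun_prop
  have hcc2 : ∀ v, cc v ^ 2 = ((al : ℝ) * v ^ 2 + be * v + ga) ^ 3 := fun v => by
    rw [hcc]
    exact Real.sq_sqrt (pow_pos (hqpos v) 3).le
  have hnew : ∀ z : Fin (m + 1 + 1) → ℝ,
      1 / (MvPolynomial.aeval (Fin.cons (z 0 ^ 2) fun i => z i.succ : Fin (m + 1 + 1) → ℝ)
        (G3p al be ga G) : ℝ) =
      g (G3s (cc (z (Fin.last (m + 1)))) fun i => z i.castSucc) := by
    intro z
    rw [G3_aeval, hg]
    simp only
    congr 3
    funext i
    refine Fin.cases ?_ (fun j => ?_) i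
    · rw [if_pos rfl, Fin.cons_zero, Fin.cons_zero]
      have e1 : (Fin.cons (z 0 ^ 2) fun i => z i.succ : Fin (m + 1 + 1) → ℝ)
          (Fin.last (m + 1)) = z (Fin.last (m + 1)) := by
        rw [← Fin.succ_last, Fin.cons_succ]
      rw [e1]
      unfold G3s
      rw [if_pos rfl, mul_pow, hcc2]
      simp only [Fin.castSucc_zero]
      ring
    · rw [if_neg (Fin.succ_ne_zero j), Fin.cons_succ, ← Fin.succ_castSucc, Fin.cons_succ]
      unfold G3s
      rw [if_neg (Fin.succ_ne_zero j), one_mul, Fin.succ_castSucc]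
  -- the function on the product
  have hH : Measurable fun p : ℝ × (Fin (m + 1) → ℝ) => g (G3s (cc p.1) p.2) := by
    refine hgm.comp ?_
    unfold G3s
    refine measurable_pi_iff.2 fun i => ?_
    refine Measurable.mul ?_ ((measurable_pi_apply i).comp measurable_snd)
    split_ifs
    · exact hccm.comp measurable_fst
    · exact measurable_const
  have hHi : Integrable (fun p : ℝ × (Fin (m + 1) → ℝ) => g (G3s (cc p.1) p.2))
      (volume.prod volume) := by
    rw [integrable_prod_iff hH.aestronglyMeasurable]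
    refine ⟨Eventually.of_forall fun v => G3_integrable (hcc0 v) hgm hint, ?_⟩
    have h1 : (fun v : ℝ => ∫ y : Fin (m + 1) → ℝ, ‖g (G3s (cc v) y)‖) =
        fun v : ℝ => (1 / cc v) * ∫ y : Fin (m + 1) → ℝ, ‖g y‖ := by
      funext v
      exact G3_integral (hcc0 v) (g := fun y => ‖g y‖) hgm.norm
    simp only
    rw [h1]
    refine Integrable.mul_const ?_ _
    rw [hcc]
    exact hq1
  have hHv : ∫ p : ℝ × (Fin (m + 1) → ℝ), g (G3s (cc p.1) p.2) ∂(volume.prod volume) =
      Real.pi * (x * (8 * Real.sqrt al / (4 * al * ga - be ^ 2))) := by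
    rw [integral_prod _ hHi]
    have h1 : (fun v : ℝ => ∫ y : Fin (m + 1) → ℝ, g (G3s (cc v) y)) =
        fun v : ℝ => (1 / cc v) * (Real.pi * x) := by
      funext v
      rw [G3_integral (hcc0 v) hgm, hval]
    simp only
    rw [h1, integral_mul_const]
    have h2 : ∫ v : ℝ, 1 / cc v = 8 * Real.sqrt al / (4 * al * ga - be ^ 2) := by
      rw [hcc]
      exact hq2
    rw [h2]
    ring
  -- the equivalence
  have hmp := volume_preserving_piFinSuccAbove (fun _ : Fin (m + 1 + 1) => ℝ) (Fin.last (m + 1))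
  have hcomp : ∀ z : Fin (m + 1 + 1) → ℝ,
      (fun p : ℝ × (Fin (m + 1) → ℝ) => g (G3s (cc p.1) p.2))
        ((MeasurableEquiv.piFinSuccAbove (fun _ : Fin (m + 1 + 1) => ℝ) (Fin.last (m + 1))) z) =
      1 / (MvPolynomial.aeval (Fin.cons (z 0 ^ 2) fun i => z i.succ : Fin (m + 1 + 1) → ℝ)
        (G3p al be ga G) : ℝ) := by
    intro z
    rw [hnew z]
    have e1 : (MeasurableEquiv.piFinSuccAbove (fun _ : Fin (m + 1 + 1) => ℝ)
        (Fin.last (m + 1))) z = (z (Fin.last (m + 1)), fun i => z i.castSucc) := by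
      refine Prod.ext rfl ?_
      funext j
      show z ((Fin.last (m + 1)).succAbove j) = _
      rw [Fin.succAbove_last]
    rw [e1]
  refine ⟨m + 1, G3p al be ga G, ?_, ?_, ?_⟩
  · intro z hz
    rw [G3_aeval]
    refine hpos _ ?_
    rw [if_pos rfl]
    exact mul_nonneg hz (pow_pos (hqpos _) 3).le
  · have h1 := hmp.integrable_comp_of_integrable hHi
    refine h1.congr (Eventually.of_forall fun z => ?_)
    exact hcomp z
  · have hHv' : ∫ p : ℝ × (Fin (m + 1) → ℝ), g (G3s (cc p.1) p.2) =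
        Real.pi * (x * (8 * Real.sqrt al / (4 * al * ga - be ^ 2))) := hHv
    rw [← hHv', ← hmp.integral_comp' (fun p : ℝ × (Fin (m + 1) → ℝ) => g (G3s (cc p.1) p.2))]
    exact integral_congr_ae (Eventually.of_forall fun z => (hcomp z).symm)

end Pool.Agent.E1
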