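import Pool.Agent.W_2cf66e_E1.LeG3

/-!
# MP_2cf66e_nt, theorem E1, leaf G4: rational multiples and integral coefficients
-/

set_option autoImplicit false

noncomputable section

open MeasureTheory Set Filter Topology

namespace Pool.Agent.E1

open Pool.Agent.CVol

/-- Leaf G4: division by a natural number. -/
theorem eqi_div {x : ℝ} (h : EQI x) {n : ℕ} (hn : 0 < n) : EQI (x / n) := by
  obtain ⟨m, G, hpos, hint, hval⟩ := h
  have hn0 : (0 : ℝ) < n := by exact_mod_cast hn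
  have he : ∀ z : Fin (m + 1) → ℝ,
      (MvPolynomial.aeval z ((n : MvPolynomial (Fin (m + 1)) ℤ) * G) : ℝ) =
        n * MvPolynomial.aeval z G := by
    intro z
    rw [map_mul, map_natCast]
  have hf : (fun z : Fin (m + 1) → ℝ => 1 / (MvPolynomial.aeval
      (Fin.cons (z 0 ^ 2) fun i => z i.succ : Fin (m + 1) → ℝ)
        ((n : MvPolynomial (Fin (m + 1)) ℤ) * G) : ℝ)) =
      fun z : Fin (m + 1) → ℝ => 1 / (n : ℝ) * (1 / (MvPolynomial.aeval
        (Fin.cons (z 0 ^ 2) fun i => z i.succ : Fin (m + 1) → ℝ) G : ℝ)) := by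
    funext z
    rw [he, one_div_mul_one_div]
  refine ⟨m, (n : MvPolynomial (Fin (m + 1)) ℤ) * G, ?_, ?_, ?_⟩
  · intro z hz
    rw [he]
    exact mul_pos hn0 (hpos z hz)
  · rw [hf]
    exact hint.const_mul _
  · rw [hf, integral_const_mul, hval]
    ring

lemma eqi_two {x : ℝ} (h : EQI x) : EQI (2 * x) := by
  have h1 := eqi_mul h (al := 1) (be := 0) (ga := 1) (by norm_num) (by norm_num)
  have h2 : x * (8 * Real.sqrt ((1 : ℤ) : ℝ) / (4 * ((1 : ℤ) : ℝ) * ((1 : ℤ) : ℝ) -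
      ((0 : ℤ) : ℝ) ^ 2)) = 2 * x := by
    simp
    ring
  rwa [h2] at h1

/-- Leaf G4: multiplication by a natural number. -/
theorem eqi_nat {x : ℝ} (h : EQI x) (n : ℕ) (hn : 0 < n) : EQI (n * x) := by
  induction n with
  | zero => exact absurd hn (lt_irrefl 0)
  | succ k ih =>
    rcases Nat.eq_zero_or_pos k with rfl | hk
    · simpa using h
    · have hk0 : (0 : ℝ) < k := by exact_mod_cast hk
      have h1 := eqi_mul (eqi_two (ih hk)) (al := ((k : ℤ) + 1) ^ 2) (be := 2 * ((k : ℤ) - 1))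
        (ga := 1) (by positivity) (by
          have : 4 * ((k : ℤ) + 1) ^ 2 * 1 - (2 * ((k : ℤ) - 1)) ^ 2 = 16 * k := by ring
          rw [this]
          have : (0 : ℤ) < k := by exact_mod_cast hk
          linarith)
      have h2 : 2 * ((k : ℝ) * x) * (8 * Real.sqrt ((((k : ℤ) + 1) ^ 2 : ℤ) : ℝ) /
          (4 * ((((k : ℤ) + 1) ^ 2 : ℤ) : ℝ) * ((1 : ℤ) : ℝ) -
            ((2 * ((k : ℤ) - 1) : ℤ) : ℝ) ^ 2)) = ((k + 1 : ℕ) : ℝ) * x := by
        push_cast
        rw [Real.sqrt_sq (by linarith)]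
        have h3 : 4 * ((k : ℝ) + 1) ^ 2 * 1 - (2 * ((k : ℝ) - 1)) ^ 2 = 16 * k := by ring
        rw [h3]
        field_simp
        ring
      rwa [h2] at h1

/-- Denominators of a polynomial. -/
lemma G4_den {σ : Type} (G : MvPolynomial σ ℚ) : ∃ (n : ℕ) (G' : MvPolynomial σ ℤ), 0 < n ∧
    MvPolynomial.map (Int.castRingHom ℚ) G' = MvPolynomial.C (n : ℚ) * G := by
  induction G using MvPolynomial.induction_on with
  | C a =>
    refine ⟨a.den, MvPolynomial.C a.num, a.den_pos, ?_⟩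
    rw [MvPolynomial.map_C, ← MvPolynomial.C_mul]
    congr 1
    rw [mul_comm, Rat.mul_den_eq_num]
    rfl
  | add p q hp hq =>
    obtain ⟨n, P, hn, hP⟩ := hp
    obtain ⟨k, Q, hk, hQ⟩ := hq
    refine ⟨n * k, (k : MvPolynomial σ ℤ) * P + (n : MvPolynomial σ ℤ) * Q,
      Nat.mul_pos hn hk, ?_⟩
    rw [map_add, map_mul, map_mul, hP, hQ]
    simp only [map_natCast]
    push_cast
    ring
  | mul_X p i hp =>
    obtain ⟨n, P, hn, hP⟩ := hp
    refine ⟨n, P * MvPolynomial.X i, hn, ?_⟩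
    rw [map_mul, hP, MvPolynomial.map_X]
    ring

/-- Leaf G4: integral coefficients. -/
theorem eqi_of_eqe {x : ℝ} (h : EQe x) : EQI x := by
  obtain ⟨m, G, hpos, hint, hval⟩ := h
  obtain ⟨n, G', hn, hG'⟩ := G4_den G
  have hn0 : (0 : ℝ) < n := by exact_mod_cast hn
  have he : ∀ z : Fin (m + 1) → ℝ,
      (MvPolynomial.aeval z G' : ℝ) = n * MvPolynomial.aeval z G := by
    intro z
    have h1 : (MvPolynomial.aeval z G' : ℝ) =
        MvPolynomial.aeval z (MvPolynomial.map (Int.castRingHom ℚ) G') := by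
      rw [MvPolynomial.aeval_def, MvPolynomial.aeval_def, MvPolynomial.eval₂_map]
      congr 1
    rw [h1, hG', map_mul, MvPolynomial.aeval_C]
    simp
  have hf : (fun z : Fin (m + 1) → ℝ => 1 / (MvPolynomial.aeval
      (Fin.cons (z 0 ^ 2) fun i => z i.succ : Fin (m + 1) → ℝ) G' : ℝ)) =
      fun z : Fin (m + 1) → ℝ => 1 / (n : ℝ) * (1 / (MvPolynomial.aeval
        (Fin.cons (z 0 ^ 2) fun i => z i.succ : Fin (m + 1) → ℝ) G : ℝ)) := by
    funext z
    rw [he, one_div_mul_one_div]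
  have h1 : EQI (x / n) := by
    refine ⟨m, G', ?_, ?_, ?_⟩
    · intro z hz
      rw [he]
      exact mul_pos hn0 (hpos z hz)
    · rw [hf]
      exact hint.const_mul _
    · rw [hf, integral_const_mul, hval]
      ring
  have h2 := eqi_nat h1 n hn
  rwa [mul_div_cancel₀ _ hn0.ne'] at h2

end Pool.Agent.E1
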