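import Pool.Agent.W_2cf66e_E1.LeG1
import Pool.Agent.W_2cf66e_E1.LeG4
import Pool.Agent.W_2cf66e_h3.Main3
import Pool.Agent.W_2cf66e_PS.Stmt59

/-!
# MP_2cf66e_nt, theorem E1: the forms of the statement (helper3)
-/

set_option autoImplicit false

noncomputable section

open MeasureTheory

namespace Pool.Agent.E1

open Pool.Agent.CVol

/-- one positive integer polynomial -/
def OneP (x : ℝ) : Prop :=
  ∃ (n : ℕ) (Q : MvPolynomial (Fin (n + 1)) ℤ),
    (∀ z : Fin (n + 1) → ℝ, 0 < (MvPolynomial.aeval z Q : ℝ)) ∧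
    Integrable (fun z : Fin (n + 1) → ℝ =>
      (MvPolynomial.aeval z (1 : MvPolynomial (Fin (n + 1)) ℤ) : ℝ) / MvPolynomial.aeval z Q) ∧
    ∫ z : Fin (n + 1) → ℝ,
      (MvPolynomial.aeval z (1 : MvPolynomial (Fin (n + 1)) ℤ) : ℝ) / MvPolynomial.aeval z Q =
        Real.pi * x

theorem onep_of_eqi {x : ℝ} (h : EQI x) : OneP x := by
  obtain ⟨m, G, hG, hi, hv⟩ := h
  let a : Fin (m + 1) → MvPolynomial (Fin (m + 1)) ℤ :=
    Fin.cons (MvPolynomial.X 0 ^ 2) fun i => MvPolynomial.X i.succ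
  have key : ∀ z : Fin (m + 1) → ℝ, (MvPolynomial.aeval z (MvPolynomial.aeval a G) : ℝ) =
      MvPolynomial.aeval (Fin.cons (z 0 ^ 2) fun i => z i.succ : Fin (m + 1) → ℝ) G := by
    intro z
    have h1 : ((MvPolynomial.aeval z : MvPolynomial (Fin (m + 1)) ℤ →ₐ[ℤ] ℝ).comp
        (MvPolynomial.aeval a)) = MvPolynomial.aeval
          (Fin.cons (z 0 ^ 2) fun i => z i.succ : Fin (m + 1) → ℝ) := by
      refine MvPolynomial.algHom_ext fun i => ?_
      rw [AlgHom.comp_apply, MvPolynomial.aeval_X, MvPolynomial.aeval_X]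
      refine Fin.cases ?_ (fun j => ?_) i
      · show (MvPolynomial.aeval z (MvPolynomial.X 0 ^ 2) : ℝ) = z 0 ^ 2
        rw [map_pow, MvPolynomial.aeval_X]
      · show (MvPolynomial.aeval z (MvPolynomial.X j.succ) : ℝ) = z j.succ
        rw [MvPolynomial.aeval_X]
    exact DFunLike.congr_fun h1 G
  refine ⟨m, MvPolynomial.aeval a G, fun z => ?_, ?_, ?_⟩
  · rw [key]
    exact hG _ (by rw [Fin.cons_zero]; positivity)
  · simp only [map_one, key]
    exact hi
  · simp only [map_one, key]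
    exact hv

theorem onep_back {x : ℝ} (h : OneP x) : IsPeriod x := by
  obtain ⟨n, Q, -, hi, hv⟩ := h
  exact R59.abs_per 1 Q hi hv

theorem det_of_onep {x : ℝ} (h : OneP x) : ∃ n : ℕ, NF59.DetInt (n + 1) (Real.pi * x) := by
  obtain ⟨n, Q, h0, hi, hv⟩ := h
  simp only [map_one] at hi hv
  obtain ⟨N, c, hc⟩ := OneIneq.exists_mat Q
  refine ⟨n, N, c, fun z => ?_, ?_, ?_⟩
  · rw [hc]; exact h0 z
  · simp only [hc]; exact hi
  · simp only [hc]; exact hv

theorem onep_of_det {x : ℝ} {n : ℕ} (h : NF59.DetInt (n + 1) (Real.pi * x)) : OneP x := by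
  obtain ⟨N, c, h0, hi, hv⟩ := h
  obtain ⟨f, hf⟩ := OneIneq.mat_poly c
  refine ⟨n, f, fun z => ?_, ?_, ?_⟩
  · rw [← hf]; exact h0 z
  · simp only [map_one, ← hf]; exact hi
  · simp only [map_one, ← hf]; exact hv

end Pool.Agent.E1
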