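import Pool.Agent.W_2cf66e_E1.DefsE
import Pool.Agent.W_2cf66e_h59.FinR

/-!
# MP_2cf66e_nt, theorem E1: the plain form `π x = ∫ 1 / Q`, `Q` positive everywhere (helper23)
-/

set_option autoImplicit false

noncomputable section

open MeasureTheory

namespace Pool.Agent.E1

open Pool.Agent.CVol

/-- from `G (w², z)` to one polynomial `Q`, positive everywhere -/
theorem plain_of_eqi {x : ℝ} (h : EQI x) : ∃ (m : ℕ) (Q : MvPolynomial (Fin (m + 1)) ℤ),
    (∀ z : Fin (m + 1) → ℝ, 0 < (MvPolynomial.aeval z Q : ℝ)) ∧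
    Integrable (fun z : Fin (m + 1) → ℝ => 1 / (MvPolynomial.aeval z Q : ℝ)) ∧
    ∫ z : Fin (m + 1) → ℝ, 1 / (MvPolynomial.aeval z Q : ℝ) = Real.pi * x := by
  obtain ⟨m, G, hG, hi, hv⟩ := h
  let a : Fin (m + 1) → MvPolynomial (Fin (m + 1)) ℤ :=
    Fin.cons (MvPolynomial.X 0 ^ 2) fun i => MvPolynomial.X i.succ
  have key : ∀ z : Fin (m + 1) → ℝ, (MvPolynomial.aeval z (MvPolynomial.aeval a G) : ℝ) =
      MvPolynomial.aeval (Fin.cons (z 0 ^ 2) fun i => z i.succ : Fin (m + 1) → ℝ) G := by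
    intro z
    have h1 : ((MvPolynomial.aeval z : MvPolynomial (Fin (m + 1)) ℤ →ₐ[ℤ] ℝ).comp
        (MvPolynomial.aeval a)) = MvPolynomial.aeval
          (Fin.cons (z 0 ^ 2) fun i => z i.succ : Fin (m + 1) → ℝ) := by
      refine MvPolynomial.algHom_ext fun i => ?_
      rw [AlgHom.comp_apply, MvPolynomial.aeval_X, MvPolynomial.aeval_X]
      refine Fin.cases ?_ (fun j => ?_) i
      · show (MvPolynomial.aeval z (MvPolynomial.X 0 ^ 2) : ℝ) = z 0 ^ 2
        rw [map_pow, MvPolynomial.aeval_X]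
      · show (MvPolynomial.aeval z (MvPolynomial.X j.succ) : ℝ) = z j.succ
        rw [MvPolynomial.aeval_X]
    exact DFunLike.congr_fun h1 G
  refine ⟨m, MvPolynomial.aeval a G, fun z => ?_, ?_, ?_⟩
  · rw [key]
    refine hG _ ?_
    show (0 : ℝ) ≤ z 0 ^ 2
    positivity
  · simp only [key]
    exact hi
  · simp only [key]
    exact hv

/-- the converse, without any condition of positivity -/
theorem plain_back {x : ℝ} {m : ℕ} (Q : MvPolynomial (Fin (m + 1)) ℤ)
    (hi : Integrable (fun z : Fin (m + 1) → ℝ => 1 / (MvPolynomial.aeval z Q : ℝ)))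
    (hv : ∫ z : Fin (m + 1) → ℝ, 1 / (MvPolynomial.aeval z Q : ℝ) = Real.pi * x) :
    IsPeriod x := by
  refine R59.abs_per (x := x) (n := m) 1 Q ?_ ?_
  · simp only [map_one]
    exact hi
  · simp only [map_one]
    exact hv

end Pool.Agent.E1
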